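import Mathlib
import Pool.Agent.H67R3.FSR.Current

set_option autoImplicit false

/-!
# Block decompositions of words and twists
-/

namespace Pool.Agent.H67R4.SR

open Pool.Agent.H67R3.FSR

variable {N : ℕ}

/-- A letter followed by a word. -/
abbrev Blk (N : ℕ) := Lt N × List (Lt N)

def wd (bs : List (Blk N)) : List (Lt N) := bs.flatMap fun p => p.1 :: p.2

theorem wd_nil : wd ([] : List (Blk N)) = [] := rfl

theorem wd_cons (p : Blk N) (bs : List (Blk N)) : wd (p :: bs) = (p.1 :: p.2) ++ wd bs := by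
  simp [wd]

theorem wd_append (as bs : List (Blk N)) : wd (as ++ bs) = wd as ++ wd bs := by simp [wd]

def Rl (p q : Blk N) : Prop := p.2 = [] → q.1 ≠ inv' p.1

def Ok (Y : Fin N → Prop) (p : Blk N) : Prop := Y p.1.1 ∧ ∀ z ∈ p.2, ¬ Y z.1

theorem red_cons {Y : Fin N → Prop} {p : Blk N} (h : Ok Y p) :
    FreeGroup.IsReduced (p.1 :: p.2) ↔ FreeGroup.IsReduced p.2 := by
  unfold FreeGroup.IsReduced
  rw [List.isChain_cons]
  constructor
  · exact fun h => h.2
  · refine fun h2 => ⟨?_, h2⟩
    intro y hy he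
    have := h.2 y (List.mem_of_mem_head? hy)
    rw [← he] at this
    exact absurd h.1 this

theorem wd_reduced_iff {Y : Fin N → Prop} : ∀ (bs : List (Blk N)), (∀ p ∈ bs, Ok Y p) →
    (FreeGroup.IsReduced (wd bs) ↔ bs.IsChain Rl ∧ ∀ p ∈ bs, FreeGroup.IsReduced p.2)
  | [], _ => by simp [wd_nil]
  | [p], h => by
    rw [wd_cons, wd_nil, List.append_nil, red_cons (h p (by simp))]
    simp
  | p :: q :: bs, h => by
    have ih := wd_reduced_iff (q :: bs) (fun r hr => h r (List.mem_cons_of_mem _ hr))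
    have hp := h p (by simp)
    have hq := h q (by simp)
    rw [wd_cons, FreeGroup.IsReduced, List.isChain_append]
    change FreeGroup.IsReduced (p.1 :: p.2) ∧ FreeGroup.IsReduced (wd (q :: bs)) ∧ _ ↔ _
    rw [red_cons hp, ih, List.isChain_cons_cons]
    have key : (∀ x ∈ (p.1 :: p.2).getLast?, ∀ y ∈ (wd (q :: bs)).head?, x.1 = y.1 → x.2 = y.2) ↔
        Rl p q := by
      have hh : (wd (q :: bs)).head? = some q.1 := by rw [wd_cons]; rfl
      rw [hh]
      constructor
      · intro h1 hn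
        rw [hn] at h1
        have := h1 p.1 (by simp) q.1 rfl
        rwa [reduced_iff] at this
      · intro h1 x hx y hy
        simp only [Option.mem_def, Option.some.injEq] at hy
        subst hy
        by_cases hn : p.2 = []
        · rw [hn] at hx
          simp only [List.getLast?_singleton, Option.mem_def, Option.some.injEq] at hx
          subst hx
          rw [reduced_iff]
          exact h1 hn
        · intro he
          have hx2 : x ∈ p.2 := by
            rw [List.getLast?_cons_of_ne_nil hn] at hx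
            exact List.mem_of_getLast? hx
          have := hp.2 x hx2
          rw [he] at this
          exact absurd hq.1 this
    rw [key]
    simp only [List.mem_cons, forall_eq_or_imp]
    tauto

/-- Elements all of whose letters avoid `Y`. -/
def ZG (Y : Fin N → Prop) (g : FreeGroup (Fin N)) : Prop := ∀ z ∈ g.toWord, ¬ Y z.1

theorem ZG.mul {Y : Fin N → Prop} {g h : FreeGroup (Fin N)} (hg : ZG Y g) (hh : ZG Y h) :
    ZG Y (g * h) := by
  intro z hz
  have := (FreeGroup.toWord_mul_sublist g h).subset hz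
  rcases List.mem_append.mp this with h1 | h1
  · exact hg z h1
  · exact hh z h1

theorem ZG.inv {Y : Fin N → Prop} {g : FreeGroup (Fin N)} (hg : ZG Y g) : ZG Y g⁻¹ := by
  intro z hz
  rw [FreeGroup.toWord_inv] at hz
  unfold FreeGroup.invRev at hz
  rw [List.mem_reverse, List.mem_map] at hz
  obtain ⟨x, hx, rfl⟩ := hz
  exact hg x hx

theorem ZG.mk {Y : Fin N → Prop} {w : List (Lt N)} (hw : ∀ z ∈ w, ¬ Y z.1) :
    ZG Y (FreeGroup.mk w) := by
  intro z hz
  rw [FreeGroup.toWord_mk] at hz
  exact hw z ((FreeGroup.Red.sublist FreeGroup.reduce.red).subset hz)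

section Twist

variable (Y : Fin N → Prop) [DecidablePred Y] (lam : Lt N → FreeGroup (Fin N))

def th : FreeGroup (Fin N) →* FreeGroup (Fin N) :=
  FreeGroup.lift fun i =>
    if Y i then lam (i, true) * FreeGroup.of i * (lam (i, false))⁻¹ else FreeGroup.of i

theorem th_Y (y : Lt N) (hy : Y y.1) :
    th Y lam (lt y) = lam y * lt y * (lam (inv' y))⁻¹ := by
  obtain ⟨i, s⟩ := y
  simp only at hy
  cases s
  · rw [lt_false, map_inv]
    simp [th, hy, inv', mul_assoc]
  · rw [lt_true]
    simp [th, hy, inv']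

theorem th_Z (z : Lt N) (hz : ¬ Y z.1) : th Y lam (lt z) = lt z := by
  obtain ⟨i, s⟩ := z
  simp only at hz
  cases s
  · rw [lt_false, map_inv]
    simp [th, hz]
  · rw [lt_true]
    simp [th, hz]

theorem mk_cons' (a : Lt N) (l : List (Lt N)) :
    (FreeGroup.mk (a :: l) : FreeGroup (Fin N)) = lt a * FreeGroup.mk l := by
  rw [lt, FreeGroup.mul_mk]
  rfl

theorem th_Zw : ∀ w : List (Lt N), (∀ z ∈ w, ¬ Y z.1) → th Y lam (FreeGroup.mk w) = FreeGroup.mk w
  | [], _ => by
    change th Y lam 1 = 1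
    exact map_one _
  | z :: w, h => by
    rw [mk_cons', map_mul, th_Z Y lam z (h z (by simp)),
      th_Zw w fun x hx => h x (List.mem_cons_of_mem _ hx)]

def hd (y0 : Lt N) : List (Blk N) → Lt N
  | [] => y0
  | q :: _ => q.1

def tw (y0 : Lt N) : List (Blk N) → List (Blk N)
  | [] => []
  | p :: bs => (p.1, ((lam (inv' p.1))⁻¹ * FreeGroup.mk p.2 * lam (hd y0 bs)).toWord) :: tw y0 bs

theorem th_wd (y0 : Lt N) : ∀ bs : List (Blk N), (∀ p ∈ bs, Ok Y p) →
    th Y lam (FreeGroup.mk (wd bs)) =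
      lam (hd y0 bs) * FreeGroup.mk (wd (tw lam y0 bs)) * (lam y0)⁻¹
  | [], _ => by
    change th Y lam 1 = lam y0 * 1 * _
    rw [map_one]
    group
  | p :: bs, h => by
    have ih := th_wd y0 bs fun x hx => h x (List.mem_cons_of_mem _ hx)
    have hp := h p (by simp)
    rw [wd_cons, ← FreeGroup.mul_mk, map_mul, ih, mk_cons', map_mul, th_Y Y lam _ hp.1,
      th_Zw Y lam _ hp.2]
    simp only [tw, hd, wd_cons]
    rw [← FreeGroup.mul_mk, mk_cons', FreeGroup.mk_toWord]
    group

theorem tw_append (y0 : Lt N) : ∀ as bs : List (Blk N),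
    tw lam y0 (as ++ bs) = tw lam (hd y0 bs) as ++ tw lam y0 bs
  | [], bs => rfl
  | p :: as, bs => by
    rw [List.cons_append]
    simp only [tw, List.cons_append]
    rw [tw_append y0 as bs]
    cases as <;> rfl

theorem tw_ok {y0 : Lt N} (hlam : ∀ y, Y y.1 → ZG Y (lam y)) (h0 : Y y0.1) :
    ∀ bs : List (Blk N), (∀ p ∈ bs, Ok Y p) → ∀ p ∈ tw lam y0 bs, Ok Y p
  | [], _ => by simp [tw]
  | p :: bs, h => by
    have ih := tw_ok hlam h0 bs fun x hx => h x (List.mem_cons_of_mem _ hx)
    have hp := h p (by simp)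
    intro q hq
    simp only [tw, List.mem_cons] at hq
    rcases hq with rfl | hq
    · refine ⟨hp.1, ?_⟩
      change ZG Y _
      refine ((hlam _ (by exact hp.1)).inv.mul (ZG.mk hp.2)).mul (hlam _ ?_)
      cases bs with
      | nil => exact h0
      | cons b bs => exact (h b (by simp)).1
    · exact ih q hq

theorem tw_red (y0 : Lt N) : ∀ bs : List (Blk N), ∀ p ∈ tw lam y0 bs, FreeGroup.IsReduced p.2
  | [] => by simp [tw]
  | p :: bs => by
    intro q hq
    simp only [tw, List.mem_cons] at hq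
    rcases hq with rfl | hq
    · exact FreeGroup.isReduced_toWord
    · exact tw_red y0 bs q hq

theorem tw_chain (y0 : Lt N) : ∀ bs : List (Blk N), (∀ p ∈ bs, FreeGroup.IsReduced p.2) →
    bs.IsChain Rl → (tw lam y0 bs).IsChain Rl
  | [], _, _ => by simp [tw]
  | [p], _, _ => by simp [tw]
  | p :: q :: bs, h, hc => by
    have ih := tw_chain y0 (q :: bs) (fun x hx => h x (List.mem_cons_of_mem _ hx)) hc.tail
    rw [List.isChain_cons_cons] at hc
    simp only [tw] at ih ⊢
    rw [List.isChain_cons_cons]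
    refine ⟨?_, ih⟩
    intro he hq
    simp only [hd] at he hq
    rw [FreeGroup.toWord_eq_nil_iff, hq, mul_eq_one_iff_eq_inv] at he
    have h1 : (FreeGroup.mk p.2 : FreeGroup (Fin N)) = 1 := by
      have : FreeGroup.mk p.2 = lam (inv' p.1) * (lam (inv' p.1))⁻¹ := by
        rw [← he]; group
      rw [this, mul_inv_cancel]
    have h2 : p.2 = [] := by
      have := (h p (by simp)).reduce_eq
      rw [← this, ← FreeGroup.toWord_mk, h1, FreeGroup.toWord_one]
    exact hc.1 h2 hq

end Twist

/-- `L` is a cyclically reduced word representing the conjugacy class of `g`. -/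
def Rep (g : FreeGroup (Fin N)) (L : List (Lt N)) : Prop :=
  L ≠ [] ∧ FreeGroup.IsReduced (L ++ L) ∧ IsConj g (FreeGroup.mk L)

theorem Rep.rot {g : FreeGroup (Fin N)} {u v : List (Lt N)} (h : Rep g (u ++ v)) :
    Rep g (v ++ u) := by
  obtain ⟨h1, h2, h3⟩ := h
  refine ⟨?_, ?_, h3.trans ?_⟩
  · simp only [ne_eq, List.append_eq_nil_iff, not_and] at h1 ⊢
    intro hv hu
    exact h1 hu hv
  · unfold FreeGroup.IsReduced at h2 ⊢
    rcases eq_or_ne v [] with hv | hv
    · subst hv
      simpa using h2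
    rcases eq_or_ne u [] with hu | hu
    · subst hu
      simpa using h2
    have e : u ++ v ++ (u ++ v) = u ++ (v ++ u) ++ v := by simp
    rw [e] at h2
    have h4 : List.IsChain (fun a b : Lt N => a.1 = b.1 → a.2 = b.2) (v ++ u) :=
      (List.isChain_append.mp (List.isChain_append.mp h2).1).2.1
    have h5 : List.IsChain (fun a b : Lt N => a.1 = b.1 → a.2 = b.2) (u ++ v) := by
      have e2 : u ++ (v ++ u) ++ v = (u ++ v) ++ (u ++ v) := by simp
      rw [e2] at h2
      exact (List.isChain_append.mp h2).1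
    rw [List.isChain_append]
    refine ⟨h4, h4, ?_⟩
    rw [List.getLast?_append_of_ne_nil _ hu, List.head?_append_of_ne_nil _ hv]
    exact (List.isChain_append.mp h5).2.2
  · rw [isConj_iff]
    refine ⟨(FreeGroup.mk u)⁻¹, ?_⟩
    rw [← FreeGroup.mul_mk, ← FreeGroup.mul_mk]
    group

theorem cyc_iff {L : List (Lt N)} : FreeGroup.IsReduced (L ++ L) ↔
    FreeGroup.IsCyclicallyReduced L := by
  unfold FreeGroup.IsReduced FreeGroup.IsCyclicallyReduced FreeGroup.IsReduced
  rw [List.isChain_append]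
  tauto

theorem exists_rep {g : FreeGroup (Fin N)} (hg : g ≠ 1) : ∃ L, Rep g L := by
  have h3 := FreeGroup.reduceCyclically.conj_conjugator_reduceCyclically g.toWord
  have h4 := congrArg FreeGroup.mk h3
  rw [← FreeGroup.mul_mk, ← FreeGroup.mul_mk, FreeGroup.mk_toWord, ← FreeGroup.inv_mk] at h4
  refine ⟨FreeGroup.reduceCyclically g.toWord, ?_, ?_, ?_⟩
  · intro hn
    rw [hn] at h4
    apply hg
    rw [← h4]
    change _ * 1 * _ = _
    group
  · rw [cyc_iff]
    exact FreeGroup.reduceCyclically.isCyclicallyReduced FreeGroup.isReduced_toWord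
  · rw [isConj_comm, isConj_iff]
    exact ⟨_, h4⟩

theorem Rep.ne_one {g : FreeGroup (Fin N)} {L : List (Lt N)} (h : Rep g L) : g ≠ 1 := by
  rintro rfl
  have h1 := (isConj_one_right.mp h.2.2)
  have h2 : FreeGroup.IsReduced L := (cyc_iff.mp h.2.1).isReduced
  have := h2.reduce_eq
  rw [← FreeGroup.toWord_mk, h1, FreeGroup.toWord_one] at this
  exact h.1 this.symm

theorem exists_blocks (Y : Fin N → Prop) : ∀ (L : List (Lt N)) (a : Lt N), Y a.1 →
    ∃ (w : List (Lt N)) (bs : List (Blk N)), wd ((a, w) :: bs) = a :: L ∧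
      ∀ p ∈ (a, w) :: bs, Ok Y p
  | [], a, ha => ⟨[], [], rfl, by
      intro p hp
      simp only [List.mem_cons, List.not_mem_nil, or_false] at hp
      subst hp
      exact ⟨ha, by simp⟩⟩
  | b :: L, a, ha => by
    by_cases hb : Y b.1
    · obtain ⟨w, bs, h1, h2⟩ := exists_blocks Y L b hb
      refine ⟨[], (b, w) :: bs, ?_, ?_⟩
      · rw [wd_cons, h1]
        rfl
      · intro p hp
        rw [List.mem_cons] at hp
        rcases hp with rfl | hp
        · exact ⟨ha, by simp⟩
        · exact h2 p hp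
    · obtain ⟨w, bs, h1, h2⟩ := exists_blocks Y L a ha
      refine ⟨b :: w, bs, ?_, ?_⟩
      · rw [wd_cons] at h1 ⊢
        simp only [List.cons_append, List.cons.injEq, true_and] at h1 ⊢
        exact h1
      · intro p hp
        rw [List.mem_cons] at hp
        rcases hp with rfl | hp
        · refine ⟨ha, ?_⟩
          intro z hz
          rw [List.mem_cons] at hz
          rcases hz with rfl | hz
          · exact hb
          · exact (h2 (a, w) (by simp)).2 z hz
        · exact h2 p (List.mem_cons_of_mem _ hp)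

theorem Rep.blocks (Y : Fin N → Prop) {g : FreeGroup (Fin N)} {a : Lt N} {L : List (Lt N)}
    (h : Rep g (a :: L)) (ha : Y a.1) : ∃ (w : List (Lt N)) (bs : List (Blk N)),
      wd ((a, w) :: bs) = a :: L ∧ (∀ p ∈ (a, w) :: bs, Ok Y p) ∧
      (∀ p ∈ (a, w) :: bs, FreeGroup.IsReduced p.2) ∧
      List.IsChain Rl ((a, w) :: bs ++ (a, w) :: bs) := by
  obtain ⟨w, bs, h1, h2⟩ := exists_blocks Y L a ha
  have h3 := h.2.1
  rw [← h1, ← wd_append, wd_reduced_iff (Y := Y)] at h3
  · exact ⟨w, bs, h1, h2, fun p hp => h3.2 p (List.mem_append_left _ hp), h3.1⟩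
  · intro p hp
    rcases List.mem_append.mp hp with h | h
    · exact h2 p h
    · exact h2 p h

/-- The effect of a twist on a cyclic word. -/
theorem Rep.twist (Y : Fin N → Prop) [DecidablePred Y] (lam : Lt N → FreeGroup (Fin N))
    (hlam : ∀ y, Y y.1 → ZG Y (lam y)) {g : FreeGroup (Fin N)} {p : Blk N} {bs : List (Blk N)}
    (h : Rep g (wd (p :: bs))) (hok : ∀ q ∈ p :: bs, Ok Y q) :
    Rep (th Y lam g) (wd (tw lam p.1 (p :: bs))) := by
  have h3 := h.2.1
  have hok2 : ∀ q ∈ p :: bs ++ p :: bs, Ok Y q := by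
    intro q hq
    rcases List.mem_append.mp hq with h | h
    · exact hok q h
    · exact hok q h
  rw [← wd_append, wd_reduced_iff (Y := Y) _ hok2] at h3
  refine ⟨?_, ?_, ?_⟩
  · simp [tw, wd_cons]
  · have e : tw lam p.1 (p :: bs ++ p :: bs) =
        tw lam p.1 (p :: bs) ++ tw lam p.1 (p :: bs) := by
      rw [tw_append]
      rfl
    rw [← wd_append, ← e, wd_reduced_iff (Y := Y)]
    · exact ⟨tw_chain lam p.1 _ h3.2 h3.1, tw_red lam p.1 _⟩
    · exact tw_ok Y lam hlam (hok p (by simp)).1 _ hok2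
  · obtain ⟨c, hc⟩ := isConj_iff.mp h.2.2
    have h5 := congrArg (th Y lam) hc
    rw [th_wd Y lam p.1 _ hok] at h5
    rw [isConj_iff]
    refine ⟨(lam p.1)⁻¹ * th Y lam c, ?_⟩
    rw [map_mul, map_mul, map_inv] at h5
    have : (lam p.1)⁻¹ * th Y lam c * th Y lam g * ((lam p.1)⁻¹ * th Y lam c)⁻¹ =
        (lam p.1)⁻¹ * (th Y lam c * th Y lam g * (th Y lam c)⁻¹) * lam p.1 := by group
    rw [this, h5]
    simp only [hd]
    group

end Pool.Agent.H67R4.SR
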