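import Mathlib
import Pool.Agent.H67R4.SR.Blocks

set_option autoImplicit false

/-!
# Ends, the boundary map of an automorphism, axes
-/

namespace Pool.Agent.H67R4.SR

open Pool.Agent.H67R3.FSR Filter Topology

variable {N : ℕ}

/-- The sequence `u` converges to the end `ξ`. -/
def Conv (u : ℕ → FreeGroup (Fin N)) (ξ : Bd N) : Prop :=
  ∀ v, ∀ᶠ n in atTop, (v⁻¹ * u n).toWord.head? = some (ξ.1 v)

theorem Conv.unique {u : ℕ → FreeGroup (Fin N)} {ξ ζ : Bd N} (h1 : Conv u ξ) (h2 : Conv u ζ) :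
    ξ = ζ := by
  apply Subtype.ext
  funext v
  obtain ⟨n, hn1, hn2⟩ := ((h1 v).and (h2 v)).exists
  rw [hn1] at hn2
  exact Option.some.inj hn2

theorem head_close {x y : FreeGroup (Fin N)} (h : (x⁻¹ * y).norm < x.norm) :
    y.toWord.head? = x.toWord.head? := by
  have := head_append (x⁻¹ * y).toWord x.toWord FreeGroup.isReduced_toWord
    FreeGroup.isReduced_toWord h
  rwa [← FreeGroup.toWord_mul, mul_inv_cancel_left] at this

theorem toWord_lt_mul {x : FreeGroup (Fin N)} {b : Lt N} (h : x.toWord.head? ≠ some (inv' b)) :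
    (lt b * x).toWord = b :: x.toWord := by
  have hr : FreeGroup.IsReduced (b :: x.toWord) := by
    unfold FreeGroup.IsReduced
    rw [List.isChain_cons]
    refine ⟨?_, FreeGroup.isReduced_toWord⟩
    intro y hy
    rw [reduced_iff]
    rintro rfl
    exact h hy
  have e : lt b * x = FreeGroup.mk (b :: x.toWord) := by
    rw [mk_cons', FreeGroup.mk_toWord]
  rw [e, FreeGroup.toWord_mk, hr.reduce_eq]

theorem toWord_mul_lt {x : FreeGroup (Fin N)} {b : Lt N}
    (h : x.toWord.getLast? ≠ some (inv' b)) : (x * lt b).toWord = x.toWord ++ [b] := by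
  have hr : FreeGroup.IsReduced (x.toWord ++ [b]) := by
    unfold FreeGroup.IsReduced
    rw [List.isChain_append]
    refine ⟨FreeGroup.isReduced_toWord, by simp, ?_⟩
    intro y hy z hz
    simp only [List.head?_cons, Option.mem_def, Option.some.injEq] at hz
    subst hz
    rw [reduced_iff]
    rintro rfl
    rw [inv'_inv'] at h
    exact h hy
  have e : x * lt b = FreeGroup.mk (x.toWord ++ [b]) := by
    rw [← FreeGroup.mul_mk, FreeGroup.mk_toWord]
    rfl
  rw [e, FreeGroup.toWord_mk, hr.reduce_eq]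

theorem exists_conv {u : ℕ → FreeGroup (Fin N)} {B : ℕ}
    (h1 : ∀ n, ((u n)⁻¹ * u (n + 1)).norm ≤ B)
    (h2 : Tendsto (fun n => (u n).norm) atTop atTop) : ∃ ξ, Conv u ξ := by
  have key : ∀ v : FreeGroup (Fin N), ∃ (a : Lt N) (n0 : ℕ), ∀ n, n0 ≤ n →
      (v⁻¹ * u n).toWord.head? = some a := by
    intro v
    have h3 := (tendsto_atTop.mp h2 (v.norm + B + 1))
    rw [eventually_atTop] at h3
    obtain ⟨n0, hn0⟩ := h3
    have hbig : ∀ n, n0 ≤ n → B < (v⁻¹ * u n).norm := by
      intro n hn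
      have := hn0 n hn
      have h4 := FreeGroup.norm_mul_le v (v⁻¹ * u n)
      rw [mul_inv_cancel_left] at h4
      omega
    have hconst : ∀ k, (v⁻¹ * u (n0 + k)).toWord.head? = (v⁻¹ * u n0).toWord.head? := by
      intro k
      induction k with
      | zero => rfl
      | succ k ih =>
        rw [← ih]
        apply head_close
        have e : (v⁻¹ * u (n0 + k))⁻¹ * (v⁻¹ * u (n0 + (k + 1))) =
            (u (n0 + k))⁻¹ * u (n0 + k + 1) := by
          rw [← add_assoc]; group
        rw [e]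
        exact lt_of_le_of_lt (h1 _) (hbig _ (Nat.le_add_right _ _))
    have hne : v⁻¹ * u n0 ≠ 1 := by
      intro he
      have := hbig n0 le_rfl
      rw [he, FreeGroup.norm_one] at this
      omega
    obtain ⟨a, l, hw⟩ := exists_cons hne
    refine ⟨a, n0, fun n hn => ?_⟩
    obtain ⟨k, rfl⟩ := Nat.exists_eq_add_of_le hn
    rw [hconst k, hw]
    rfl
  choose f n0 hf using key
  refine ⟨⟨f, ?_⟩, fun v => eventually_atTop.mpr ⟨n0 v, hf v⟩⟩
  intro v a
  set n := max (n0 v) (n0 (v * lt a)) with hn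
  have e1 := hf v n (le_max_left _ _)
  have e2 := hf (v * lt a) n (le_max_right _ _)
  have e3 : (v * lt a)⁻¹ * u n = lt (inv' a) * (v⁻¹ * u n) := by
    rw [lt_inv']; group
  rw [e3] at e2
  constructor
  · intro h4 h5
    rw [h5] at e1
    obtain ⟨t, ht⟩ := List.head?_eq_some_iff.mp e1
    have hr : FreeGroup.IsReduced (a :: t) := by
      rw [← ht]; exact FreeGroup.isReduced_toWord
    have e4 : lt (inv' a) * (v⁻¹ * u n) = FreeGroup.mk t := by
      rw [← FreeGroup.mk_toWord (x := v⁻¹ * u n), ht, mk_cons', lt_inv', inv_mul_cancel_left]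
    rw [e4, FreeGroup.toWord_mk, FreeGroup.IsReduced.reduce_eq (L := t) hr.tail, h4] at e2
    unfold FreeGroup.IsReduced at hr
    rw [List.isChain_cons] at hr
    have := hr.1 _ e2
    rw [reduced_iff] at this
    exact this rfl
  · intro h4
    have h5 : (v⁻¹ * u n).toWord.head? ≠ some (inv' (inv' a)) := by
      rw [e1, inv'_inv']
      intro h
      exact h4 (Option.some.inj h)
    rw [toWord_lt_mul h5] at e2
    exact (Option.some.inj e2).symm

/-- The ray from the base vertex to an end. -/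
def ray (ξ : Bd N) : ℕ → FreeGroup (Fin N)
  | 0 => 1
  | n + 1 => ray ξ n * lt (ξ.1 (ray ξ n))

theorem ray_word (ξ : Bd N) : ∀ n, (ray ξ (n + 1)).toWord = (ray ξ n).toWord ++ [ξ.1 (ray ξ n)]
  | 0 => by
    simp only [ray, one_mul, FreeGroup.toWord_one, List.nil_append]
    rw [lt, FreeGroup.toWord_mk]
    exact FreeGroup.IsReduced.reduce_eq (by unfold FreeGroup.IsReduced; simp)
  | n + 1 => by
    have ih := ray_word ξ n
    conv_lhs => rw [ray]
    apply toWord_mul_lt
    rw [ih, List.getLast?_append, List.getLast?_singleton, Option.some_or]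
    intro h
    have h1 := Option.some.inj h
    have h2 := (ξ.2 (ray ξ n) (ξ.1 (ray ξ n)))
    have h3 : ξ.1 (ray ξ (n + 1)) = inv' (ξ.1 (ray ξ n)) := by
      rw [h1, inv'_inv']
    exact (h2.mp h3) rfl

theorem ray_norm (ξ : Bd N) (n : ℕ) : (ray ξ n).norm = n := by
  induction n with
  | zero => exact FreeGroup.norm_one
  | succ n ih =>
    unfold FreeGroup.norm at *
    rw [ray_word, List.length_append, ih]
    rfl

theorem ray_pfx (ξ : Bd N) (k : ℕ) : ∀ j, ∃ t, (ray ξ (k + j)).toWord = (ray ξ k).toWord ++ t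
  | 0 => ⟨[], by simp⟩
  | j + 1 => by
    obtain ⟨t, ht⟩ := ray_pfx ξ k j
    exact ⟨t ++ [ξ.1 (ray ξ (k + j))], by rw [← add_assoc, ray_word, ht, List.append_assoc]⟩

theorem norm_lt (a : Lt N) : (lt a).norm = 1 := by
  unfold FreeGroup.norm
  rw [lt, FreeGroup.toWord_mk, FreeGroup.IsReduced.reduce_eq (by unfold FreeGroup.IsReduced; simp)]
  rfl

theorem ray_conv (ξ : Bd N) : Conv (ray ξ) ξ := by
  have h1 : ∀ n, ((ray ξ n)⁻¹ * ray ξ (n + 1)).norm ≤ 1 := by
    intro n
    rw [ray, inv_mul_cancel_left, norm_lt]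
  have h2 : Tendsto (fun n => (ray ξ n).norm) atTop atTop := by
    simp only [ray_norm]
    exact tendsto_id
  obtain ⟨ζ, hζ⟩ := exists_conv h1 h2
  have : ζ = ξ := by
    by_contra hne
    have : ∃ v, ζ.1 v ≠ ξ.1 v := by
      by_contra hc
      push Not at hc
      exact hne (Subtype.ext (funext hc))
    obtain ⟨v, hv⟩ := this
    obtain ⟨n0, hn0⟩ := eventually_atTop.mp (hζ v)
    have hdec : ∀ k, (v⁻¹ * ray ξ (n0 + k)).norm + k = (v⁻¹ * ray ξ n0).norm := by
      intro k
      induction k with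
      | zero => rfl
      | succ k ih =>
        rw [← ih]
        have e1 := hn0 (n0 + k) (Nat.le_add_right _ _)
        obtain ⟨t, ht⟩ := List.head?_eq_some_iff.mp e1
        have hr : FreeGroup.IsReduced (ζ.1 v :: t) := by
          rw [← ht]; exact FreeGroup.isReduced_toWord
        have e2 := follow ξ t (ζ.1 v) v hr hv.symm
        have hm : (FreeGroup.mk (ζ.1 v :: t) : FreeGroup (Fin N)) = v⁻¹ * ray ξ (n0 + k) := by
          rw [← ht, FreeGroup.mk_toWord]
        rw [hm, mul_inv_cancel_left] at e2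
        obtain ⟨s, b, hs⟩ : ∃ s b, (v⁻¹ * ray ξ (n0 + k)).toWord = s ++ [b] := by
          rcases List.eq_nil_or_concat (v⁻¹ * ray ξ (n0 + k)).toWord with h | ⟨s, b, h⟩
          · rw [h] at ht; simp at ht
          · exact ⟨s, b, by rw [h, List.concat_eq_append]⟩
        have e2' : ξ.1 (ray ξ (n0 + k)) = inv' b := by
          rw [e2]
          congr 1
          have h6 : ζ.1 v :: t = s ++ [b] := by rw [← ht, hs]
          simp only [h6, List.getLast_append_singleton]
        have e3 : v⁻¹ * ray ξ (n0 + (k + 1)) = FreeGroup.mk s := by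
          rw [← add_assoc, ray, e2', ← mul_assoc, ← FreeGroup.mk_toWord (x := v⁻¹ * ray ξ (n0 + k)),
            hs, ← FreeGroup.mul_mk, lt_inv', mul_assoc]
          change FreeGroup.mk s * (lt b * (lt b)⁻¹) = _
          rw [mul_inv_cancel, mul_one]
        have hrs : FreeGroup.IsReduced s := by
          have : FreeGroup.IsReduced (s ++ [b]) := by
            rw [← hs]; exact FreeGroup.isReduced_toWord
          exact (List.isChain_append.mp this).1
        rw [e3]
        unfold FreeGroup.norm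
        rw [FreeGroup.toWord_mk, hrs.reduce_eq, hs]
        simp only [List.length_append, List.length_cons, List.length_nil]
        omega
    have := hdec ((v⁻¹ * ray ξ n0).norm + 1)
    omega
  rw [← this]
  rw [this] at hζ ⊢
  exact hζ

theorem Conv.pfx {u : ℕ → FreeGroup (Fin N)} {ξ : Bd N} (h : Conv u ξ) (k : ℕ) :
    ∀ᶠ n in atTop, ∃ t, (u n).toWord = (ray ξ k).toWord ++ t := by
  induction k with
  | zero => exact Eventually.of_forall fun n => ⟨(u n).toWord, by simp [ray]⟩
  | succ k ih =>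
    filter_upwards [ih, h (ray ξ k)] with n ⟨t, ht⟩ h2
    have hr : FreeGroup.IsReduced t := by
      have : FreeGroup.IsReduced ((ray ξ k).toWord ++ t) := by
        rw [← ht]; exact FreeGroup.isReduced_toWord
      exact (List.isChain_append.mp this).2.1
    have e : (ray ξ k)⁻¹ * u n = FreeGroup.mk t := by
      rw [← FreeGroup.mk_toWord (x := u n), ht, ← FreeGroup.mul_mk, FreeGroup.mk_toWord,
        inv_mul_cancel_left]
    rw [e, FreeGroup.toWord_mk, hr.reduce_eq] at h2
    obtain ⟨s, hs⟩ := List.head?_eq_some_iff.mp h2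
    refine ⟨s, ?_⟩
    rw [ht, hs, ray_word]
    simp

theorem Conv.smul {u : ℕ → FreeGroup (Fin N)} {ξ : Bd N} (h : Conv u ξ) (g : FreeGroup (Fin N)) :
    Conv (fun n => g * u n) (g • ξ) := by
  intro v
  rw [Bd.smul_apply]
  filter_upwards [h (g⁻¹ * v)] with n hn
  rw [← hn]
  congr 2
  group

theorem Conv.shift {u : ℕ → FreeGroup (Fin N)} {ξ : Bd N} (h : Conv u ξ) :
    Conv (fun n => u (n + 1)) ξ := by
  intro v
  exact (tendsto_add_atTop_nat 1).eventually (h v)

section BdMap

variable (α : FreeGroup (Fin N) ≃* FreeGroup (Fin N))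

theorem exists_lip : ∃ B : ℕ, ∀ g : FreeGroup (Fin N), (α g).norm ≤ B * g.norm := by
  classical
  refine ⟨∑ a : Lt N, (α (lt a)).norm, ?_⟩
  have key : ∀ l : List (Lt N), (α (FreeGroup.mk l)).norm ≤
      (∑ a : Lt N, (α (lt a)).norm) * l.length := by
    intro l
    induction l with
    | nil =>
      change (α 1).norm ≤ _
      rw [map_one, FreeGroup.norm_one]
      exact Nat.zero_le _
    | cons a l ih =>
      rw [mk_cons', map_mul, List.length_cons, Nat.mul_succ]
      refine (FreeGroup.norm_mul_le _ _).trans ?_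
      have : (α (lt a)).norm ≤ ∑ a : Lt N, (α (lt a)).norm :=
        Finset.single_le_sum (f := fun a : Lt N => (α (lt a)).norm) (fun _ _ => Nat.zero_le _)
          (Finset.mem_univ a)
      omega
  intro g
  have := key g.toWord
  rwa [FreeGroup.mk_toWord] at this

theorem head_const (v : FreeGroup (Fin N)) : ∃ k0 : ℕ, ∀ p t : List (Lt N),
    FreeGroup.IsReduced (p ++ t) → k0 ≤ p.length →
      (v⁻¹ * α (FreeGroup.mk (p ++ t))).toWord.head? = (v⁻¹ * α (FreeGroup.mk p)).toWord.head? ∧
      v⁻¹ * α (FreeGroup.mk p) ≠ 1 := by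
  obtain ⟨B, hB⟩ := exists_lip α
  obtain ⟨B', hB'⟩ := exists_lip α.symm
  have hbig : ∀ x : FreeGroup (Fin N), B' * (v.norm + B) + 1 ≤ x.norm →
      B < (v⁻¹ * α x).norm := by
    intro x hx
    have h1 := hB' (α x)
    rw [MulEquiv.symm_apply_apply] at h1
    have h2 := FreeGroup.norm_mul_le v (v⁻¹ * α x)
    rw [mul_inv_cancel_left] at h2
    by_contra hc
    push Not at hc
    have h3 : (α x).norm ≤ v.norm + B := by omega
    have h4 := Nat.mul_le_mul_left B' h3
    omega
  refine ⟨B' * (v.norm + B) + 1, ?_⟩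
  intro p t hr hp
  constructor
  · induction t using List.reverseRecOn with
    | nil => rw [List.append_nil]
    | append_singleton t b ih =>
      rw [← List.append_assoc] at hr ⊢
      have hr' : FreeGroup.IsReduced (p ++ t) := (List.isChain_append.mp hr).1
      rw [← ih hr']
      apply head_close
      have e : (v⁻¹ * α (FreeGroup.mk (p ++ t)))⁻¹ * (v⁻¹ * α (FreeGroup.mk (p ++ t ++ [b]))) =
          α (lt b) := by
        rw [← FreeGroup.mul_mk (L₁ := p ++ t), map_mul, lt]
        group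
      rw [e]
      have h5 : (α (lt b)).norm ≤ B := by
        have := hB (lt b)
        rwa [norm_lt, mul_one] at this
      refine lt_of_le_of_lt h5 (hbig _ ?_)
      change _ ≤ (FreeGroup.mk (p ++ t)).toWord.length
      rw [FreeGroup.toWord_mk, hr'.reduce_eq, List.length_append]
      omega
  · intro he
    have hrp : FreeGroup.IsReduced p := (List.isChain_append.mp hr).1
    have := hbig (FreeGroup.mk p) (by
      change _ ≤ (FreeGroup.mk p).toWord.length
      rw [FreeGroup.toWord_mk, hrp.reduce_eq]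
      exact hp)
    rw [he, FreeGroup.norm_one] at this
    omega

theorem exists_bdMap (ξ : Bd N) : ∃ ζ : Bd N, Conv (fun n => α (ray ξ n)) ζ := by
  obtain ⟨B, hB⟩ := exists_lip α
  obtain ⟨B', hB'⟩ := exists_lip α.symm
  apply exists_conv (B := B)
  · intro n
    rw [ray, map_mul, inv_mul_cancel_left]
    have := hB (lt (ξ.1 (ray ξ n)))
    rwa [norm_lt, mul_one] at this
  · rw [tendsto_atTop_atTop]
    intro b
    refine ⟨B' * b + 1, fun n hn => ?_⟩
    have h1 := hB' (α (ray ξ n))
    rw [MulEquiv.symm_apply_apply, ray_norm] at h1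
    by_contra hc
    push Not at hc
    have := Nat.mul_le_mul_left B' hc.le
    omega

noncomputable def bdMap (ξ : Bd N) : Bd N := (exists_bdMap α ξ).choose

theorem bdMap_conv (ξ : Bd N) : Conv (fun n => α (ray ξ n)) (bdMap α ξ) :=
  (exists_bdMap α ξ).choose_spec

theorem bdMap_uniform (v : FreeGroup (Fin N)) : ∃ k0 : ℕ, ∀ ξ : Bd N, ∀ x : FreeGroup (Fin N),
    (∃ t, x.toWord = (ray ξ k0).toWord ++ t) →
      (v⁻¹ * α x).toWord.head? = some ((bdMap α ξ).1 v) := by
  obtain ⟨k0, hk0⟩ := head_const α v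
  refine ⟨k0, ?_⟩
  rintro ξ x ⟨t, ht⟩
  obtain ⟨n, hn1, hn2⟩ := ((bdMap_conv α ξ v).and (eventually_ge_atTop k0)).exists
  obtain ⟨j, rfl⟩ := Nat.exists_eq_add_of_le hn2
  obtain ⟨s, hs⟩ := ray_pfx ξ k0 j
  have hlen : k0 ≤ (ray ξ k0).toWord.length := (ray_norm ξ k0).ge
  have r1 : FreeGroup.IsReduced ((ray ξ k0).toWord ++ t) := by
    rw [← ht]; exact FreeGroup.isReduced_toWord
  have r2 : FreeGroup.IsReduced ((ray ξ k0).toWord ++ s) := by
    rw [← hs]; exact FreeGroup.isReduced_toWord
  have e1 := (hk0 _ t r1 hlen).1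
  have e2 := (hk0 _ s r2 hlen).1
  rw [← ht, FreeGroup.mk_toWord] at e1
  rw [← hs, FreeGroup.mk_toWord] at e2
  rw [e1, ← e2]
  exact hn1

theorem Conv.map {u : ℕ → FreeGroup (Fin N)} {ξ : Bd N} (h : Conv u ξ) :
    Conv (fun n => α (u n)) (bdMap α ξ) := by
  intro v
  obtain ⟨k0, hk0⟩ := bdMap_uniform α v
  filter_upwards [h.pfx k0] with n hn
  exact hk0 ξ (u n) hn

theorem bdMap_smul (g : FreeGroup (Fin N)) (ξ : Bd N) :
    bdMap α (g • ξ) = α g • bdMap α ξ := by
  have h1 := ((ray_conv ξ).smul g).map α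
  have h2 := (bdMap_conv α ξ).smul (α g)
  have e : (fun n => α (g * ray ξ n)) = fun n => α g * α (ray ξ n) := by
    funext n; rw [map_mul]
  rw [e] at h1
  exact h1.unique h2

theorem bdMap_symm (ξ : Bd N) : bdMap α.symm (bdMap α ξ) = ξ := by
  have h1 := (bdMap_conv α ξ).map α.symm
  have e : (fun n => α.symm (α (ray ξ n))) = ray ξ := by
    funext n; rw [MulEquiv.symm_apply_apply]
  rw [e] at h1
  exact h1.unique (ray_conv ξ)

theorem ray_locally (ξ : Bd N) (n : ℕ) : ∀ᶠ ζ in 𝓝 ξ, ray ζ n = ray ξ n := by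
  induction n with
  | zero => exact Eventually.of_forall fun _ => rfl
  | succ n ih =>
    have h1 : ∀ᶠ ζ : Bd N in 𝓝 ξ, ζ.1 (ray ξ n) = ξ.1 (ray ξ n) := by
      have := (continuous_eval (ray ξ n)).continuousAt (x := ξ)
      exact this.eventually (IsOpen.mem_nhds (isOpen_discrete {ξ.1 (ray ξ n)}) rfl)
    filter_upwards [ih, h1] with ζ h2 h3
    rw [ray, ray, h2, h3]

theorem continuous_bdMap : Continuous (bdMap α) := by
  apply Continuous.subtype_mk (f := fun ξ => (bdMap α ξ).1)
  apply continuous_pi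
  intro v
  obtain ⟨k0, hk0⟩ := bdMap_uniform α v
  rw [continuous_iff_continuousAt]
  intro ξ
  refine tendsto_const_nhds.congr' ?_
  filter_upwards [ray_locally ξ k0] with ζ hζ
  have h1 := hk0 ζ (ray ζ k0) ⟨[], by simp⟩
  have h2 := hk0 ξ (ray ξ k0) ⟨[], by simp⟩
  rw [hζ, h2] at h1
  exact Option.some.inj h1

noncomputable def bd2Map (q : Bd2 N) : Bd2 N :=
  ⟨(bdMap α q.1.1, bdMap α q.1.2), fun h => q.2 (by
    have := congrArg (bdMap α.symm) h
    simp only [bdMap_symm] at this
    exact this)⟩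

theorem bd2Map_symm (q : Bd2 N) : bd2Map α.symm (bd2Map α q) = q := by
  apply Subtype.ext
  exact Prod.ext (bdMap_symm α _) (bdMap_symm α _)

theorem bd2Map_symm' (q : Bd2 N) : bd2Map α (bd2Map α.symm q) = q := by
  have := bd2Map_symm α.symm q
  rwa [MulEquiv.symm_symm] at this

theorem continuous_bd2Map : Continuous (bd2Map α) := by
  apply Continuous.subtype_mk
  exact ((continuous_bdMap α).comp (continuous_fst.comp continuous_subtype_val)).prodMk
    ((continuous_bdMap α).comp (continuous_snd.comp continuous_subtype_val))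

noncomputable def bd2Homeo : Bd2 N ≃ₜ Bd2 N where
  toFun := bd2Map α
  invFun := bd2Map α.symm
  left_inv := bd2Map_symm α
  right_inv := bd2Map_symm' α
  continuous_toFun := continuous_bd2Map α
  continuous_invFun := continuous_bd2Map α.symm

theorem bd2Map_smul (g : FreeGroup (Fin N)) (q : Bd2 N) :
    bd2Map α (g • q) = α g • bd2Map α q := by
  apply Subtype.ext
  exact Prod.ext (bdMap_smul α g _) (bdMap_smul α g _)

theorem bd2Map_ends {g : FreeGroup (Fin N)} {q : Bd2 N} (h : q ∈ Ends g) :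
    bd2Map α q ∈ Ends (α g) := by
  obtain ⟨f, hf⟩ := h
  refine ⟨α f, ?_⟩
  rw [← map_inv, ← map_mul, ← map_mul, ← bd2Map_smul, hf]

theorem bd2Map_ends_iff (g : FreeGroup (Fin N)) (q : Bd2 N) :
    bd2Map α q ∈ Ends (α g) ↔ q ∈ Ends g := by
  refine ⟨fun h => ?_, bd2Map_ends α⟩
  have := bd2Map_ends α.symm h
  rwa [bd2Map_symm, MulEquiv.symm_apply_apply] at this

end BdMap

end Pool.Agent.H67R4.SR
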