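import Mathlib
import Pool.Agent.H67R4.SR.Ends

set_option autoImplicit false

/-!
# Axes of elements and turns
-/

namespace Pool.Agent.H67R4.SR

open Pool.Agent.H67R3.FSR Filter Topology

variable {N : ℕ}

theorem toWord_mk_red {L : List (Lt N)} (h : FreeGroup.IsReduced L) :
    (FreeGroup.mk L : FreeGroup (Fin N)).toWord = L := by
  rw [FreeGroup.toWord_mk, h.reduce_eq]

theorem toWord_pow_mk {L : List (Lt N)} (h : FreeGroup.IsReduced (L ++ L)) (n : ℕ) :
    ((FreeGroup.mk L : FreeGroup (Fin N)) ^ n).toWord = (List.replicate n L).flatten := by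
  have hc : FreeGroup.IsCyclicallyReduced (FreeGroup.mk L : FreeGroup (Fin N)).toWord := by
    rw [toWord_mk_red (cyc_iff.mp h).isReduced]
    exact cyc_iff.mp h
  rw [norm_pow_of_cyc hc, toWord_mk_red (cyc_iff.mp h).isReduced]

theorem conv_pow {L : List (Lt N)} (hne : L ≠ []) (h : FreeGroup.IsReduced (L ++ L)) :
    ∃ ζ : Bd N, Conv (fun n => (FreeGroup.mk L) ^ n) ζ := by
  apply exists_conv (B := (FreeGroup.mk L : FreeGroup (Fin N)).norm)
  · intro n
    rw [pow_succ, inv_mul_cancel_left]
  · have : ∀ n, ((FreeGroup.mk L : FreeGroup (Fin N)) ^ n).norm = n * L.length := by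
      intro n
      unfold FreeGroup.norm
      rw [toWord_pow_mk h, List.length_flatten, List.map_replicate, List.sum_replicate, smul_eq_mul]
    simp only [this]
    rw [tendsto_atTop_atTop]
    intro b
    refine ⟨b, fun n hn => ?_⟩
    have : 1 ≤ L.length := List.length_pos_iff.mpr hne
    nlinarith

theorem conv_fixed {x : FreeGroup (Fin N)} {ζ : Bd N} (h : Conv (fun n => x ^ n) ζ) :
    x • ζ = ζ := by
  have h1 := h.smul x
  have h2 := h.shift
  have e : (fun n => x * x ^ n) = fun n => x ^ (n + 1) := by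
    funext n; rw [pow_succ']
  rw [e] at h1
  exact h1.unique h2

theorem conv_along {L P S : List (Lt N)} {c : Lt N} (h : FreeGroup.IsReduced (L ++ L))
    (hL : L = P ++ c :: S) {ζ : Bd N} (hc : Conv (fun n => (FreeGroup.mk L) ^ n) ζ) :
    ζ.1 (FreeGroup.mk P) = c := by
  obtain ⟨n, hn1, hn2⟩ := ((hc (FreeGroup.mk P)).and (eventually_ge_atTop 1)).exists
  obtain ⟨k, rfl⟩ := Nat.exists_eq_add_of_le hn2
  have e1 := toWord_pow_mk h (1 + k)
  rw [add_comm 1 k, List.replicate_succ, List.flatten_cons] at e1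
  rw [add_comm 1 k] at hn1
  have e2 : (FreeGroup.mk P)⁻¹ * (FreeGroup.mk L) ^ (k + 1) =
      FreeGroup.mk (c :: S ++ (List.replicate k L).flatten) := by
    rw [← FreeGroup.mk_toWord (x := (FreeGroup.mk L) ^ (k + 1)), e1]
    conv_lhs => rw [hL]
    rw [List.append_assoc, ← FreeGroup.mul_mk (L₁ := P), inv_mul_cancel_left, ← hL]
  have hr : FreeGroup.IsReduced (c :: S ++ (List.replicate k L).flatten) := by
    have : FreeGroup.IsReduced (P ++ (c :: S ++ (List.replicate k L).flatten)) := by
      rw [← List.append_assoc, ← hL, ← e1]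
      exact FreeGroup.isReduced_toWord
    exact (List.isChain_append.mp this).2.1
  simp only at hn1
  rw [e2, toWord_mk_red hr] at hn1
  exact (Option.some.inj hn1).symm

theorem invRev_append (u v : List (Lt N)) :
    FreeGroup.invRev (u ++ v) = FreeGroup.invRev v ++ FreeGroup.invRev u := by
  simp [FreeGroup.invRev]

theorem invRev_red {L : List (Lt N)} (h : FreeGroup.IsReduced L) :
    FreeGroup.IsReduced (FreeGroup.invRev L) := by
  have e : (FreeGroup.mk L : FreeGroup (Fin N))⁻¹.toWord = FreeGroup.invRev L := by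
    rw [FreeGroup.toWord_inv, toWord_mk_red h]
  rw [← e]
  exact FreeGroup.isReduced_toWord

theorem ends_conj {g h : FreeGroup (Fin N)} (hc : IsConj g h) {q : Bd2 N} (hq : q ∈ Ends h) :
    q ∈ Ends g := by
  obtain ⟨c, hc⟩ := isConj_iff.mp hc
  obtain ⟨f, hf⟩ := hq
  refine ⟨f * c, ?_⟩
  rw [← hf, ← hc]
  conv_rhs => rw [← hf, ← hc]
  rw [← hc] at hf
  have e : f * c * g * (f * c)⁻¹ = f * (c * g * c⁻¹) * f⁻¹ := by group
  rw [e, hf, hf]

/-- The axis of a cyclically reduced word. -/
theorem exists_axis_rep {g : FreeGroup (Fin N)} {L : List (Lt N)} (h : Rep g L) :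
    ∃ q ∈ Ends g, (∀ P c S, L = P ++ c :: S → q.1.2.1 (FreeGroup.mk P) = c) ∧
      (∀ P c S, L = S ++ c :: P → q.1.1.1 (FreeGroup.mk P)⁻¹ = inv' c) := by
  obtain ⟨ζ, hζ⟩ := conv_pow h.1 h.2.1
  have hinv : FreeGroup.IsReduced (FreeGroup.invRev L ++ FreeGroup.invRev L) := by
    rw [← invRev_append]
    exact invRev_red h.2.1
  have hne : FreeGroup.invRev L ≠ [] := by
    intro hn
    have := congrArg List.length hn
    rw [FreeGroup.invRev_length] at this
    exact h.1 (List.length_eq_zero_iff.mp this)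
  obtain ⟨ξ, hξ⟩ := conv_pow hne hinv
  have a1 : ∀ P c S, L = P ++ c :: S → ζ.1 (FreeGroup.mk P) = c := fun P c S hL =>
    conv_along h.2.1 hL hζ
  have a2 : ∀ P c S, L = S ++ c :: P → ξ.1 (FreeGroup.mk P)⁻¹ = inv' c := by
    intro P c S hL
    have e : FreeGroup.invRev L = FreeGroup.invRev P ++ inv' c :: FreeGroup.invRev S := by
      rw [hL, invRev_append]
      simp [FreeGroup.invRev, inv']
    have := conv_along hinv e hξ
    rwa [← FreeGroup.inv_mk] at this
  have hne2 : ξ ≠ ζ := by
    intro he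
    have b1 : ζ.1 1 = L.head h.1 := by
      have := a1 [] (L.head h.1) L.tail (List.cons_head_tail h.1).symm
      exact this
    have b2 : ξ.1 1 = inv' (L.getLast h.1) := by
      have := a2 [] (L.getLast h.1) L.dropLast (List.dropLast_append_getLast h.1).symm
      have e : (FreeGroup.mk ([] : List (Lt N)))⁻¹ = 1 := by
        change (1 : FreeGroup (Fin N))⁻¹ = 1
        exact inv_one
      rwa [e] at this
    have h3 := (cyc_iff.mp h.2.1).2 (L.getLast h.1) (List.getLast_mem_getLast? h.1) (L.head h.1)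
      (List.head_mem_head? h.1)
    rw [reduced_iff] at h3
    apply h3
    rw [← b1, ← b2, he]
  refine ⟨⟨(ξ, ζ), hne2⟩, ends_conj h.2.2 ⟨1, ?_⟩, a1, a2⟩
  have f1 : (FreeGroup.mk L : FreeGroup (Fin N)) • ζ = ζ := conv_fixed hζ
  have f2 : (FreeGroup.mk L : FreeGroup (Fin N)) • ξ = ξ := by
    have := conv_fixed hξ
    rw [← FreeGroup.inv_mk, inv_smul_eq_iff] at this
    exact this.symm
  rw [one_mul, inv_one, mul_one]
  apply Subtype.ext
  exact Prod.ext f2 f1

/-- The turns taken by the axes. -/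
def Tn (g : FreeGroup (Fin N)) : Set (Lt N × Lt N) :=
  {p | p.1 ≠ p.2 ∧ ∃ q ∈ Ends g, q.1.1.1 1 = p.1 ∧ q.1.2.1 1 = p.2}

theorem Rep.turn {g : FreeGroup (Fin N)} {y z : Lt N} {R : List (Lt N)}
    (h : Rep g (z :: R)) (hy : (z :: R).getLast? = some y) : (inv' y, z) ∈ Tn g := by
  obtain ⟨q, hq, h1, h2⟩ := exists_axis_rep h
  have b1 : q.1.2.1 1 = z := h1 [] z R rfl
  obtain ⟨S, hS⟩ : ∃ S, z :: R = S ++ [y] := by
    obtain ⟨S, hS⟩ := List.getLast?_eq_some_iff.mp hy
    exact ⟨S, hS⟩
  have b2 : q.1.1.1 1 = inv' y := by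
    have := h2 [] y S hS
    have e : (FreeGroup.mk ([] : List (Lt N)))⁻¹ = 1 := by
      change (1 : FreeGroup (Fin N))⁻¹ = 1
      exact inv_one
    rwa [e] at this
  refine ⟨?_, q, hq, b2, b1⟩
  have h3 := (cyc_iff.mp h.2.1).2 y hy z rfl
  rw [reduced_iff] at h3
  exact h3.symm

theorem rep_of_turn {g : FreeGroup (Fin N)} (hg : g ≠ 1) {p : Lt N × Lt N} (hp : p ∈ Tn g) :
    ∃ (z : Lt N) (R : List (Lt N)) (y : Lt N), Rep g (z :: R) ∧ (z :: R).getLast? = some y ∧
      (p = (inv' y, z) ∨ p = (z, inv' y)) := by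
  obtain ⟨hne, q, ⟨f, hf⟩, h1, h2⟩ := hp
  have hne1 : f * g * f⁻¹ ≠ 1 := by
    intro he
    apply hg
    rwa [mul_inv_eq_one, mul_eq_left] at he
  obtain ⟨a, l, hw⟩ := exists_cons hne1
  have f1 : (f * g * f⁻¹) • q.1.1 = q.1.1 := by rw [← smul_fst, hf]
  have f2 : (f * g * f⁻¹) • q.1.2 = q.1.2 := by rw [← smul_snd, hf]
  have hq : q.1.1.1 1 ≠ q.1.2.1 1 := by rw [h1, h2]; exact hne
  have hcyc := cyc_of_fixed hw f1 f2 hq
  have hrep : Rep g (a :: l) := by
    refine ⟨by simp, ?_, ?_⟩
    · rw [cyc_iff, ← hw]; exact hcyc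
    · rw [← hw, FreeGroup.mk_toWord, isConj_iff]
      exact ⟨f, rfl⟩
  refine ⟨a, l, (a :: l).getLast (by simp), hrep, List.getLast?_eq_getLast_of_ne_nil (by simp), ?_⟩
  by_cases hx : q.1.1.1 1 = a
  · have hz : q.1.2.1 1 ≠ a := by rw [← hx]; exact hq.symm
    have := fixed_one hw f2 hz
    right
    apply Prod.ext
    · rw [← h1, hx]
    · rw [← h2, this]
  · have h5 := fixed_one hw f1 hx
    by_cases hz : q.1.2.1 1 = a
    · left
      apply Prod.ext
      · rw [← h1, h5]
      · rw [← h2, hz]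
    · have h6 := fixed_one hw f2 hz
      exact absurd (h5.trans h6.symm) hq

/-- The lines which run along the axis of the letter `t` near the base vertex. -/
def Near (t : Lt N) (m : ℕ) : Set (Bd2 N) :=
  {q | (∀ j < m, q.1.2.1 (lt t ^ j) = t) ∧ ∀ j < m, q.1.1.1 (lt (inv' t) ^ j) = inv' t}

theorem lt_pow_mk (a : Lt N) (n : ℕ) :
    lt a ^ n = (FreeGroup.mk (List.replicate n a) : FreeGroup (Fin N)) := by
  induction n with
  | zero => rfl
  | succ n ih => rw [pow_succ', ih, List.replicate_succ, mk_cons']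

theorem near_det_aux {t : Lt N} {m : ℕ} {ζ ω : Bd N} (h1 : ∀ j < m, ζ.1 (lt t ^ j) = t)
    (h2 : ∀ j < m, ω.1 (lt t ^ j) = t) : ∀ (l : List (Lt N)) (j : ℕ),
      FreeGroup.IsReduced l → j + l.length < m →
      ζ.1 (lt t ^ j * FreeGroup.mk l) = ω.1 (lt t ^ j * FreeGroup.mk l)
  | [], j, _, hj => by
    have e : lt t ^ j * FreeGroup.mk [] = lt t ^ j := mul_one _
    rw [e, h1 j (by simpa using hj), h2 j (by simpa using hj)]
  | b :: l, j, hr, hj => by
    simp only [List.length_cons] at hj
    by_cases hb : b = t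
    · subst hb
      have e : lt b ^ j * FreeGroup.mk (b :: l) = lt b ^ (j + 1) * FreeGroup.mk l := by
        rw [mk_cons', pow_succ, mul_assoc]
      rw [e]
      exact near_det_aux h1 h2 l (j + 1) hr.tail (by omega)
    · rw [follow ζ l b _ hr (by rw [h1 j (by omega)]; exact Ne.symm hb),
        follow ω l b _ hr (by rw [h2 j (by omega)]; exact Ne.symm hb)]

theorem near_det {t : Lt N} {m : ℕ} {ζ ω : Bd N} (h1 : ∀ j < m, ζ.1 (lt t ^ j) = t)
    (h2 : ∀ j < m, ω.1 (lt t ^ j) = t) (v : FreeGroup (Fin N)) (hv : v.norm < m) :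
    ζ.1 v = ω.1 v := by
  have := near_det_aux h1 h2 v.toWord 0 FreeGroup.isReduced_toWord (by
    rw [zero_add]; exact hv)
  rwa [pow_zero, one_mul, FreeGroup.mk_toWord] at this

theorem rep_lt (t : Lt N) : Rep (lt t) [t] := by
  refine ⟨by simp, ?_, IsConj.refl _⟩
  unfold FreeGroup.IsReduced
  simp

/-- The axis of the letter `t`, through the base vertex. -/
theorem exists_letter_axis (t : Lt N) : ∃ q ∈ Ends (lt t), (∀ m, q ∈ Near t m) ∧
    (lt t) • q.1.1 = q.1.1 ∧ (lt t) • q.1.2 = q.1.2 := by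
  obtain ⟨ζ, hζ⟩ := conv_pow (rep_lt t).1 (rep_lt t).2.1
  obtain ⟨ξ, hξ⟩ := conv_pow (rep_lt (inv' t)).1 (rep_lt (inv' t)).2.1
  have a1 : ζ.1 1 = t := conv_along (rep_lt t).2.1 (P := []) (S := []) rfl hζ
  have a2 : ξ.1 1 = inv' t := conv_along (rep_lt (inv' t)).2.1 (P := []) (S := []) rfl hξ
  have f1 : (lt t) • ζ = ζ := conv_fixed hζ
  have f2 : (lt (inv' t)) • ξ = ξ := conv_fixed hξ
  have f3 : (lt t) • ξ = ξ := by
    rw [lt_inv', inv_smul_eq_iff] at f2
    exact f2.symm
  have hne : ξ ≠ ζ := by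
    intro he
    rw [he, a1] at a2
    have := congrArg Prod.snd a2
    simp [inv'] at this
  refine ⟨⟨(ξ, ζ), hne⟩, ⟨1, ?_⟩, ?_, f3, f1⟩
  · rw [one_mul, inv_one, mul_one]
    apply Subtype.ext
    exact Prod.ext f3 f1
  · intro m
    constructor
    · intro j _
      have := fixed_pow f1 j 1
      rw [mul_one] at this
      rw [this, a1]
    · intro j _
      have := fixed_pow f2 j 1
      rw [mul_one] at this
      rw [this, a2]

/-- Lines near the axis of `t` lie in a given neighbourhood of the axis. -/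
theorem near_subset {t : Lt N} {q0 : Bd2 N} (h0 : ∀ m, q0 ∈ Near t m) {W : Set (Bd2 N)}
    (hW : IsOpen W) (hq : q0 ∈ W) : ∃ m, ∀ m', m ≤ m' → Near t m' ⊆ W := by
  by_contra hc
  push Not at hc
  choose m hm1 hm2 using hc
  have hex : ∀ n, ∃ q, q ∈ Near t (m n) ∧ q ∉ W := fun n => Set.not_subset.mp (hm2 n)
  choose q hq1 hq2 using hex
  have ht : Tendsto q atTop (𝓝 q0) := by
    have hi2 : Topology.IsInducing (fun q : Bd2 N => q.1) := ⟨rfl⟩
    have hi1 : Topology.IsInducing (fun ξ : Bd N => ξ.1) := ⟨rfl⟩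
    rw [hi2.tendsto_nhds_iff, Prod.tendsto_iff]
    constructor
    · rw [hi1.tendsto_nhds_iff, tendsto_pi_nhds]
      intro v
      refine tendsto_const_nhds.congr' ?_
      filter_upwards [eventually_gt_atTop v.norm] with n hn
      exact near_det (h0 (m n)).2 (hq1 n).2 v (lt_of_lt_of_le hn (hm1 n))
    · rw [hi1.tendsto_nhds_iff, tendsto_pi_nhds]
      intro v
      refine tendsto_const_nhds.congr' ?_
      filter_upwards [eventually_gt_atTop v.norm] with n hn
      exact near_det (h0 (m n)).1 (hq1 n).1 v (lt_of_lt_of_le hn (hm1 n))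
  obtain ⟨n, hn⟩ := (ht.eventually (hW.mem_nhds hq)).exists
  exact hq2 n hn

theorem fixed_letter {t : Lt N} {q0 q : Bd2 N} (h0 : ∀ m, q0 ∈ Near t m)
    (h1 : (lt t) • q0.1.1 = q0.1.1) (h2 : (lt t) • q0.1.2 = q0.1.2) (hq : (lt t) • q = q) :
    q = q0 ∨ q = flip2 q0 := by
  have w1 : (lt t : FreeGroup (Fin N)).toWord = t :: [] := toWord_mk_red (by
    unfold FreeGroup.IsReduced; simp)
  have w2 : (lt (inv' t) : FreeGroup (Fin N)).toWord = inv' t :: [] := toWord_mk_red (by
    unfold FreeGroup.IsReduced; simp)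
  have c1 : FreeGroup.IsCyclicallyReduced (lt t : FreeGroup (Fin N)).toWord := by
    rw [w1]; exact FreeGroup.IsCyclicallyReduced.singleton
  have c2 : FreeGroup.IsCyclicallyReduced (lt (inv' t) : FreeGroup (Fin N)).toWord := by
    rw [w2]; exact FreeGroup.IsCyclicallyReduced.singleton
  have hti : t ≠ inv' t := by
    intro he
    have := congrArg Prod.snd he
    simp [inv'] at this
  have b1 : q0.1.2.1 1 = t := by
    have := (h0 1).1 0 one_pos
    rwa [pow_zero] at this
  have b2 : q0.1.1.1 1 = inv' t := by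
    have := (h0 1).2 0 one_pos
    rwa [pow_zero] at this
  have inv_fix : ∀ {ξ : Bd N}, lt t • ξ = ξ → lt (inv' t) • ξ = ξ := by
    intro ξ hξ
    rw [lt_inv', inv_smul_eq_iff, hξ]
  have key : ∀ ξ : Bd N, lt t • ξ = ξ → ξ = q0.1.1 ∨ ξ = q0.1.2 := by
    intro ξ hξ
    by_cases hx : ξ.1 1 = t
    · right
      refine fixed_unique c2 w2 (inv_fix hξ) (inv_fix h2) ?_ ?_
      · rw [hx]; exact hti
      · rw [b1]; exact hti
    · left
      refine fixed_unique c1 w1 hξ h1 hx ?_
      rw [b2]; exact hti.symm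
  have g1 : lt t • q.1.1 = q.1.1 := by rw [← smul_fst, hq]
  have g2 : lt t • q.1.2 = q.1.2 := by rw [← smul_snd, hq]
  rcases key _ g1 with k1 | k1 <;> rcases key _ g2 with k2 | k2
  · exact absurd (k1.trans k2.symm) q.2
  · left; exact Subtype.ext (Prod.ext k1 k2)
  · right; exact Subtype.ext (Prod.ext k1 k2)
  · exact absurd (k1.trans k2.symm) q.2

theorem ends_flip {g : FreeGroup (Fin N)} {q : Bd2 N} (h : q ∈ Ends g) : flip2 q ∈ Ends g :=
  (flip_mem_ends g q).mpr h

theorem isOpen_dir (p : Lt N × Lt N) :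
    IsOpen {q : Bd2 N | q.1.1.1 1 = p.1 ∧ q.1.2.1 1 = p.2} := by
  have h1 : Continuous fun q : Bd2 N => q.1.1.1 1 :=
    (continuous_eval 1).comp (continuous_fst.comp continuous_subtype_val)
  have h2 : Continuous fun q : Bd2 N => q.1.2.1 1 :=
    (continuous_eval 1).comp (continuous_snd.comp continuous_subtype_val)
  exact (isOpen_discrete {p.1}).preimage h1 |>.inter ((isOpen_discrete {p.2}).preimage h2)

/-- A cyclic word which contains a large power of `t` is mapped by `α` to a cyclic word which takes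
all the turns of `α t`. -/
theorem turns_of_power (α : FreeGroup (Fin N) ≃* FreeGroup (Fin N)) (t : Lt N) :
    ∃ m, ∀ (z : FreeGroup (Fin N)) (q : Bd2 N), q ∈ Near t m → q ∈ Ends z →
      Tn (α (lt t)) ⊆ Tn (α z) := by
  obtain ⟨q0, hq0, hn0, hf1, hf2⟩ := exists_letter_axis t
  have key : ∀ p : Lt N × Lt N, ∃ m, p ∈ Tn (α (lt t)) → ∀ m', m ≤ m' →
      ∀ (z : FreeGroup (Fin N)) (q : Bd2 N), q ∈ Near t m' → q ∈ Ends z → p ∈ Tn (α z) := by
    intro p
    by_cases hp : p ∈ Tn (α (lt t))
    swap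
    · exact ⟨0, fun h => absurd h hp⟩
    obtain ⟨hne, q1, hq1, d1, d2⟩ := hp
    have hq2 := bd2Map_ends α.symm hq1
    rw [MulEquiv.symm_apply_apply] at hq2
    obtain ⟨f, hf⟩ := hq2
    set q2 := bd2Map α.symm q1 with hq2def
    have hq3 : (lt t) • (f⁻¹ • q2) = f⁻¹ • q2 := by
      conv_rhs => rw [← hf]
      rw [← mul_smul, ← mul_smul]
      congr 1
      group
    have hback : bd2Map α (f • (f⁻¹ • q2)) = q1 := by
      rw [smul_inv_smul, hq2def, bd2Map_symm']
    set O : Set (Bd2 N) := {q : Bd2 N | q.1.1.1 1 = p.1 ∧ q.1.2.1 1 = p.2} with hO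
    have hW : IsOpen {q : Bd2 N | bd2Map α (f • q) ∈ O} :=
      (isOpen_dir p).preimage ((continuous_bd2Map α).comp (continuous_smul_bd2 f))
    rcases fixed_letter hn0 hf1 hf2 hq3 with h | h
    · obtain ⟨m, hm⟩ := near_subset hn0 hW (by
        change bd2Map α (f • q0) ∈ O
        rw [← h, hback]
        exact ⟨d1, d2⟩)
      refine ⟨m, fun _ m' hm' z q hq hqe => ?_⟩
      have := hm m' hm' hq
      exact ⟨hne, _, bd2Map_ends α ((smul_mem_ends z f q).mpr hqe), this.1, this.2⟩
    · obtain ⟨m, hm⟩ := near_subset hn0 (hW.preimage continuous_flip2) (by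
        change bd2Map α (f • flip2 q0) ∈ O
        rw [← h, hback]
        exact ⟨d1, d2⟩)
      refine ⟨m, fun _ m' hm' z q hq hqe => ?_⟩
      have := hm m' hm' hq
      exact ⟨hne, _, bd2Map_ends α ((smul_mem_ends z f (flip2 q)).mpr (ends_flip hqe)),
        this.1, this.2⟩
  choose M hM using key
  classical
  refine ⟨∑ p : Lt N × Lt N, M p, fun z q hq hqe p hp => ?_⟩
  exact hM p hp _ (Finset.single_le_sum (f := M) (fun _ _ => Nat.zero_le _) (Finset.mem_univ p))
    z q hq hqe

/-- The axis in the middle of a power of `t`. -/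
theorem exists_near {z : FreeGroup (Fin N)} {t : Lt N} {m : ℕ} {R : List (Lt N)}
    (h : Rep z (List.replicate m t ++ R ++ List.replicate m t)) :
    ∃ q ∈ Ends z, q ∈ Near t m := by
  obtain ⟨q, hq, h1, h2⟩ := exists_axis_rep h
  refine ⟨q, hq, ?_, ?_⟩
  · intro j hj
    rw [lt_pow_mk]
    apply h1 _ _ (List.replicate (m - j - 1) t ++ R ++ List.replicate m t)
    have : List.replicate m t = List.replicate j t ++ t :: List.replicate (m - j - 1) t := by
      rw [← List.replicate_succ, List.replicate_append_replicate]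
      congr 1
      omega
    rw [this]
    simp
  · intro j hj
    rw [lt_inv', inv_pow, lt_pow_mk]
    apply h2 _ _ (List.replicate m t ++ R ++ List.replicate (m - j - 1) t)
    have : List.replicate m t = List.replicate (m - j - 1) t ++ t :: List.replicate j t := by
      rw [← List.replicate_succ, List.replicate_append_replicate]
      congr 1
      omega
    rw [List.append_assoc (List.replicate m t ++ R), ← this]

/-- Two cyclically reduced words of the same conjugacy class are rotations of each other. -/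
theorem rot_aux : ∀ (n : ℕ) (f : FreeGroup (Fin N)) (L L' : List (Lt N)), f.norm = n →
    L ≠ [] → FreeGroup.IsReduced (L ++ L) → FreeGroup.IsReduced (L' ++ L') →
    FreeGroup.mk L' = f * FreeGroup.mk L * f⁻¹ → ∃ u v, L = u ++ v ∧ L' = v ++ u
  | 0, f, L, L', hf, hne, h1, h2, he => by
    have : f = 1 := FreeGroup.norm_eq_zero.mp hf
    rw [this, one_mul, inv_one, mul_one] at he
    have := congrArg FreeGroup.toWord he
    rw [toWord_mk_red (cyc_iff.mp h1).isReduced, toWord_mk_red (cyc_iff.mp h2).isReduced] at this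
    exact ⟨[], L, rfl, by rw [this, List.append_nil]⟩
  | n + 1, f, L, L', hf, hne, h1, h2, he => by
    obtain ⟨p, x, hp⟩ : ∃ p x, f.toWord = p ++ [x] := by
      rcases List.eq_nil_or_concat f.toWord with h | ⟨p, x, h⟩
      · unfold FreeGroup.norm at hf
        rw [h] at hf
        simp at hf
      · exact ⟨p, x, by rw [h, List.concat_eq_append]⟩
    have hrf : FreeGroup.IsReduced (p ++ [x]) := by
      rw [← hp]; exact FreeGroup.isReduced_toWord
    have hrp : FreeGroup.IsReduced p := (List.isChain_append.mp hrf).1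
    have hfe : f = FreeGroup.mk p * lt x := by
      rw [← FreeGroup.mk_toWord (x := f), hp, ← FreeGroup.mul_mk]
      rfl
    have hn : (FreeGroup.mk p : FreeGroup (Fin N)).norm = n := by
      unfold FreeGroup.norm at hf ⊢
      rw [toWord_mk_red hrp]
      rw [hp] at hf
      simpa using hf
    have rotate : ∀ u v : List (Lt N), FreeGroup.IsReduced ((u ++ v) ++ (u ++ v)) → u ++ v ≠ [] →
        FreeGroup.IsReduced ((v ++ u) ++ (v ++ u)) ∧ v ++ u ≠ [] := by
      intro u v h h'
      have : Rep (FreeGroup.mk (u ++ v)) (u ++ v) := ⟨h', h, IsConj.refl _⟩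
      exact ⟨this.rot.2.1, this.rot.1⟩
    by_cases hx1 : L.head? = some (inv' x)
    · obtain ⟨L1, hL1⟩ := List.head?_eq_some_iff.mp hx1
      have h1' : FreeGroup.IsReduced ((inv' x :: L1) ++ (inv' x :: L1)) := by
        rw [← hL1]; exact h1
      have hr := rotate [inv' x] L1 h1' (by simp)
      have he2 : FreeGroup.mk L' = FreeGroup.mk p * FreeGroup.mk (L1 ++ [inv' x]) *
          (FreeGroup.mk p)⁻¹ := by
        rw [he, hfe, hL1, mk_cons', ← FreeGroup.mul_mk]
        change _ = _ * (_ * lt (inv' x)) * _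
        rw [Pool.Agent.H67R3.FSR.lt_inv']
        group
      obtain ⟨u, v, hu, hv⟩ := rot_aux n _ _ L' hn hr.2 hr.1 h2 he2
      rcases List.eq_nil_or_concat v with hvn | ⟨v', y, hvc⟩
      · subst hvn
        rw [List.append_nil] at hu
        refine ⟨[inv' x], L1, by rw [hL1]; rfl, ?_⟩
        rw [hv, ← hu, List.nil_append]
      · rw [List.concat_eq_append] at hvc
        subst hvc
        rw [← List.append_assoc] at hu
        have h6 := List.append_inj' hu rfl
        have hy : inv' x = y := by simpa using h6.2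
        refine ⟨inv' x :: u, v', by rw [hL1, h6.1]; rfl, ?_⟩
        rw [hv, ← hy]
        simp
    · by_cases hx2 : L.getLast? = some x
      · obtain ⟨L1, hL1⟩ := List.getLast?_eq_some_iff.mp hx2
        have hr := rotate L1 [x] (by rw [← hL1]; exact h1) (by simp)
        have he2 : FreeGroup.mk L' = FreeGroup.mk p * FreeGroup.mk ([x] ++ L1) *
            (FreeGroup.mk p)⁻¹ := by
          rw [he, hfe, hL1, ← FreeGroup.mul_mk, ← FreeGroup.mul_mk]
          change _ * (_ * lt x) * _ = _ * (lt x * _) * _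
          group
        obtain ⟨u, v, hu, hv⟩ := rot_aux n _ _ L' hn hr.2 hr.1 h2 he2
        cases u with
        | nil =>
          rw [List.nil_append] at hu
          refine ⟨L1, [x], hL1, ?_⟩
          rw [hv, ← hu, List.append_nil]
        | cons y u =>
          simp only [List.cons_append, List.nil_append, List.cons.injEq] at hu
          refine ⟨u, v ++ [x], by rw [hL1, hu.2, List.append_assoc], ?_⟩
          rw [hv, ← hu.1]
          simp
      · exfalso
        have hL : FreeGroup.IsReduced L := (cyc_iff.mp h1).isReduced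
        have hbig : FreeGroup.IsReduced ((p ++ [x]) ++ L ++ FreeGroup.invRev (p ++ [x])) := by
          unfold FreeGroup.IsReduced
          rw [List.isChain_append]
          refine ⟨?_, invRev_red hrf, ?_⟩
          · rw [List.isChain_append]
            refine ⟨hrf, hL, ?_⟩
            intro a ha b hb
            rw [List.getLast?_append, List.getLast?_singleton, Option.some_or] at ha
            simp only [Option.mem_def, Option.some.injEq] at ha
            subst ha
            rw [reduced_iff]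
            rintro rfl
            exact hx1 hb
          · intro a ha b hb
            rw [List.getLast?_append_of_ne_nil _ hne] at ha
            have hb' : b = inv' x := by
              rw [invRev_append] at hb
              simp [FreeGroup.invRev] at hb
              exact hb.symm
            subst hb'
            rw [reduced_iff]
            intro h
            have : a = x := by
              have := congrArg inv' h
              rw [inv'_inv', inv'_inv'] at this
              exact this.symm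
            rw [this] at ha
            exact hx2 ha
        have he3 : L' = (p ++ [x]) ++ L ++ FreeGroup.invRev (p ++ [x]) := by
          rw [← toWord_mk_red (cyc_iff.mp h2).isReduced, ← toWord_mk_red hbig]
          congr 1
          rw [he, ← FreeGroup.mul_mk, ← FreeGroup.mul_mk, ← hp, ← FreeGroup.inv_mk,
            FreeGroup.mk_toWord]
        obtain ⟨b, l, hbl⟩ : ∃ b l, p ++ [x] = b :: l := by
          cases p with
          | nil => exact ⟨x, [], rfl⟩
          | cons b p => exact ⟨b, p ++ [x], rfl⟩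
        have h7 := (cyc_iff.mp h2).2 (inv' b) (by
          rw [he3, hbl]
          refine List.getLast?_eq_some_iff.mpr ⟨b :: l ++ L ++ FreeGroup.invRev l, ?_⟩
          simp [FreeGroup.invRev, inv']) b (by rw [he3, hbl]; simp)
        rw [reduced_iff, inv'_inv'] at h7
        exact h7 rfl

theorem Rep.unique {g : FreeGroup (Fin N)} {L L' : List (Lt N)} (h : Rep g L) (h' : Rep g L') :
    ∃ u v, L = u ++ v ∧ L' = v ++ u := by
  obtain ⟨f, hf⟩ := isConj_iff.mp (h.2.2.symm.trans h'.2.2)
  exact rot_aux f.norm f L L' rfl h.1 h.2.1 h'.2.1 hf.symm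

end Pool.Agent.H67R4.SR
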