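import Mathlib
import Pool.Agent.H67R4.SR.Axis

set_option autoImplicit false

/-!
# The cut vertex lemma of Whitehead for primitive elements
-/

namespace Pool.Agent.H67R4.SR

open Pool.Agent.H67R3.FSR

variable {N : ℕ}

section Graph

variable (Yw : Fin N → List (Lt N)) {V : Type} [Fintype V] [DecidableEq V]

/-- The labelled edge of a position. -/
def ed (f : Fin N → ℕ → V) (p : Σ i, Fin (Yw i).length) : V × Fin N × V :=
  if ((Yw p.1).get p.2).2 then (f p.1 p.2, ((Yw p.1).get p.2).1, f p.1 (p.2 + 1))
  else (f p.1 (p.2 + 1), ((Yw p.1).get p.2).1, f p.1 p.2)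

def EE (f : Fin N → ℕ → V) : Finset (V × Fin N × V) := Finset.univ.image (ed Yw f)

structure Good (f : Fin N → ℕ → V) (o : V) : Prop where
  zero : ∀ i, f i 0 = o
  last : ∀ i, f i (Yw i).length = o
  surj : ∀ u, ∃ i j, j < (Yw i).length ∧ f i j = u

theorem mem_EE_true (f : Fin N → ℕ → V) {i : Fin N} {j : ℕ} (hj : j < (Yw i).length) {x : Fin N}
    (h : (Yw i)[j] = (x, true)) : (f i j, x, f i (j + 1)) ∈ EE Yw f := by
  refine Finset.mem_image.mpr ⟨⟨i, ⟨j, hj⟩⟩, Finset.mem_univ _, ?_⟩
  simp [ed, h]

theorem mem_EE_false (f : Fin N → ℕ → V) {i : Fin N} {j : ℕ} (hj : j < (Yw i).length) {x : Fin N}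
    (h : (Yw i)[j] = (x, false)) : (f i (j + 1), x, f i j) ∈ EE Yw f := by
  refine Finset.mem_image.mpr ⟨⟨i, ⟨j, hj⟩⟩, Finset.mem_univ _, ?_⟩
  simp [ed, h]

theorem exists_perm (E : Finset (V × Fin N × V)) (x : Fin N)
    (h1 : ∀ u v v', (u, x, v) ∈ E → (u, x, v') ∈ E → v = v')
    (h2 : ∀ u v v', (v, x, u) ∈ E → (v', x, u) ∈ E → v = v') :
    ∃ σ : Equiv.Perm V, ∀ u v, (u, x, v) ∈ E → σ u = v := by
  classical
  let e0 : {u // ∃ v, (u, x, v) ∈ E} → {v // ∃ u, (u, x, v) ∈ E} :=
    fun u => ⟨u.2.choose, ⟨u.1, u.2.choose_spec⟩⟩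
  have hb : Function.Bijective e0 := by
    constructor
    · intro a b hab
      have h3 := congrArg Subtype.val hab
      simp only [e0] at h3
      apply Subtype.ext
      have h4 := a.2.choose_spec
      rw [h3] at h4
      exact h2 _ _ _ h4 b.2.choose_spec
    · intro v
      obtain ⟨u, hu⟩ := v.2
      refine ⟨⟨u, v.1, hu⟩, ?_⟩
      apply Subtype.ext
      exact h1 u _ _ (Exists.choose_spec (⟨v.1, hu⟩ : ∃ w, (u, x, w) ∈ E)) hu
  refine ⟨(Equiv.ofBijective e0 hb).extendSubtype, fun u v huv => ?_⟩
  rw [Equiv.extendSubtype_apply_of_mem _ u ⟨v, huv⟩]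
  exact h1 u _ _ (Exists.choose_spec (⟨v, huv⟩ : ∃ w, (u, x, w) ∈ E)) huv

theorem exists_fold (hgen : Subgroup.closure (Set.range fun i => (FreeGroup.mk (Yw i) :
    FreeGroup (Fin N))) = ⊤) {f : Fin N → ℕ → V} {o : V} (hG : Good Yw f o)
    (h2 : 2 ≤ Fintype.card V) : ∃ x u v v', v ≠ v' ∧
      (((u, x, v) ∈ EE Yw f ∧ (u, x, v') ∈ EE Yw f) ∨
        ((v, x, u) ∈ EE Yw f ∧ (v', x, u) ∈ EE Yw f)) := by
  by_contra hc
  push Not at hc
  have hσ : ∀ x, ∃ σ : Equiv.Perm V, ∀ u v, (u, x, v) ∈ EE Yw f → σ u = v := by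
    intro x
    apply exists_perm
    · intro u v v' h1 h2
      by_contra hne
      exact (hc x u v v' hne).1 h1 h2
    · intro u v v' h1 h2
      by_contra hne
      exact (hc x u v v' hne).2 h1 h2
  choose σ hσ using hσ
  let ρ : FreeGroup (Fin N) →* Equiv.Perm V := FreeGroup.lift fun x => (σ x)⁻¹
  have hρ : ∀ i j, j ≤ (Yw i).length →
      (ρ (FreeGroup.mk ((Yw i).take j)))⁻¹ o = f i j := by
    intro i j
    induction j with
    | zero =>
      intro _
      rw [List.take_zero, hG.zero]
      change (ρ 1)⁻¹ o = o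
      rw [map_one]
      rfl
    | succ j ih =>
      intro hj
      have hj' : j < (Yw i).length := hj
      rw [List.take_succ_eq_append_getElem hj', ← FreeGroup.mul_mk, map_mul, mul_inv_rev,
        Equiv.Perm.mul_apply, ih hj'.le]
      rcases hx : (Yw i)[j] with ⟨x, s⟩
      cases s
      · have h3 := hσ _ _ _ (mem_EE_false Yw f hj' hx)
        have h4 : ρ (FreeGroup.mk [(x, false)]) = σ x := by
          change ρ (lt (x, false)) = σ x
          rw [lt_false, map_inv]
          simp [ρ]
        rw [h4, ← h3]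
        simp
      · have h3 := hσ _ _ _ (mem_EE_true Yw f hj' hx)
        have h4 : ρ (FreeGroup.mk [(x, true)]) = (σ x)⁻¹ := by
          change ρ (lt (x, true)) = (σ x)⁻¹
          rw [lt_true]
          simp [ρ]
        rw [h4, inv_inv, h3]
  have hfix : ∀ g, ρ g o = o := by
    have hle : Subgroup.closure (Set.range fun i => (FreeGroup.mk (Yw i) :
        FreeGroup (Fin N))) ≤ (MulAction.stabilizer (Equiv.Perm V) o).comap ρ := by
      rw [Subgroup.closure_le]
      rintro _ ⟨i, rfl⟩
      have := hρ i (Yw i).length le_rfl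
      rw [List.take_length, hG.last, Equiv.Perm.inv_eq_iff_eq] at this
      exact this.symm
    intro g
    have : g ∈ (⊤ : Subgroup (FreeGroup (Fin N))) := trivial
    rw [← hgen] at this
    exact hle this
  have hall : ∀ u, u = o := by
    intro u
    obtain ⟨i, j, hj, rfl⟩ := hG.surj u
    rw [← hρ i j hj.le, Equiv.Perm.inv_eq_iff_eq]
    exact (hfix _).symm
  have : Fintype.card V ≤ 1 := by
    rw [Fintype.card_le_one_iff]
    intro a b
    rw [hall a, hall b]
  omega

end Graph

/-- There is a quotient with few edges. -/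
def Q (Yw : Fin N → List (Lt N)) (m : ℕ) : Prop :=
  2 ≤ m ∧ ∃ (V : Type) (_ : Fintype V) (_ : DecidableEq V) (f : Fin N → ℕ → V) (o : V),
    Good Yw f o ∧ Fintype.card V = m ∧ (EE Yw f).card + 1 ≤ m + N

theorem Q.step (Yw : Fin N → List (Lt N)) (hgen : Subgroup.closure (Set.range fun i =>
    (FreeGroup.mk (Yw i) : FreeGroup (Fin N))) = ⊤) {m : ℕ} (hm : 3 ≤ m) (h : Q Yw m) :
    Q Yw (m - 1) := by
  obtain ⟨_, V, _, _, f, o, hG, hcard, hE⟩ := h
  obtain ⟨x, u, v, v', hne, hfold⟩ := exists_fold Yw hgen hG (by omega)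
  refine ⟨by omega, {w : V // w ≠ v'}, inferInstance, inferInstance, ?_⟩
  let g : V → {w : V // w ≠ v'} := fun w => if h : w = v' then ⟨v, hne⟩ else ⟨w, h⟩
  have gv : g v = g v' := by
    simp [g, hne]
  refine ⟨fun i j => g (f i j), g o, ⟨fun i => by rw [hG.zero], fun i => by rw [hG.last], ?_⟩,
    ?_, ?_⟩
  · intro w
    obtain ⟨i, j, hj, hw⟩ := hG.surj w.1
    refine ⟨i, j, hj, ?_⟩
    rw [hw]
    simp [g, w.2]
  · rw [Fintype.card_subtype_compl, hcard]
    simp
  · have him : EE Yw (fun i j => g (f i j)) =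
        (EE Yw f).image fun e => (g e.1, e.2.1, g e.2.2) := by
      unfold EE
      rw [Finset.image_image]
      apply Finset.image_congr
      intro p _
      simp only [Function.comp_apply, ed]
      split_ifs <;> rfl
    have hlt : ((EE Yw f).image fun e => (g e.1, e.2.1, g e.2.2)).card < (EE Yw f).card := by
      apply lt_of_le_of_ne Finset.card_image_le
      intro hc
      rw [Finset.card_image_iff] at hc
      rcases hfold with ⟨a1, a2⟩ | ⟨a1, a2⟩
      · have := hc a1 a2 (by simp only [gv])
        simp only [Prod.mk.injEq, true_and] at this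
        exact hne this
      · have := hc a1 a2 (by simp only [gv])
        simp only [Prod.mk.injEq, and_true] at this
        exact hne this
    rw [him]
    omega

theorem Q.two (Yw : Fin N → List (Lt N)) (hgen : Subgroup.closure (Set.range fun i =>
    (FreeGroup.mk (Yw i) : FreeGroup (Fin N))) = ⊤) : ∀ k, Q Yw (k + 2) → Q Yw 2
  | 0, h => h
  | k + 1, h => Q.two Yw hgen k (Q.step Yw hgen (by omega) h)

theorem Q.init (Yw : Fin N → List (Lt N)) (hne : ∀ i, Yw i ≠ [])
    (hlong : ∃ i, 2 ≤ (Yw i).length) : ∃ k, Q Yw (k + 2) := by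
  classical
  have hlen : ∀ i, 1 ≤ (Yw i).length := fun i => List.length_pos_iff.mpr (hne i)
  let V := Option (Σ i, Fin ((Yw i).length - 1))
  have hcV : Fintype.card V = (∑ i, ((Yw i).length - 1)) + 1 := by
    simp [V]
  have hs : 1 ≤ ∑ i, ((Yw i).length - 1) := by
    obtain ⟨i, hi⟩ := hlong
    have := Finset.single_le_sum (f := fun i => (Yw i).length - 1) (fun _ _ => Nat.zero_le _)
      (Finset.mem_univ i)
    omega
  refine ⟨(∑ i, ((Yw i).length - 1)) - 1, by omega, V, inferInstance, inferInstance, ?_⟩
  refine ⟨fun i j => if h : 1 ≤ j ∧ j < (Yw i).length then some ⟨i, ⟨j - 1, by omega⟩⟩ else none,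
    none, ⟨?_, ?_, ?_⟩, by omega, ?_⟩
  · intro i
    rw [dif_neg (by omega)]
  · intro i
    rw [dif_neg (by omega)]
  · intro u
    rcases u with _ | ⟨i, j⟩
    · obtain ⟨i, _⟩ := hlong
      exact ⟨i, 0, hlen i, by rw [dif_neg (by omega)]⟩
    · have := j.2
      refine ⟨i, j.1 + 1, by omega, ?_⟩
      rw [dif_pos ⟨by omega, by omega⟩]
      simp
  · have h1 : (EE Yw (fun i j => if h : 1 ≤ j ∧ j < (Yw i).length then
        (some ⟨i, ⟨j - 1, by omega⟩⟩ : V) else none)).card ≤ ∑ i, (Yw i).length := by
      refine Finset.card_image_le.trans ?_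
      simp
    have h2 : ∑ i, (Yw i).length = (∑ i, ((Yw i).length - 1)) + N := by
      have : ∑ i, (Yw i).length = ∑ i : Fin N, (((Yw i).length - 1) + 1) :=
        Finset.sum_congr rfl fun i _ => by have := hlen i; omega
      rw [this, Finset.sum_add_distrib]
      simp
    omega

/-- The turn between the letters `y` and `z` is compatible with the partition. -/
def Compat (x : Lt N) (col : Lt N → Bool) (y z : Lt N) : Prop :=
  inv' y ≠ x → z ≠ x → col (inv' y) = col z

theorem label_appears (Yw : Fin N → List (Lt N)) (hgen : Subgroup.closure (Set.range fun i =>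
    (FreeGroup.mk (Yw i) : FreeGroup (Fin N))) = ⊤) (x : Fin N) :
    ∃ i j, ∃ (hj : j < (Yw i).length), (Yw i)[j].1 = x := by
  classical
  by_contra hc
  push Not at hc
  let χ : FreeGroup (Fin N) →* Multiplicative ℤ :=
    FreeGroup.lift fun y => if y = x then Multiplicative.ofAdd 1 else 1
  have hw : ∀ l : List (Lt N), (∀ a ∈ l, a.1 ≠ x) → χ (FreeGroup.mk l) = 1 := by
    intro l
    induction l with
    | nil =>
      intro _
      change χ 1 = 1
      exact map_one _
    | cons a l ih =>
      intro hl
      rw [mk_cons', map_mul, ih fun b hb => hl b (List.mem_cons_of_mem _ hb), mul_one]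
      have ha := hl a (by simp)
      obtain ⟨i, s⟩ := a
      simp only at ha
      cases s
      · rw [lt_false, map_inv]
        simp [χ, ha]
      · rw [lt_true]
        simp [χ, ha]
  have hle : Subgroup.closure (Set.range fun i => (FreeGroup.mk (Yw i) :
      FreeGroup (Fin N))) ≤ χ.ker := by
    rw [Subgroup.closure_le]
    rintro _ ⟨i, rfl⟩
    apply hw
    intro a ha
    obtain ⟨j, hj, rfl⟩ := List.mem_iff_getElem.mp ha
    exact hc i j hj
  have h1 : FreeGroup.of x ∈ χ.ker := by
    apply hle
    rw [hgen]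
    trivial
  rw [MonoidHom.mem_ker] at h1
  simp [χ] at h1

theorem cut_graph (Yw : Fin N → List (Lt N)) (hgen : Subgroup.closure (Set.range fun i =>
    (FreeGroup.mk (Yw i) : FreeGroup (Fin N))) = ⊤) (hred : ∀ i, FreeGroup.IsReduced (Yw i))
    (hQ : Q Yw 2) {i0 : Fin N} (hcyc : FreeGroup.IsReduced (Yw i0 ++ Yw i0))
    (hne0 : Yw i0 ≠ []) :
    ∃ (x : Lt N) (col : Lt N → Bool), (∃ p, p ≠ x ∧ col p = true) ∧ (∃ q, q ≠ x ∧ col q = false) ∧
      (∀ P y z S, Yw i0 = P ++ y :: z :: S → Compat x col y z) ∧
      (∀ y z, (Yw i0).getLast? = some y → (Yw i0).head? = some z → Compat x col y z) := by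
  classical
  obtain ⟨_, V, _, _, f, o, hG, hcard, hE⟩ := hQ
  obtain ⟨x1, u0, v, v', hne, hfold⟩ := exists_fold Yw hgen hG (by omega)
  set E := EE Yw f with hEdef
  -- every label occurs
  have hlab : ∀ x : Fin N, ∃ e ∈ E, e.2.1 = x := by
    intro x
    obtain ⟨i, j, hj, hx⟩ := label_appears Yw hgen x
    rcases hs : (Yw i)[j] with ⟨y, s⟩
    rw [hs] at hx
    simp only at hx
    subst hx
    cases s
    · exact ⟨_, mem_EE_false Yw f hj hs, rfl⟩
    · exact ⟨_, mem_EE_true Yw f hj hs, rfl⟩
  have hsum : E.card = ∑ x : Fin N, (E.filter fun e => e.2.1 = x).card :=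
    Finset.card_eq_sum_card_fiberwise fun e _ => Finset.mem_coe.mpr (Finset.mem_univ _)
  have h1 : ∀ x : Fin N, 1 ≤ (E.filter fun e => e.2.1 = x).card := by
    intro x
    obtain ⟨e, he, hx⟩ := hlab x
    exact Finset.card_pos.mpr ⟨e, Finset.mem_filter.mpr ⟨he, hx⟩⟩
  have hx1 : ∀ s : Finset (V × Fin N × V), s ⊆ E → (∀ e ∈ s, e.2.1 = x1) → s.card ≤ 2 := by
    intro s hs hsx
    by_contra hc
    have h3 : 3 ≤ (E.filter fun e => e.2.1 = x1).card := by
      refine le_trans (by omega) (Finset.card_le_card (s := s) ?_)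
      intro e he
      exact Finset.mem_filter.mpr ⟨hs he, hsx e he⟩
    have h4 : ∑ x : Fin N, (1 + if x = x1 then 2 else 0) ≤
        ∑ x : Fin N, (E.filter fun e => e.2.1 = x).card := by
      apply Finset.sum_le_sum
      intro x _
      split_ifs with hx
      · rw [hx]; exact h3
      · exact h1 x
    rw [Finset.sum_add_distrib, Finset.sum_ite_eq'] at h4
    simp at h4
    omega
  have hother : ∀ x : Fin N, x ≠ x1 → ∀ e ∈ E, ∀ e' ∈ E, e.2.1 = x → e'.2.1 = x → e = e' := by
    intro x hx e he e' he' h5 h6
    by_contra hne'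
    have h7 : 2 ≤ (E.filter fun e => e.2.1 = x).card := by
      have : ({e, e'} : Finset (V × Fin N × V)) ⊆ E.filter fun e => e.2.1 = x := by
        intro a ha
        rw [Finset.mem_insert, Finset.mem_singleton] at ha
        rcases ha with rfl | rfl
        · exact Finset.mem_filter.mpr ⟨he, h5⟩
        · exact Finset.mem_filter.mpr ⟨he', h6⟩
      have h8 := Finset.card_le_card this
      rwa [Finset.card_pair hne'] at h8
    have h9 : 2 ≤ (E.filter fun e => e.2.1 = x1).card := by
      rcases hfold with ⟨a1, a2⟩ | ⟨a1, a2⟩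
      · have : ({(u0, x1, v), (u0, x1, v')} : Finset (V × Fin N × V)) ⊆
            E.filter fun e => e.2.1 = x1 := by
          intro a ha
          rw [Finset.mem_insert, Finset.mem_singleton] at ha
          rcases ha with rfl | rfl
          · exact Finset.mem_filter.mpr ⟨a1, rfl⟩
          · exact Finset.mem_filter.mpr ⟨a2, rfl⟩
        have h8 := Finset.card_le_card this
        rwa [Finset.card_pair (by simp [hne])] at h8
      · have : ({(v, x1, u0), (v', x1, u0)} : Finset (V × Fin N × V)) ⊆
            E.filter fun e => e.2.1 = x1 := by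
          intro a ha
          rw [Finset.mem_insert, Finset.mem_singleton] at ha
          rcases ha with rfl | rfl
          · exact Finset.mem_filter.mpr ⟨a1, rfl⟩
          · exact Finset.mem_filter.mpr ⟨a2, rfl⟩
        have h8 := Finset.card_le_card this
        rwa [Finset.card_pair (by simp [hne])] at h8
    have h4 : ∑ y : Fin N, ((1 + if y = x1 then 1 else 0) + if y = x then 1 else 0) ≤
        ∑ x : Fin N, (E.filter fun e => e.2.1 = x).card := by
      apply Finset.sum_le_sum
      intro y _
      by_cases hy1 : y = x1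
      · rw [if_pos hy1, if_neg (by rw [hy1]; exact hx.symm), hy1]
        omega
      · rw [if_neg hy1]
        split_ifs with hy
        · rw [hy]; omega
        · exact h1 y
    rw [Finset.sum_add_distrib, Finset.sum_add_distrib, Finset.sum_ite_eq',
      Finset.sum_ite_eq'] at h4
    simp at h4
    omega
  -- location of directions
  let Loc : Lt N → V → Prop := fun d u =>
    if d.2 then ∃ w, (u, d.1, w) ∈ E else ∃ w, (w, d.1, u) ∈ E
  have hspec : ∃ x : Lt N, ∀ d, d ≠ x → ∀ u u', Loc d u → Loc d u' → u = u' := by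
    rcases hfold with ⟨a1, a2⟩ | ⟨a1, a2⟩
    · refine ⟨(x1, false), ?_⟩
      rintro ⟨y, s⟩ hd u u' hu hu'
      by_cases hy : y = x1
      · subst hy
        have hs : s = true := by
          cases s
          · exact absurd rfl hd
          · rfl
        subst hs
        have huu : ∀ w, Loc (y, true) w → w = u0 := by
          intro w hw
          simp only [Loc, if_true] at hw
          obtain ⟨w', hw'⟩ := hw
          by_contra hwu
          have := hx1 {(u0, y, v), (u0, y, v'), (w, y, w')} (by
            intro a ha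
            simp only [Finset.mem_insert, Finset.mem_singleton] at ha
            rcases ha with rfl | rfl | rfl <;> assumption) (by
            intro a ha
            simp only [Finset.mem_insert, Finset.mem_singleton] at ha
            rcases ha with rfl | rfl | rfl <;> rfl)
          rw [Finset.card_eq_three.mpr ⟨_, _, _, by simp [hne], by
            simp [Ne.symm hwu], by simp [Ne.symm hwu], rfl⟩] at this
          omega
        rw [huu u hu, huu u' hu']
      · cases s
        · simp only [Loc, Bool.false_eq_true, if_false] at hu hu'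
          obtain ⟨w, hw⟩ := hu
          obtain ⟨w', hw'⟩ := hu'
          have := hother y hy _ hw _ hw' rfl rfl
          simp only [Prod.mk.injEq] at this
          exact this.2.2
        · simp only [Loc, if_true] at hu hu'
          obtain ⟨w, hw⟩ := hu
          obtain ⟨w', hw'⟩ := hu'
          have := hother y hy _ hw _ hw' rfl rfl
          simp only [Prod.mk.injEq] at this
          exact this.1
    · refine ⟨(x1, true), ?_⟩
      rintro ⟨y, s⟩ hd u u' hu hu'
      by_cases hy : y = x1
      · subst hy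
        have hs : s = false := by
          cases s
          · rfl
          · exact absurd rfl hd
        subst hs
        have huu : ∀ w, Loc (y, false) w → w = u0 := by
          intro w hw
          simp only [Loc, Bool.false_eq_true, if_false] at hw
          obtain ⟨w', hw'⟩ := hw
          by_contra hwu
          have := hx1 {(v, y, u0), (v', y, u0), (w', y, w)} (by
            intro a ha
            simp only [Finset.mem_insert, Finset.mem_singleton] at ha
            rcases ha with rfl | rfl | rfl <;> assumption) (by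
            intro a ha
            simp only [Finset.mem_insert, Finset.mem_singleton] at ha
            rcases ha with rfl | rfl | rfl <;> rfl)
          rw [Finset.card_eq_three.mpr ⟨_, _, _, by simp [hne], by
            simp [Ne.symm hwu], by simp [Ne.symm hwu], rfl⟩] at this
          omega
        rw [huu u hu, huu u' hu']
      · cases s
        · simp only [Loc, Bool.false_eq_true, if_false] at hu hu'
          obtain ⟨w, hw⟩ := hu
          obtain ⟨w', hw'⟩ := hu'
          have := hother y hy _ hw _ hw' rfl rfl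
          simp only [Prod.mk.injEq] at this
          exact this.2.2
        · simp only [Loc, if_true] at hu hu'
          obtain ⟨w, hw⟩ := hu
          obtain ⟨w', hw'⟩ := hu'
          have := hother y hy _ hw _ hw' rfl rfl
          simp only [Prod.mk.injEq] at this
          exact this.1
  obtain ⟨x, hx⟩ := hspec
  have locOut : ∀ i j (hj : j < (Yw i).length), Loc (Yw i)[j] (f i j) := by
    intro i j hj
    rcases hs : (Yw i)[j] with ⟨y, s⟩
    cases s
    · exact ⟨_, mem_EE_false Yw f hj hs⟩
    · exact ⟨_, mem_EE_true Yw f hj hs⟩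
  have locIn : ∀ i j (hj : j < (Yw i).length), Loc (inv' (Yw i)[j]) (f i (j + 1)) := by
    intro i j hj
    rcases hs : (Yw i)[j] with ⟨y, s⟩
    cases s
    · exact ⟨_, mem_EE_false Yw f hj hs⟩
    · exact ⟨_, mem_EE_true Yw f hj hs⟩
  have compat : ∀ (y z : Lt N) (u : V), Loc (inv' y) u → Loc z u →
      Compat x (fun d => decide (Loc d o)) y z := by
    intro y z u h3 h4 h5 h6
    have h7 : Loc (inv' y) o ↔ Loc z o := by
      constructor
      · intro h8
        rw [← hx _ h5 _ _ h3 h8]
        exact h4
      · intro h8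
        rw [← hx _ h6 _ _ h4 h8]
        exact h3
    simp only [h7]
  have hpos : 0 < (Yw i0).length := List.length_pos_iff.mpr hne0
  have hlastIdx : (Yw i0).length - 1 + 1 = (Yw i0).length := by omega
  refine ⟨x, fun d => decide (Loc d o), ?_, ?_, ?_, ?_⟩
  · have e1 := locOut i0 0 hpos
    have e2 := locIn i0 ((Yw i0).length - 1) (by omega)
    rw [hG.zero] at e1
    rw [hlastIdx, hG.last] at e2
    have hr := (cyc_iff.mp hcyc).2 ((Yw i0)[(Yw i0).length - 1]'(by omega)) (by
      rw [List.getLast?_eq_getElem?, List.getElem?_eq_getElem (by omega)]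
      rfl) ((Yw i0)[0]'hpos) (by
      rw [List.head?_eq_getElem?, List.getElem?_eq_getElem hpos]
      rfl)
    rw [reduced_iff] at hr
    by_cases h3 : (Yw i0)[0] = x
    · exact ⟨_, fun h4 => hr (h3.trans h4.symm), by simpa using e2⟩
    · exact ⟨_, h3, by simpa using e1⟩
  · have hex : ∃ u : V, u ≠ o := by
      by_contra hc
      push Not at hc
      have : Fintype.card V ≤ 1 := by
        rw [Fintype.card_le_one_iff]
        intro a b
        rw [hc a, hc b]
      omega
    obtain ⟨u, hu⟩ := hex
    obtain ⟨i, j, hj, hij⟩ := hG.surj u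
    have hj0 : j ≠ 0 := by
      rintro rfl
      rw [hG.zero] at hij
      exact hu hij.symm
    obtain ⟨k, rfl⟩ := Nat.exists_eq_succ_of_ne_zero hj0
    have e1 := locOut i (k + 1) hj
    have e2 := locIn i k (by omega)
    have hij' : f i (k + 1) = u := hij
    rw [hij'] at e1 e2
    have hr := List.isChain_iff_getElem.mp (hred i) k (by omega)
    rw [reduced_iff] at hr
    have hdec : ∀ d, d ≠ x → Loc d u → decide (Loc d o) = false := by
      intro d hd hl
      rw [decide_eq_false_iff_not]
      intro h8
      exact hu (hx d hd _ _ hl h8)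
    by_cases h3 : (Yw i)[k + 1] = x
    · refine ⟨_, fun h4 => hr (h3.trans h4.symm), hdec _ (fun h4 => hr (h3.trans h4.symm)) e2⟩
    · exact ⟨_, h3, hdec _ h3 e1⟩
  · intro P y z S hL
    have hlen : P.length + 1 < (Yw i0).length := by
      rw [hL]; simp
    have e1 := locIn i0 P.length (by omega)
    have e2 := locOut i0 (P.length + 1) hlen
    have g1 : (Yw i0)[P.length]'(by omega) = y := by
      simp only [hL]
      simp
    have g2 : (Yw i0)[P.length + 1]'hlen = z := by
      simp only [hL]
      simp
    rw [g1] at e1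
    rw [g2] at e2
    exact compat y z _ e1 e2
  · intro y z hy hz
    have e1 := locOut i0 0 hpos
    have e2 := locIn i0 ((Yw i0).length - 1) (by omega)
    rw [hG.zero] at e1
    rw [hlastIdx, hG.last] at e2
    rw [List.getLast?_eq_getElem?, List.getElem?_eq_getElem (by omega)] at hy
    rw [List.head?_eq_getElem?, List.getElem?_eq_getElem hpos] at hz
    rw [Option.some.inj hy] at e2
    rw [Option.some.inj hz] at e1
    exact compat y z o e2 e1

/-- Whitehead's cut vertex lemma. -/
theorem cut (hN : 2 ≤ N) (φ : FreeGroup (Fin N) ≃* FreeGroup (Fin N)) (i0 : Fin N)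
    {g : FreeGroup (Fin N)} (hg : φ (FreeGroup.of i0) = g) :
    ∃ (x : Lt N) (col : Lt N → Bool), (∃ p, p ≠ x ∧ col p = true) ∧ (∃ q, q ≠ x ∧ col q = false) ∧
      ∀ (z : Lt N) (R : List (Lt N)) (y : Lt N), Rep g (z :: R) →
        (z :: R).getLast? = some y → Compat x col y z := by
  classical
  have hg1 : g ≠ 1 := by
    rintro rfl
    rw [map_eq_one_iff φ φ.injective] at hg
    exact FreeGroup.of_ne_one _ hg
  obtain ⟨L, hL⟩ := exists_rep hg1
  -- conjugate
  obtain ⟨c, hc⟩ := isConj_iff.mp hL.2.2
  let Yw : Fin N → List (Lt N) := fun i => if i = i0 then L else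
    (c * φ (FreeGroup.of i) * c⁻¹).toWord
  have hYmk : ∀ i, (FreeGroup.mk (Yw i) : FreeGroup (Fin N)) = c * φ (FreeGroup.of i) * c⁻¹ := by
    intro i
    by_cases hi : i = i0
    · simp only [Yw, hi, if_true]
      rw [← hc, hg]
    · simp only [Yw, hi, if_false]
      rw [FreeGroup.mk_toWord]
  have hY0 : Yw i0 = L := by simp [Yw]
  have hgen : Subgroup.closure (Set.range fun i => (FreeGroup.mk (Yw i) :
      FreeGroup (Fin N))) = ⊤ := by
    let ψ : FreeGroup (Fin N) ≃* FreeGroup (Fin N) := φ.trans (MulAut.conj c)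
    have h1 : (Set.range fun i => (FreeGroup.mk (Yw i) : FreeGroup (Fin N))) =
        ψ '' Set.range FreeGroup.of := by
      ext a
      constructor
      · rintro ⟨i, rfl⟩
        exact ⟨_, ⟨i, rfl⟩, (hYmk i).symm⟩
      · rintro ⟨_, ⟨i, rfl⟩, rfl⟩
        exact ⟨i, hYmk i⟩
    have h2 : ψ '' Set.range FreeGroup.of = (ψ : FreeGroup (Fin N) →* FreeGroup (Fin N)) ''
        Set.range FreeGroup.of := rfl
    rw [h1, h2, ← MonoidHom.map_closure, FreeGroup.closure_range_of,
      Subgroup.map_top_of_surjective _ ψ.surjective]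
  have hred : ∀ i, FreeGroup.IsReduced (Yw i) := by
    intro i
    by_cases hi : i = i0
    · rw [hi, hY0]; exact (cyc_iff.mp hL.2.1).isReduced
    · simp only [Yw, hi, if_false]
      exact FreeGroup.isReduced_toWord
  have hne : ∀ i, Yw i ≠ [] := by
    intro i hi
    have h1 := hYmk i
    rw [hi] at h1
    have h2 : c * φ (FreeGroup.of i) * c⁻¹ = 1 := h1.symm
    rw [mul_inv_eq_one, mul_eq_left, map_eq_one_iff φ φ.injective] at h2
    exact FreeGroup.of_ne_one _ h2
  have hmain : ∃ (x : Lt N) (col : Lt N → Bool), (∃ p, p ≠ x ∧ col p = true) ∧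
      (∃ q, q ≠ x ∧ col q = false) ∧
      (∀ P y z S, L = P ++ y :: z :: S → Compat x col y z) ∧
      (∀ y z, L.getLast? = some y → L.head? = some z → Compat x col y z) := by
    by_cases hlong : ∃ i, 2 ≤ (Yw i).length
    · obtain ⟨k, hk⟩ := Q.init Yw hne hlong
      have := cut_graph Yw hgen hred (Q.two Yw hgen k hk) (i0 := i0) (by rw [hY0]; exact hL.2.1)
        (hne i0)
      rwa [hY0] at this
    · push Not at hlong
      have h1 := hlong i0
      rw [hY0] at h1
      have h2 : 1 ≤ L.length := List.length_pos_iff.mpr hL.1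
      obtain ⟨a, ha⟩ := List.length_eq_one_iff.mp (by omega : L.length = 1)
      obtain ⟨b, hb⟩ : ∃ b : Fin N, b ≠ a.1 := by
        by_contra hc
        push Not at hc
        have : Fintype.card (Fin N) ≤ 1 := by
          rw [Fintype.card_le_one_iff]
          intro u v
          rw [hc u, hc v]
        rw [Fintype.card_fin] at this
        omega
      refine ⟨a, fun d => decide (d = inv' a), ⟨inv' a, ?_, by simp⟩, ⟨(b, true), ?_, ?_⟩, ?_, ?_⟩
      · intro h
        have := congrArg Prod.snd h
        simp [inv'] at this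
      · intro h
        exact hb (congrArg Prod.fst h)
      · rw [decide_eq_false_iff_not]
        intro h
        exact hb (congrArg Prod.fst h)
      · intro P y z S h
        have := congrArg List.length h
        rw [ha] at this
        simp at this
        omega
      · intro y z _ hz _ h4
        rw [ha] at hz
        exact absurd (Option.some.inj hz).symm h4
  obtain ⟨x, col, hp, hq, h1, h2⟩ := hmain
  refine ⟨x, col, hp, hq, ?_⟩
  intro z R y hrep hy
  obtain ⟨u, v, hu, hv⟩ := hL.unique hrep
  rcases eq_or_ne v [] with hvn | hvn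
  · subst hvn
    rw [List.append_nil] at hu
    rw [List.nil_append] at hv
    apply h2
    · rw [hu, ← hv]; exact hy
    · rw [hu, ← hv]; rfl
  · rcases eq_or_ne u [] with hun | hun
    · subst hun
      rw [List.nil_append] at hu
      rw [List.append_nil] at hv
      apply h2
      · rw [hu, ← hv]; exact hy
      · rw [hu, ← hv]; rfl
    · rw [hv, List.getLast?_append_of_ne_nil _ hun] at hy
      obtain ⟨u', hu'⟩ := List.getLast?_eq_some_iff.mp hy
      obtain ⟨z', v', hv'⟩ := List.exists_cons_of_ne_nil hvn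
      rw [hv'] at hv
      simp only [List.cons_append, List.cons.injEq] at hv
      apply h1 u' y z v'
      rw [hu, hu', hv', ← hv.1]
      simp

end Pool.Agent.H67R4.SR
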