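import Mathlib
import Pool.Agent.H67R3.FSR.Current
import Pool.Agent.H472R3.Defs

set_option autoImplicit false

/-!
# Spectral rigidity, primitive elements and projective currents: the definitions
-/

namespace Pool.Agent.H67R4.SR

open Pool.Agent.H67R3.FSR Pool.Agent.H472R3
open scoped NNReal

variable {N : ℕ}

/-- `g` is primitive: it belongs to some free basis. -/
def Primitive (g : FreeGroup (Fin N)) : Prop :=
  ∃ b : FreeGroupBasis (Fin N) (FreeGroup (Fin N)), g ∈ Set.range b

/-- `S` is spectrally rigid: two points of the unprojectivized Outer space with the same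
translation lengths on `S` are equal. -/
def SpectrallyRigid (S : Set (FreeGroup (Fin N))) : Prop :=
  ∀ A B : FTree N, A.InCV → B.InCV → (∀ g ∈ S, A.len g = B.len g) → A.Same B

/-- Two nonzero currents are equivalent if they are proportional. -/
instance projSetoid (N : ℕ) : Setoid {μ : Current N // μ ≠ 0} where
  r μ ν := ∃ c : ℝ≥0, c ≠ 0 ∧ ν.1 = c • μ.1
  iseqv :=
    { refl := fun μ => ⟨1, one_ne_zero, by
        apply Current.ext
        rw [Current.smul_meas, one_smul]⟩
      symm := by
        rintro μ ν ⟨c, hc, h⟩
        refine ⟨c⁻¹, inv_ne_zero hc, ?_⟩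
        apply Current.ext
        rw [h, Current.smul_meas, Current.smul_meas, smul_smul, inv_mul_cancel₀ hc, one_smul]
      trans := by
        rintro μ ν κ ⟨c, hc, h⟩ ⟨d, hd, h'⟩
        refine ⟨d * c, mul_ne_zero hd hc, ?_⟩
        apply Current.ext
        rw [h', h, Current.smul_meas, Current.smul_meas, Current.smul_meas, smul_smul] }

/-- The space of projective currents. -/
def PCurr (N : ℕ) : Type := Quotient (projSetoid N)

/-- The quotient topology. -/
instance (N : ℕ) : TopologicalSpace (PCurr N) :=
  inferInstanceAs (TopologicalSpace (Quotient (projSetoid N)))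

/-- The class of a nonzero current. -/
def PCurr.mk (μ : {μ : Current N // μ ≠ 0}) : PCurr N := Quotient.mk (projSetoid N) μ

/-- The set of the projective classes `[η_g]` of the counting currents of the elements `g ≠ 1` of
`S` (the counting current of a primitive element is not zero). -/
def Classes (S : Set (FreeGroup (Fin N))) : Set (PCurr N) :=
  {p | ∃ (g : FreeGroup (Fin N)) (hg : g ≠ 1) (hne : eta g hg ≠ 0),
    g ∈ S ∧ p = PCurr.mk ⟨eta g hg, hne⟩}

end Pool.Agent.H67R4.SR
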