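import Mathlib
import Pool.Agent.H67R4.SR.Cut
import Pool.Agent.H472R3.Words
import Pool.Agent.H67R4.SR.Statement

set_option autoImplicit false

/-!
# Two points of Outer space with the same lengths on all primitive elements with many turns
-/

namespace Pool.Agent.H67R4.SR

open Pool.Agent.H67R3.FSR Pool.Agent.H472R3

variable {N M : ℕ}

/-- The length function of a weighted rose pulled back by a homomorphism. -/
noncomputable def lenOf {w : Fin M → ℝ} (hw : ∀ i, 0 ≤ w i)
    (φ : FreeGroup (Fin N) →* FreeGroup (Fin M)) : LenFn N where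
  L g := wl w (φ g)
  one := by rw [map_one]; simp [wl, W]
  inv g := by rw [map_inv, wl_inv]
  um g h k := by
    simp only [map_mul, map_inv]
    rw [wl_gp, wl_gp, wl_gp]
    exact cp_um hw _ _ _

theorem wl_sq_eq {w : Fin N → ℝ} {g : FreeGroup (Fin N)} :
    wl w (g * g) - wl w g = W w (FreeGroup.reduceCyclically g.toWord) := by
  have h := FreeGroup.isReduced_toWord (x := g)
  have h2 := FreeGroup.reduceCyclically.reduce_flatten_replicate h 2
  rw [if_neg (by norm_num)] at h2
  have e1 : (List.replicate 2 g.toWord).flatten = g.toWord ++ g.toWord := by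
    simp [List.replicate_succ]
  have e2 : (List.replicate 2 (FreeGroup.reduceCyclically g.toWord)).flatten =
      FreeGroup.reduceCyclically g.toWord ++ FreeGroup.reduceCyclically g.toWord := by
    simp [List.replicate_succ]
  rw [e1, e2, ← FreeGroup.toWord_mul] at h2
  have h3 := FreeGroup.reduceCyclically.conj_conjugator_reduceCyclically g.toWord
  unfold wl
  rw [h2]
  conv_lhs => rw [← h3]
  rw [FreeGroup.toWord_mul] at *
  simp only [W_append, W_invRev]
  rw [h3]
  ring

theorem rep_reduceCyc {g : FreeGroup (Fin N)} (hg : g ≠ 1) :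
    Rep g (FreeGroup.reduceCyclically g.toWord) := by
  have h3 := FreeGroup.reduceCyclically.conj_conjugator_reduceCyclically g.toWord
  have h4 := congrArg FreeGroup.mk h3
  rw [← FreeGroup.mul_mk, ← FreeGroup.mul_mk, FreeGroup.mk_toWord, ← FreeGroup.inv_mk] at h4
  refine ⟨?_, ?_, ?_⟩
  · intro hn
    rw [hn] at h4
    apply hg
    rw [← h4]
    change _ * 1 * _ = _
    group
  · rw [cyc_iff]
    exact FreeGroup.reduceCyclically.isCyclicallyReduced FreeGroup.isReduced_toWord
  · rw [isConj_comm, isConj_iff]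
    exact ⟨_, h4⟩

theorem wl_sq_rep {w : Fin N → ℝ} {g : FreeGroup (Fin N)} {L : List (Lt N)} (h : Rep g L) :
    wl w (g * g) - wl w g = W w L := by
  rw [wl_sq_eq]
  obtain ⟨u, v, hu, hv⟩ := (rep_reduceCyc h.ne_one).unique h
  rw [hu, hv, W_append, W_append, add_comm]

theorem lenOf_len {w : Fin M → ℝ} (hw : ∀ i, 0 ≤ w i)
    (φ : FreeGroup (Fin N) →* FreeGroup (Fin M)) {g : FreeGroup (Fin N)} {L : List (Lt M)}
    (h : Rep (φ g) L) : (lenOf hw φ).tree.len g = W w L := by
  rw [LenFn.len_tree]
  change max 0 (wl w (φ (g * g)) - wl w (φ g)) = _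
  rw [map_mul, wl_sq_rep h]
  exact max_eq_right (W_nonneg hw L)

theorem lenOf_inCV {w : Fin M → ℝ} (hw : ∀ i, 0 ≤ w i) (hw1 : ∀ i, 1 ≤ w i)
    (φ : FreeGroup (Fin N) →* FreeGroup (Fin M)) (hφ : ∀ g, g ≠ 1 → φ g ≠ 1)
    {h : FreeGroup (Fin N)} (hh : FreeGroup.IsReduced ((φ h).toWord ++ (φ h).toWord))
    (hne : φ h ≠ 1) : (lenOf hw φ).tree.InCV := by
  have h1 : ∀ g, g ≠ 1 → 1 ≤ (lenOf hw φ).L (g * g) - (lenOf hw φ).L g := by
    intro g hg
    change 1 ≤ wl w (φ (g * g)) - wl w (φ g)
    rw [map_mul]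
    exact wl_sq zero_le_one hw1 _ (hφ g hg)
  have hc : FreeGroup.IsCyclicallyReduced (φ h).toWord := cyc_iff.mp hh
  refine ⟨LenFn.free_tree _ fun g hg => ?_, LenFn.minimal_tree _ h ?_ ?_,
    LenFn.discrete_tree _ one_pos h1⟩
  · have := h1 g hg
    linarith
  · change 0 < wl w (φ h)
    obtain ⟨a, l, hw'⟩ := exists_cons hne
    unfold wl
    rw [hw', W_cons]
    have := hw1 a.1
    have := W_nonneg hw l
    linarith
  · intro n
    change wl w (φ (h ^ n)) = n * wl w (φ h)
    rw [map_pow]
    unfold wl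
    rw [norm_pow_of_cyc hc]
    induction n with
    | zero => simp [W]
    | succ n ih =>
      rw [List.replicate_succ, List.flatten_cons, W_append, ih]
      push_cast
      ring

/-- Cyclic sums over consecutive pairs. -/
def csum (F : Lt N → Lt N → ℝ) (z0 : Lt N) : List (Lt N) → ℝ
  | [] => 0
  | y :: l => F y (l.headD z0) + csum F z0 l

theorem csum_congr {F G : Lt N → Lt N → ℝ} {z0 : Lt N} : ∀ L : List (Lt N),
    (∀ P y z S, L = P ++ y :: z :: S → F y z = G y z) →
    (∀ y, L.getLast? = some y → F y z0 = G y z0) → csum F z0 L = csum G z0 L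
  | [], _, _ => rfl
  | [y], _, h2 => by
    simp only [csum, List.headD_nil]
    rw [h2 y rfl]
  | y :: z :: l, h1, h2 => by
    have ih := csum_congr (F := F) (G := G) (z0 := z0) (z :: l)
      (fun P a b S h => h1 (y :: P) a b S (by rw [h]; rfl))
      (fun a ha => h2 a (by rw [List.getLast?_cons_cons]; exact ha))
    change F y z + csum F z0 (z :: l) = G y z + csum G z0 (z :: l)
    rw [ih, h1 [] y z l rfl]

theorem csum_le {F G : Lt N → Lt N → ℝ} {z0 : Lt N} (h : ∀ y z, F y z ≤ G y z) :
    ∀ L : List (Lt N), csum F z0 L ≤ csum G z0 L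
  | [] => le_rfl
  | y :: l => add_le_add (h _ _) (csum_le h l)

theorem csum_add {F G : Lt N → Lt N → ℝ} {z0 : Lt N} :
    ∀ L : List (Lt N), csum (fun y z => F y z + G y z) z0 L = csum F z0 L + csum G z0 L
  | [] => by simp [csum]
  | y :: l => by
    simp only [csum]
    rw [csum_add l]
    ring

theorem csum_shift (F : Lt N → ℝ) (z0 : Lt N) :
    ∀ L : List (Lt N), csum (fun _ z => F z) z0 L + F (L.headD z0) =
      (L.map F).sum + F z0
  | [] => by simp [csum]
  | y :: l => by
    have := csum_shift F z0 l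
    simp only [csum, List.headD_cons, List.map_cons, List.sum_cons]
    linarith

theorem csum_fst (F : Lt N → ℝ) (z0 : Lt N) :
    ∀ L : List (Lt N), csum (fun y _ => F y) z0 L = (L.map F).sum
  | [] => rfl
  | y :: l => by
    simp only [csum, List.map_cons, List.sum_cons]
    rw [csum_fst F z0 l]

section Pair

variable (x : Lt N) (col : Lt N → Bool)

noncomputable def w1 : Fin N → ℝ := fun i => if i = x.1 then 2 else 1

theorem w1_ge (i : Fin N) : 1 ≤ w1 x i := by
  unfold w1
  split_ifs <;> norm_num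

theorem w1_nonneg (i : Fin N) : 0 ≤ w1 x i := le_trans zero_le_one (w1_ge x i)

/-- The first point. -/
noncomputable def T1 : FTree N := (lenOf (w1_nonneg x) (MonoidHom.id _)).tree

def emb (y : Lt N) : Lt (N + 2) := (Fin.castAdd 2 y.1, y.2)

theorem emb_inv (y : Lt N) : emb (inv' y) = inv' (emb y) := rfl

def e0 : Fin (N + 2) := Fin.natAdd N 0

def e1 : Fin (N + 2) := Fin.natAdd N 1

def YY : Fin (N + 2) → Prop := fun i => i.1 < N

instance : DecidablePred (YY (N := N)) := fun i => inferInstanceAs (Decidable (i.1 < N))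

def lam2 (y : Lt (N + 2)) : FreeGroup (Fin (N + 2)) :=
  if h : y.1.1 < N then
    (if ((⟨y.1.1, h⟩, y.2) : Lt N) = x then 1
      else if col (⟨y.1.1, h⟩, y.2) then FreeGroup.of e0 else FreeGroup.of e1)
  else 1

theorem lam2_emb (y : Lt N) : lam2 x col (emb y) =
    if y = x then 1 else if col y then FreeGroup.of e0 else FreeGroup.of e1 := by
  have h : (emb y).1.1 < N := y.1.2
  unfold lam2
  rw [dif_pos h]
  rfl

theorem YY_emb (y : Lt N) : YY (emb y).1 := y.1.2

theorem lam2_ZG (y : Lt (N + 2)) (_ : YY y.1) : ZG YY (lam2 x col y) := by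
  intro z hz
  unfold lam2 at hz
  split_ifs at hz
  · simp at hz
  · rw [FreeGroup.toWord_of, List.mem_singleton] at hz
    subst hz
    unfold YY e0
    simp
  · rw [FreeGroup.toWord_of, List.mem_singleton] at hz
    subst hz
    unfold YY e1
    simp
  · simp at hz

def embHom : FreeGroup (Fin N) →* FreeGroup (Fin (N + 2)) := FreeGroup.map (Fin.castAdd 2)

theorem embHom_mk (L : List (Lt N)) : embHom (FreeGroup.mk L) = FreeGroup.mk (L.map emb) := by
  unfold embHom
  rw [FreeGroup.map.mk]
  rfl

def iota2 : FreeGroup (Fin N) →* FreeGroup (Fin (N + 2)) := (th YY (lam2 x col)).comp embHom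

theorem emb_injective : Function.Injective (emb : Lt N → Lt (N + 2)) := by
  intro a b h
  have h1 := congrArg Prod.fst h
  have h2 := congrArg Prod.snd h
  apply Prod.ext
  · exact Fin.castAdd_injective _ _ h1
  · exact h2

theorem red_map_emb {L : List (Lt N)} (h : FreeGroup.IsReduced L) :
    FreeGroup.IsReduced (L.map emb) := by
  unfold FreeGroup.IsReduced at h ⊢
  rw [List.isChain_map]
  refine h.imp ?_
  intro a b hab he
  exact hab (Fin.castAdd_injective _ _ he)

theorem Rep.embed {g : FreeGroup (Fin N)} {L : List (Lt N)} (h : Rep g L) :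
    Rep (embHom g) (L.map emb) := by
  refine ⟨by simp [h.1], ?_, ?_⟩
  · rw [← List.map_append]
    exact red_map_emb h.2.1
  · rw [← embHom_mk]
    obtain ⟨c, hc⟩ := isConj_iff.mp h.2.2
    rw [isConj_iff]
    exact ⟨embHom c, by rw [← map_inv, ← map_mul, ← map_mul, hc]⟩

def bl (L : List (Lt N)) : List (Blk (N + 2)) := L.map fun y => (emb y, [])

theorem wd_bl (L : List (Lt N)) : wd (bl L) = L.map emb := by
  induction L with
  | nil => rfl
  | cons y L ih =>
    have : bl (y :: L) = (emb y, []) :: bl L := rfl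
    rw [this, wd_cons, ih]
    rfl

theorem bl_ok (L : List (Lt N)) : ∀ p ∈ bl L, Ok YY p := by
  intro p hp
  unfold bl at hp
  rw [List.mem_map] at hp
  obtain ⟨y, _, rfl⟩ := hp
  exact ⟨YY_emb y, by simp⟩

/-- The number of letters inserted at a turn. -/
noncomputable def jj (y z : Lt N) : ℝ :=
  W (fun _ => (1 : ℝ)) ((lam2 x col (emb (inv' y)))⁻¹ * lam2 x col (emb z)).toWord

theorem W_tw (z0 : Lt N) : ∀ L : List (Lt N), W (fun _ => (1 : ℝ))
    (wd (tw (lam2 x col) (emb z0) (bl L))) = L.length + csum (jj x col) z0 L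
  | [] => by simp [bl, tw, wd_nil, W, csum]
  | y :: L => by
    have ih := W_tw z0 L
    have e : bl (y :: L) = (emb y, []) :: bl L := rfl
    rw [e]
    simp only [tw]
    rw [wd_cons, W_append, W_cons, ih]
    simp only [csum, List.length_cons]
    have h1 : hd (emb z0) (bl L) = emb (L.headD z0) := by
      cases L <;> rfl
    have h2 : W (fun _ => (1 : ℝ)) ((lam2 x col (inv' (emb y)))⁻¹ * FreeGroup.mk [] *
        lam2 x col (hd (emb z0) (bl L))).toWord = jj x col y (L.headD z0) := by
      rw [h1]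
      unfold jj
      rw [emb_inv]
      change W _ ((lam2 x col (inv' (emb y)))⁻¹ * 1 * _).toWord = _
      rw [mul_one]
    rw [h2]
    push_cast
    ring

theorem Rep.iota {g : FreeGroup (Fin N)} {y : Lt N} {L : List (Lt N)} (h : Rep g (y :: L)) :
    Rep (iota2 x col g) (wd (tw (lam2 x col) (emb y) (bl (y :: L)))) := by
  have h1 := h.embed
  rw [← wd_bl] at h1
  have e : bl (y :: L) = (emb y, []) :: bl L := rfl
  rw [e] at h1 ⊢
  exact Rep.twist YY (lam2 x col) (lam2_ZG x col) h1 (bl_ok (y :: L))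

/-- The second point. -/
noncomputable def T2 : FTree N :=
  (lenOf (w := fun _ => (1 : ℝ)) (fun _ => zero_le_one) (iota2 x col)).tree

theorem T2_len {g : FreeGroup (Fin N)} {y : Lt N} {L : List (Lt N)} (h : Rep g (y :: L)) :
    (T2 x col).len g = (y :: L).length + csum (jj x col) y (y :: L) := by
  unfold T2
  rw [lenOf_len _ _ (h.iota x col), W_tw]

noncomputable def kk (y z : Lt N) : ℝ := (if inv' y = x then 1 else 0) + if z = x then 1 else 0

theorem W_w1 (L : List (Lt N)) : W (w1 x) L = L.length + (L.map fun y =>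
    (if inv' y = x then (1 : ℝ) else 0)).sum + (L.map fun y => if y = x then (1 : ℝ) else 0).sum := by
  induction L with
  | nil => simp [W]
  | cons y L ih =>
    rw [W_cons, ih]
    simp only [List.length_cons, List.map_cons, List.sum_cons, w1]
    have : (if y.1 = x.1 then (2 : ℝ) else 1) = 1 + (if inv' y = x then (1 : ℝ) else 0) +
        (if y = x then (1 : ℝ) else 0) := by
      obtain ⟨i, s⟩ := y
      obtain ⟨j, t⟩ := x
      simp only [inv', Prod.mk.injEq]
      by_cases hij : i = j
      · subst hij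
        cases s <;> cases t <;> norm_num
      · simp [hij]
    rw [this]
    push_cast
    ring

theorem T1_len {g : FreeGroup (Fin N)} {y : Lt N} {L : List (Lt N)} (h : Rep g (y :: L)) :
    (T1 x).len g = (y :: L).length + csum (kk x) y (y :: L) := by
  unfold T1
  rw [lenOf_len (w1_nonneg x) (MonoidHom.id _) (by exact h), W_w1]
  have e1 : csum (kk x) y (y :: L) = csum (fun a _ => if inv' a = x then (1 : ℝ) else 0) y (y :: L) +
      csum (fun _ z => if z = x then (1 : ℝ) else 0) y (y :: L) := csum_add _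
  have e2 := csum_shift (fun z => if z = x then (1 : ℝ) else 0) y (y :: L)
  have e3 := csum_fst (fun a => if inv' a = x then (1 : ℝ) else 0) y (y :: L)
  rw [e1, e3]
  rw [List.headD_cons] at e2
  linarith

theorem e01 : (e0 : Fin (N + 2)) ≠ e1 := by
  unfold e0 e1
  intro h
  have := Fin.natAdd_injective 2 N h
  simp at this

theorem W_one (l : List (Lt (N + 2))) : W (fun _ => (1 : ℝ)) l = l.length := by
  unfold W
  simp

theorem jj_eq {y z : Lt N} (hc : Compat x col y z) (hr : z ≠ inv' y) : jj x col y z = kk x y z := by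
  unfold jj kk
  rw [lam2_emb, lam2_emb, W_one]
  by_cases h1 : inv' y = x
  · by_cases h2 : z = x
    · exact absurd (h2.trans h1.symm) hr
    · rw [if_pos h1, if_neg h2, if_pos h1, if_neg h2, inv_one, one_mul]
      split_ifs <;> simp
  · by_cases h2 : z = x
    · rw [if_neg h1, if_pos h2, if_neg h1, if_pos h2, mul_one]
      split_ifs <;> simp [FreeGroup.toWord_inv, FreeGroup.invRev]
    · rw [if_neg h1, if_neg h2, if_neg h1, if_neg h2, hc h1 h2, inv_mul_cancel]
      simp

theorem jj_ge (y z : Lt N) (hr : z ≠ inv' y) : kk x y z ≤ jj x col y z := by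
  by_cases hc : Compat x col y z
  · rw [jj_eq x col hc hr]
  · unfold Compat at hc
    push Not at hc
    obtain ⟨h1, h2, h3⟩ := hc
    unfold jj kk
    rw [if_neg h1, if_neg h2, W_one]
    simp

theorem jj_two {y z : Lt N} (h1 : inv' y ≠ x) (h2 : z ≠ x) (h3 : col (inv' y) ≠ col z) :
    0 < jj x col y z := by
  unfold jj
  rw [lam2_emb, lam2_emb, W_one, if_neg h1, if_neg h2]
  have : ((if col (inv' y) = true then (FreeGroup.of e0 : FreeGroup (Fin (N + 2)))
      else FreeGroup.of e1)⁻¹ * (if col z = true then FreeGroup.of e0 else FreeGroup.of e1)) ≠ 1 := by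
    rw [Ne, inv_mul_eq_one]
    cases hc1 : col (inv' y) <;> cases hc2 : col z <;> rw [hc1, hc2] at h3 <;> simp at h3 ⊢
    · exact fun h => e01 (FreeGroup.of_injective h).symm
    · exact fun h => e01 (FreeGroup.of_injective h)
  have h4 : 0 < (((if col (inv' y) = true then (FreeGroup.of e0 : FreeGroup (Fin (N + 2)))
      else FreeGroup.of e1)⁻¹ * (if col z = true then FreeGroup.of e0 else
        FreeGroup.of e1))).toWord.length := by
    rw [List.length_pos_iff]
    intro h
    exact this (FreeGroup.toWord_eq_nil_iff.mp h)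
  exact_mod_cast h4

theorem reduced_pairs {L : List (Lt N)} (h : FreeGroup.IsReduced (L ++ L)) :
    (∀ P y z S, L = P ++ y :: z :: S → z ≠ inv' y) ∧
      ∀ y z, L.getLast? = some y → L.head? = some z → z ≠ inv' y := by
  constructor
  · intro P y z S hL
    have h1 := (cyc_iff.mp h).isReduced
    unfold FreeGroup.IsReduced at h1
    rw [hL, List.isChain_append] at h1
    have h2 := (List.isChain_cons_cons.mp h1.2.1).1
    rwa [reduced_iff] at h2
  · intro y z hy hz
    have := (cyc_iff.mp h).2 y hy z hz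
    rwa [reduced_iff] at this

theorem len_agree {g : FreeGroup (Fin N)} (hg : g ≠ 1)
    (hc : ∀ (z : Lt N) (R : List (Lt N)) (y : Lt N), Rep g (z :: R) →
        (z :: R).getLast? = some y → Compat x col y z) :
    (T1 x).len g = (T2 x col).len g := by
  obtain ⟨L, hL⟩ := exists_rep hg
  obtain ⟨z0, R, rfl⟩ := List.exists_cons_of_ne_nil hL.1
  rw [T1_len x hL, T2_len x col hL]
  congr 1
  obtain ⟨r1, r2⟩ := reduced_pairs hL.2.1
  apply csum_congr
  · intro P y z S h
    refine (jj_eq x col ?_ (r1 P y z S h)).symm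
    have h1 : Rep g ((P ++ [y]) ++ (z :: S)) := by
      rw [h] at hL
      simpa using hL
    exact hc z (S ++ (P ++ [y])) y (by simpa using h1.rot) (by
      rw [← List.cons_append, ← List.append_assoc, List.getLast?_append]
      rfl)
  · intro y hy
    exact (jj_eq x col (hc z0 R y hL hy) (r2 y z0 hy rfl)).symm

theorem len_differ {p q : Lt N} (hp : p ≠ x) (hq : q ≠ x) (hp' : col p = true)
    (hq' : col q = false) : ∃ g, (T1 x).len g ≠ (T2 x col).len g := by
  have hpq : p ≠ q := by
    rintro rfl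
    rw [hp'] at hq'
    exact Bool.noConfusion hq'
  have hrep : Rep (FreeGroup.mk [inv' p, q]) [inv' p, q] := by
    refine ⟨by simp, ?_, IsConj.refl _⟩
    unfold FreeGroup.IsReduced
    simp only [List.cons_append, List.nil_append, List.isChain_cons_cons, List.isChain_singleton,
      and_true]
    refine ⟨?_, ?_, ?_⟩
    · rw [reduced_iff, inv'_inv']; exact hpq.symm
    · rw [reduced_iff]
      intro h
      apply hpq
      have := congrArg inv' h
      rwa [inv'_inv', inv'_inv'] at this
    · rw [reduced_iff, inv'_inv']; exact hpq.symm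
  refine ⟨FreeGroup.mk [inv' p, q], ne_of_lt ?_⟩
  · rw [T1_len x hrep, T2_len x col hrep]
    simp only [csum, List.headD_cons, List.headD_nil]
    have h1 := jj_two x col (y := inv' p) (z := q) (by rw [inv'_inv']; exact hp) hq (by
      rw [inv'_inv', hp', hq']; simp)
    have h2 := jj_ge x col q (inv' p) (by
      intro h
      apply hpq
      have := congrArg inv' h
      rwa [inv'_inv', inv'_inv'] at this)
    have h3 : kk x (inv' p) q = 0 := by
      unfold kk
      rw [inv'_inv', if_neg hp, if_neg hq, add_zero]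
    rw [h3]
    linarith

theorem T1_inCV (hN : 0 < N) : (T1 x).InCV := by
  apply lenOf_inCV (w1_nonneg x) (w1_ge x) (MonoidHom.id _) (fun g hg => hg)
    (h := FreeGroup.of ⟨0, hN⟩)
  · rw [MonoidHom.id_apply, FreeGroup.toWord_of]
    unfold FreeGroup.IsReduced
    simp
  · exact FreeGroup.of_ne_one _

theorem iota_lt : (iota2 x col (lt x)).toWord = [emb x] ++
    ((lam2 x col (emb (inv' x)))⁻¹).toWord := by
  have e1 : iota2 x col (lt x) = lt (emb x) * (lam2 x col (emb (inv' x)))⁻¹ := by
    unfold iota2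
    rw [MonoidHom.comp_apply]
    have : embHom (lt x) = lt (emb x) := embHom_mk [x]
    rw [this, th_Y _ _ _ (YY_emb x), lam2_emb, if_pos rfl, one_mul, emb_inv]
  rw [e1]
  apply toWord_lt_mul
  intro h
  have h1 := List.mem_of_mem_head? h
  exact (lam2_ZG x col (emb (inv' x)) (YY_emb _)).inv _ h1 (YY_emb x)

theorem T2_inCV : (T2 x col).InCV := by
  have hinv : inv' x ≠ x := by
    intro h
    have := congrArg Prod.snd h
    simp [inv'] at this
  apply lenOf_inCV (fun _ => zero_le_one) (fun _ => le_rfl) (iota2 x col) ?_ (h := lt x)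
  · rw [iota_lt, lam2_emb, if_neg hinv, cyc_iff]
    split_ifs
    · rw [FreeGroup.toWord_inv, FreeGroup.toWord_of]
      unfold FreeGroup.IsCyclicallyReduced FreeGroup.IsReduced
      have h1 : (emb x).1 ≠ e0 := by
        intro h
        have := congrArg Fin.val h
        have h2 := x.1.2
        simp [emb, e0] at this
        omega
      simp [FreeGroup.invRev, h1, Ne.symm h1]
    · rw [FreeGroup.toWord_inv, FreeGroup.toWord_of]
      unfold FreeGroup.IsCyclicallyReduced FreeGroup.IsReduced
      have h1 : (emb x).1 ≠ e1 := by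
        intro h
        have := congrArg Fin.val h
        have h2 := x.1.2
        simp [emb, e1] at this
        omega
      simp [FreeGroup.invRev, h1, Ne.symm h1]
  · intro h
    have := iota_lt x col
    rw [h] at this
    simp at this
  · intro g hg
    obtain ⟨L, hL⟩ := exists_rep hg
    obtain ⟨z0, R, rfl⟩ := List.exists_cons_of_ne_nil hL.1
    exact (hL.iota x col).ne_one

end Pair

theorem Primitive.exists_aut {g : FreeGroup (Fin N)} (h : Primitive g) (i0 : Fin N) :
    ∃ φ : FreeGroup (Fin N) ≃* FreeGroup (Fin N), φ (FreeGroup.of i0) = g := by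
  obtain ⟨b, i, hi⟩ := h
  have h1 : b.repr.symm (FreeGroup.of i) = g := by
    rw [← hi]
    rfl
  refine ⟨(FreeGroup.freeGroupCongr (Equiv.swap i0 i)).trans b.repr.symm, ?_⟩
  rw [MulEquiv.trans_apply]
  have : (FreeGroup.freeGroupCongr (Equiv.swap i0 i)) (FreeGroup.of i0) = FreeGroup.of i := by
    simp
  rw [this, h1]

theorem primitive_aut (φ : FreeGroup (Fin N) ≃* FreeGroup (Fin N)) (i0 : Fin N) :
    Primitive (φ (FreeGroup.of i0)) := by
  refine ⟨⟨φ.symm⟩, i0, ?_⟩
  rfl

theorem Primitive.map {g : FreeGroup (Fin N)} (h : Primitive g)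
    (φ : FreeGroup (Fin N) ≃* FreeGroup (Fin N)) : Primitive (φ g) := by
  obtain ⟨b, i, rfl⟩ := h
  have := primitive_aut (b.repr.symm.trans φ) i
  exact this

theorem Primitive.ne_one {g : FreeGroup (Fin N)} (h : Primitive g) : g ≠ 1 := by
  obtain ⟨b, i, rfl⟩ := h
  intro h1
  have h2 : b.repr (b i) = FreeGroup.of i := by simp
  rw [h1, map_one] at h2
  exact FreeGroup.of_ne_one i h2.symm

/-- There is a primitive element such that the primitive elements which take all of its turns are
not spectrally rigid. -/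
theorem exists_nonrigid (hN : 2 ≤ N) : ∃ w0 : FreeGroup (Fin N), Primitive w0 ∧
    ∀ S : Set (FreeGroup (Fin N)), (∀ s ∈ S, Primitive s ∧ Tn w0 ⊆ Tn s) →
      ¬ SpectrallyRigid S := by
  classical
  have hbdd : ∀ g : FreeGroup (Fin N), (Tn g).ncard ≤ Fintype.card (Lt N × Lt N) := by
    intro g
    have := Set.ncard_le_ncard (Set.subset_univ (Tn g)) (Set.toFinite _)
    rwa [Set.ncard_univ, Nat.card_eq_fintype_card] at this
  have hmax : ∃ w0 : FreeGroup (Fin N), Primitive w0 ∧ ∀ g : FreeGroup (Fin N), Primitive g →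
      (Tn g).ncard ≤ (Tn w0).ncard := by
    let s : Set ℕ := {n | ∃ g : FreeGroup (Fin N), Primitive g ∧ (Tn g).ncard = n}
    have hs1 : s.Nonempty := ⟨_, _, primitive_aut (MulEquiv.refl _) ⟨0, by omega⟩, rfl⟩
    have hs2 : BddAbove s := ⟨_, by rintro n ⟨g, _, rfl⟩; exact hbdd g⟩
    obtain ⟨w0, h1, h2⟩ := Nat.sSup_mem hs1 hs2
    refine ⟨w0, h1, fun g hg => ?_⟩
    rw [h2]
    exact le_csSup hs2 ⟨g, hg, rfl⟩
  obtain ⟨w0, hw0, hmax⟩ := hmax
  refine ⟨w0, hw0, fun S hS hrig => ?_⟩
  obtain ⟨φ, hφ⟩ := hw0.exists_aut ⟨0, by omega⟩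
  obtain ⟨x, col, ⟨p, hp, hp'⟩, ⟨q, hq, hq'⟩, hc⟩ := cut hN φ _ hφ
  have hagree : ∀ s ∈ S, (T1 x).len s = (T2 x col).len s := by
    intro s hs
    obtain ⟨h1, h2⟩ := hS s hs
    have h3 : Tn w0 = Tn s := Set.eq_of_subset_of_ncard_le h2 (hmax s h1) (Set.toFinite _)
    apply len_agree x col h1.ne_one
    intro z R y hrep hy
    have h4 := hrep.turn hy
    rw [← h3] at h4
    obtain ⟨z', R', y', h5, h6, h7⟩ := rep_of_turn hw0.ne_one h4
    have h8 := hc z' R' y' h5 h6
    rcases h7 with h7 | h7
    · simp only [Prod.mk.injEq] at h7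
      intro a1 a2
      rw [h7.1, h7.2] at *
      exact h8 a1 a2
    · simp only [Prod.mk.injEq] at h7
      intro a1 a2
      rw [h7.1, h7.2] at *
      exact (h8 a2 a1).symm
  obtain ⟨g, hg⟩ := len_differ x col hp hq hp' hq'
  exact hg (congrFun (hrig _ _ (T1_inCV x (by omega)) (T2_inCV x col) hagree).len_eq g)

end Pool.Agent.H67R4.SR
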