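import Mathlib
import Pool.Agent.H67R4.SR.Axis

set_option autoImplicit false

/-!
# Twists along a letter
-/

namespace Pool.Agent.H67R4.SR

open Pool.Agent.H67R3.FSR

variable {N : ℕ}

section Equiv

variable (Y : Fin N → Prop) [DecidablePred Y] (lam : Lt N → FreeGroup (Fin N))

theorem th_fix {g : FreeGroup (Fin N)} (hg : ZG Y g) : th Y lam g = g := by
  have := th_Zw Y lam g.toWord hg
  rwa [FreeGroup.mk_toWord] at this

theorem th_comp (hlam : ∀ y, Y y.1 → ZG Y (lam y)) :
    (th Y lam).comp (th Y fun y => (lam y)⁻¹) = MonoidHom.id _ := by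
  apply FreeGroup.ext_hom
  intro i
  rw [MonoidHom.comp_apply, MonoidHom.id_apply, ← lt_true]
  by_cases hi : Y i
  · rw [th_Y _ _ _ hi, map_mul, map_mul, inv_inv, th_Y _ _ _ hi,
      th_fix Y lam (hlam (i, true) hi).inv, th_fix Y lam (hlam (inv' (i, true)) hi)]
    group
  · rw [th_Z _ _ _ hi, th_Z _ _ _ hi]

/-- A twist as an automorphism. -/
def thE (hlam : ∀ y, Y y.1 → ZG Y (lam y)) : FreeGroup (Fin N) ≃* FreeGroup (Fin N) :=
  MonoidHom.toMulEquiv (th Y lam) (th Y fun y => (lam y)⁻¹)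
    (by
      have := th_comp Y (fun y => (lam y)⁻¹) (fun y hy => (hlam y hy).inv)
      simpa only [inv_inv] using this)
    (th_comp Y lam hlam)

theorem thE_apply (hlam : ∀ y, Y y.1 → ZG Y (lam y)) (g : FreeGroup (Fin N)) :
    thE Y lam hlam g = th Y lam g := rfl

theorem thE_symm (hlam : ∀ y, Y y.1 → ZG Y (lam y)) (g : FreeGroup (Fin N)) :
    (thE Y lam hlam).symm g = th Y (fun y => (lam y)⁻¹) g := rfl

end Equiv

/-- Numbering of the letters. -/
def kap (y : Lt N) : ℕ := 2 * y.1 + if y.2 then 1 else 0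

theorem kap_inj {y z : Lt N} (h : kap y = kap z) : y = z := by
  obtain ⟨i, s⟩ := y
  obtain ⟨j, t⟩ := z
  unfold kap at h
  simp only at h
  have h1 : i.1 = j.1 ∧ s = t := by
    cases s <;> cases t <;> simp at h ⊢ <;> omega
  apply Prod.ext
  · exact Fin.ext h1.1
  · exact h1.2

/-- The twist exponents. -/
def lamT (i0 : Fin N) (M : ℕ) (y : Lt N) : FreeGroup (Fin N) := FreeGroup.of i0 ^ (M * kap y)

theorem ZG_of (i0 : Fin N) : ZG (fun i => i ≠ i0) (FreeGroup.of i0) := by
  intro z hz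
  rw [FreeGroup.toWord_of, List.mem_singleton] at hz
  subst hz
  simp

theorem ZG_one (Y : Fin N → Prop) : ZG Y 1 := by
  intro z hz
  simp at hz

theorem ZG.pow {Y : Fin N → Prop} {g : FreeGroup (Fin N)} (hg : ZG Y g) (n : ℕ) :
    ZG Y (g ^ n) := by
  induction n with
  | zero => rw [pow_zero]; exact ZG_one Y
  | succ n ih => rw [pow_succ]; exact ih.mul hg

theorem lamT_ZG (i0 : Fin N) (M : ℕ) (y : Lt N) (_ : y.1 ≠ i0) :
    ZG (fun i => i ≠ i0) (lamT i0 M y) := (ZG_of i0).pow _

/-- The twist along the letter `i0`. -/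
def Dt (i0 : Fin N) (M : ℕ) : FreeGroup (Fin N) ≃* FreeGroup (Fin N) :=
  thE (fun i => i ≠ i0) (lamT i0 M) (lamT_ZG i0 M)

theorem red_replicate (n : ℕ) (x : Lt N) : FreeGroup.IsReduced (List.replicate n x) := by
  induction n with
  | zero => unfold FreeGroup.IsReduced; simp
  | succ n ih =>
    unfold FreeGroup.IsReduced at ih ⊢
    rw [List.replicate_succ, List.isChain_cons]
    refine ⟨?_, ih⟩
    intro y hy _
    have := List.eq_of_mem_replicate (List.mem_of_mem_head? hy)
    rw [this]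

theorem toWord_zpow (i0 : Fin N) (e : ℤ) : (FreeGroup.of i0 ^ e).toWord =
    List.replicate e.natAbs (i0, decide (0 ≤ e)) := by
  have h1 : ∀ n : ℕ, ∀ s : Bool, (lt (i0, s) ^ n).toWord = List.replicate n (i0, s) := by
    intro n s
    rw [lt_pow_mk]
    exact toWord_mk_red (red_replicate n _)
  obtain ⟨n, rfl | rfl⟩ := e.eq_nat_or_neg
  · rw [zpow_natCast, ← lt_true, h1]
    simp
  · rcases Nat.eq_zero_or_pos n with h0 | h0
    · subst h0
      simp
    · have h3 : decide ((0 : ℤ) ≤ -n) = false := by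
        rw [decide_eq_false_iff_not]
        omega
      rw [h3, zpow_neg, zpow_natCast, ← inv_pow, ← lt_false, h1]
      simp

theorem mk_zpow (i0 : Fin N) (w : List (Lt N)) (hw : ∀ z ∈ w, ¬ (z.1 ≠ i0)) :
    ∃ e : ℤ, FreeGroup.mk w = FreeGroup.of i0 ^ e := by
  induction w with
  | nil => exact ⟨0, by rw [zpow_zero]; rfl⟩
  | cons y w ih =>
    obtain ⟨e, he⟩ := ih fun z hz => hw z (List.mem_cons_of_mem _ hz)
    have hy := hw y (by simp)
    push Not at hy
    obtain ⟨i, s⟩ := y
    simp only at hy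
    subst hy
    cases s
    · refine ⟨-1 + e, ?_⟩
      rw [mk_cons', he, lt_false, zpow_add, zpow_neg_one]
    · refine ⟨1 + e, ?_⟩
      rw [mk_cons', he, lt_true, zpow_add, zpow_one]

theorem red_zpow (i0 : Fin N) {w : List (Lt N)} (hr : FreeGroup.IsReduced w)
    (hw : ∀ z ∈ w, ¬ (z.1 ≠ i0)) :
    ∃ e : ℤ, FreeGroup.mk w = FreeGroup.of i0 ^ e ∧
      w = List.replicate e.natAbs (i0, decide (0 ≤ e)) := by
  obtain ⟨e, he⟩ := mk_zpow i0 w hw
  refine ⟨e, he, ?_⟩
  rw [← toWord_zpow, ← he, toWord_mk_red hr]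

theorem lamT_zpow (i0 : Fin N) (M : ℕ) (y : Lt N) :
    lamT i0 M y = FreeGroup.of i0 ^ ((M : ℤ) * kap y) := by
  unfold lamT
  rw [← zpow_natCast]
  push_cast
  rfl

theorem gap {M : ℕ} {y z : Lt N} (h : z ≠ y) : (M : ℤ) ≤ |(M : ℤ) * kap z - M * kap y| := by
  have h1 : kap z ≠ kap y := fun h2 => h (kap_inj h2)
  rw [← mul_sub, abs_mul, Nat.abs_cast]
  have h2 : (1 : ℤ) ≤ |(kap z : ℤ) - kap y| :=
    Int.one_le_abs (sub_ne_zero.mpr (by exact_mod_cast h1))
  nlinarith [Int.natCast_nonneg M]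

/-- A short block between two different directions gives rise to a large power of `i0`. -/
theorem twist_block {i0 : Fin N} {M m : ℕ} (hM : 2 * m + 1 ≤ M) {z : FreeGroup (Fin N)}
    {p : Blk N} {bs : List (Blk N)} (h : Rep z (wd (p :: bs)))
    (ok : ∀ q ∈ p :: bs, Ok (fun i => i ≠ i0) q) (hne : hd p.1 bs ≠ inv' p.1)
    (hlen : p.2.length ≤ 1) :
    ∃ (s : Bool), ∃ q ∈ Ends (Dt i0 M z), q ∈ Near (i0, s) m := by
  have hred : FreeGroup.IsReduced p.2 := by
    have h1 := (cyc_iff.mp h.2.1).isReduced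
    rw [wd_reduced_iff (Y := fun i => i ≠ i0) _ ok] at h1
    exact h1.2 p (by simp)
  obtain ⟨e, he1, he2⟩ := red_zpow i0 hred (ok p (by simp)).2
  have he3 : e.natAbs ≤ 1 := by
    rw [he2, List.length_replicate] at hlen
    exact hlen
  have h3 := Rep.twist (fun i => i ≠ i0) (lamT i0 M) (lamT_ZG i0 M) h ok
  simp only [tw] at h3
  rw [wd_cons] at h3
  have h4 : (lamT i0 M (inv' p.1))⁻¹ * FreeGroup.mk p.2 * lamT i0 M (hd p.1 bs) =
      FreeGroup.of i0 ^ (e + ((M : ℤ) * kap (hd p.1 bs) - M * kap (inv' p.1))) := by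
    rw [he1, lamT_zpow, lamT_zpow, ← zpow_neg, ← zpow_add, ← zpow_add]
    congr 1
    ring
  rw [h4, toWord_zpow] at h3
  have h5 := gap (M := M) hne
  set e2 : ℤ := e + ((M : ℤ) * kap (hd p.1 bs) - M * kap (inv' p.1)) with he'
  have h6 : 2 * m ≤ e2.natAbs := by
    have h7 : ((M : ℤ) * kap (hd p.1 bs) - M * kap (inv' p.1)) = e2 - e := by rw [he']; ring
    rw [h7] at h5
    have h8 : |e2 - e| ≤ |e2| + |e| := abs_sub _ _
    rw [Int.abs_eq_natAbs e2, Int.abs_eq_natAbs e] at h8
    omega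
  refine ⟨decide (0 ≤ e2), ?_⟩
  set t : Lt N := (i0, decide (0 ≤ e2)) with ht
  have h8 : List.replicate e2.natAbs t = List.replicate m t ++ (List.replicate m t ++
      List.replicate (e2.natAbs - 2 * m) t) := by
    rw [List.replicate_append_replicate, List.replicate_append_replicate]
    congr 1
    omega
  simp only at h3
  rw [h8] at h3
  set X := wd (tw (lamT i0 M) p.1 bs) with hX
  have h9 : Rep (th (fun i => i ≠ i0) (lamT i0 M) z) ((p.1 :: List.replicate m t) ++
      (List.replicate m t ++ List.replicate (e2.natAbs - 2 * m) t ++ X)) := by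
    have e5 : (p.1 :: List.replicate m t) ++
      (List.replicate m t ++ List.replicate (e2.natAbs - 2 * m) t ++ X) =
        p.1 :: (List.replicate m t ++ (List.replicate m t ++
          List.replicate (e2.natAbs - 2 * m) t)) ++ X := by
      simp only [List.cons_append, List.append_assoc]
    rw [e5]
    exact h3
  have h10 := h9.rot
  have h11 : Rep (Dt i0 M z) (List.replicate m t ++
      (List.replicate (e2.natAbs - 2 * m) t ++ X ++ [p.1]) ++ List.replicate m t) := by
    have e6 : List.replicate m t ++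
      (List.replicate (e2.natAbs - 2 * m) t ++ X ++ [p.1]) ++ List.replicate m t =
        (List.replicate m t ++ List.replicate (e2.natAbs - 2 * m) t ++ X) ++
          (p.1 :: List.replicate m t) := by
      simp only [List.cons_append, List.append_assoc, List.nil_append]
    rw [e6]
    exact h10
  exact exists_near h11

/-- The next letter differs from the inverse if the block is empty. -/
theorem first_rl {Y : Fin N → Prop} {z : FreeGroup (Fin N)}
    {p : Blk N} {bs : List (Blk N)} (h : Rep z (wd (p :: bs)))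
    (ok : ∀ q ∈ p :: bs, Ok Y q) (hp : p.2 = []) : hd p.1 bs ≠ inv' p.1 := by
  have h1 := h.2.1
  rw [← wd_append, wd_reduced_iff (Y := Y)] at h1
  · have h2 := h1.1
    cases bs with
    | nil =>
      simp only [List.cons_append, List.nil_append] at h2
      rw [List.isChain_cons_cons] at h2
      exact h2.1 hp
    | cons b bs =>
      rw [List.cons_append, List.cons_append, List.isChain_cons_cons] at h2
      exact h2.1 hp
  · intro q hq
    rcases List.mem_append.mp hq with h | h
    · exact ok q h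
    · exact ok q h

/-- Two consecutive letters different from `i0` give rise to a power of `i0`. -/
theorem twist_pair {i0 : Fin N} {M m : ℕ} (hM : 2 * m + 1 ≤ M) {z : FreeGroup (Fin N)}
    {y1 y2 : Lt N} {R : List (Lt N)} (h : Rep z (y1 :: y2 :: R)) (h1 : y1.1 ≠ i0)
    (h2 : y2.1 ≠ i0) : ∃ (s : Bool), ∃ q ∈ Ends (Dt i0 M z), q ∈ Near (i0, s) m := by
  obtain ⟨w, bs, e1, ok, rd, ch⟩ := h.blocks (fun i => i ≠ i0) h1
  have hw : w = [] := by
    cases w with
    | nil => rfl
    | cons b w =>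
      exfalso
      rw [wd_cons] at e1
      simp only [List.cons_append, List.cons.injEq, true_and] at e1
      have := (ok (y1, b :: w) (by simp)).2 b (by simp)
      rw [e1.1] at this
      exact this h2
  subst hw
  rw [← e1] at h
  exact twist_block hM h ok (first_rl h ok rfl) (by simp)

/-- The block structure of cyclic words to which the twists along `i0` can be applied. -/
def GG (i0 : Fin N) (v : FreeGroup (Fin N)) : Prop :=
  ∀ (p : Blk N) (bs : List (Blk N)), (∀ q ∈ p :: bs, Ok (fun i => i ≠ i0) q) →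
    Rep v (wd (p :: bs)) → p.2.length ≤ 1 ∧
      (p.2 = [] ∨ (bs.headD p).2 = [] ∨ ((bs.drop 1).headD p).2 = [])

/-- The block vanishes after the inverse twist. -/
def Emp (i0 : Fin N) (k : ℕ) (p : Blk N) (y : Lt N) : Prop :=
  ((lamT i0 k (inv' p.1))⁻¹⁻¹ * FreeGroup.mk p.2 * (lamT i0 k y)⁻¹).toWord = []

theorem rep_inv {i0 : Fin N} {k : ℕ} {v : FreeGroup (Fin N)} {p : Blk N} {bs : List (Blk N)}
    (ok : ∀ q ∈ p :: bs, Ok (fun i => i ≠ i0) q) (h : Rep (Dt i0 k v) (wd (p :: bs))) :
    Rep v (wd (tw (fun y => (lamT i0 k y)⁻¹) p.1 (p :: bs))) ∧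
      ∀ q ∈ tw (fun y => (lamT i0 k y)⁻¹) p.1 (p :: bs), Ok (fun i => i ≠ i0) q := by
  constructor
  · have h1 := Rep.twist (fun i => i ≠ i0) (fun y => (lamT i0 k y)⁻¹)
      (fun y hy => (lamT_ZG i0 k y hy).inv) h ok
    have h2 : th (fun i => i ≠ i0) (fun y => (lamT i0 k y)⁻¹) (Dt i0 k v) = v :=
      (Dt i0 k).symm_apply_apply v
    rwa [h2] at h1
  · exact tw_ok (fun i => i ≠ i0) (fun y => (lamT i0 k y)⁻¹)
      (fun y hy => (lamT_ZG i0 k y hy).inv) (ok p (by simp)).1 _ ok

theorem first_block {i0 : Fin N} {k : ℕ} {v : FreeGroup (Fin N)} (hG : GG i0 v) {p : Blk N}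
    {bs : List (Blk N)} (ok : ∀ q ∈ p :: bs, Ok (fun i => i ≠ i0) q)
    (h : Rep (Dt i0 k v) (wd (p :: bs))) :
    ∃ (s : Bool) (n : ℕ), p.2 = List.replicate n (i0, s) ∧ (n ≤ 1 ∨ k ≤ n + 1) ∧
      (Emp i0 k p (hd p.1 bs) → k ≤ n) := by
  obtain ⟨h1, h2⟩ := rep_inv ok h
  have h3 := hG _ _ h2 h1
  have hred : FreeGroup.IsReduced p.2 := by
    have h1 := (cyc_iff.mp h.2.1).isReduced
    rw [wd_reduced_iff (Y := fun i => i ≠ i0) _ ok] at h1
    exact h1.2 p (by simp)
  obtain ⟨e, he1, he2⟩ := red_zpow i0 hred (ok p (by simp)).2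
  have h4 : (lamT i0 k (inv' p.1))⁻¹⁻¹ * FreeGroup.mk p.2 * (lamT i0 k (hd p.1 bs))⁻¹ =
      FreeGroup.of i0 ^ (e - ((k : ℤ) * kap (hd p.1 bs) - k * kap (inv' p.1))) := by
    rw [he1, lamT_zpow, lamT_zpow, inv_inv, ← zpow_neg, ← zpow_add, ← zpow_add]
    congr 1
    ring
  refine ⟨_, _, he2, ?_, ?_⟩
  · have h5 := h3.1
    simp only at h5
    rw [h4, toWord_zpow, List.length_replicate] at h5
    by_cases hy : hd p.1 bs = inv' p.1
    · left
      rw [hy] at h5
      simpa using h5
    · right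
      have h6 := gap (M := k) hy
      set D : ℤ := (k : ℤ) * kap (hd p.1 bs) - k * kap (inv' p.1) with hD
      have h7 : D = e - (e - D) := by ring
      have h8 : |e - (e - D)| ≤ |e| + |e - D| := abs_sub _ _
      rw [← h7, Int.abs_eq_natAbs e, Int.abs_eq_natAbs (e - D)] at h8
      omega
  · intro hE
    have hy : hd p.1 bs ≠ inv' p.1 := by
      have h5 := first_rl h1 h2 hE
      simp only at h5
      have h6 : hd p.1 (tw (fun y => (lamT i0 k y)⁻¹) p.1 bs) = hd p.1 bs := by
        cases bs <;> rfl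
      rwa [h6] at h5
    unfold Emp at hE
    rw [h4, toWord_zpow, List.replicate_eq_nil_iff] at hE
    have h6 := gap (M := k) hy
    have h7 : e = (k : ℤ) * kap (hd p.1 bs) - k * kap (inv' p.1) := by
      have := Int.natAbs_eq_zero.mp hE
      linarith
    rw [← h7, Int.abs_eq_natAbs] at h6
    omega

theorem Rep.rotB {g : FreeGroup (Fin N)} {as bs : List (Blk N)} (h : Rep g (wd (as ++ bs))) :
    Rep g (wd (bs ++ as)) := by
  rw [wd_append] at h ⊢
  exact h.rot

theorem hd_rot (q p : Blk N) (cs as : List (Blk N)) :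
    hd q.1 (cs ++ p :: as) = hd p.1 cs := by
  cases cs <;> rfl

/-- Within two blocks there is a large power of `i0`. -/
theorem big_block {i0 : Fin N} {k : ℕ} {v : FreeGroup (Fin N)} (hG : GG i0 v) {p : Blk N}
    {bs : List (Blk N)} (ok : ∀ q ∈ p :: bs, Ok (fun i => i ≠ i0) q)
    (h : Rep (Dt i0 k v) (wd (p :: bs))) :
    ∃ (as : List (Blk N)) (b : Blk N) (cs : List (Blk N)) (s : Bool) (n : ℕ),
      p :: bs = as ++ b :: cs ∧ b.2 = List.replicate n (i0, s) ∧ k ≤ n + 1 ∧
        (wd as).length ≤ 4 := by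
  obtain ⟨s1, n1, a1, a2, a3⟩ := first_block hG ok h
  by_cases hk1 : k ≤ n1 + 1
  · exact ⟨[], p, bs, s1, n1, rfl, a1, hk1, by simp [wd_nil]⟩
  have hn1 : n1 ≤ 1 := by
    rcases a2 with a2 | a2
    · exact a2
    · exact absurd a2 hk1
  have he1 : ¬ Emp i0 k p (hd p.1 bs) := fun hE => hk1 (by have := a3 hE; omega)
  obtain ⟨h1, h2⟩ := rep_inv ok h
  have h3 := (hG _ _ h2 h1).2
  cases bs with
  | nil =>
    exfalso
    simp only [tw, List.headD_nil, List.drop_nil] at h3
    rcases h3 with h3 | h3 | h3 <;> exact he1 h3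
  | cons q cs =>
    have ok2 : ∀ r ∈ q :: (cs ++ [p]), Ok (fun i => i ≠ i0) r := by
      intro r hr
      apply ok
      simp only [List.mem_cons, List.mem_append, List.not_mem_nil, or_false] at hr ⊢
      tauto
    have hrep2 : Rep (Dt i0 k v) (wd (q :: (cs ++ [p]))) := by
      have : Rep (Dt i0 k v) (wd ([p] ++ (q :: cs))) := h
      exact this.rotB
    obtain ⟨s2, n2, b1, b2, b3⟩ := first_block hG ok2 hrep2
    rw [hd_rot] at b3
    by_cases hk2 : k ≤ n2 + 1
    · refine ⟨[p], q, cs, s2, n2, rfl, b1, hk2, ?_⟩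
      rw [wd_cons, wd_nil, a1]
      simp
      omega
    have hn2 : n2 ≤ 1 := by
      rcases b2 with b2 | b2
      · exact b2
      · exact absurd b2 hk2
    have he2 : ¬ Emp i0 k q (hd p.1 cs) := fun hE => hk2 (by have := b3 hE; omega)
    cases cs with
    | nil =>
      exfalso
      simp only [tw, List.headD_cons, List.drop_one, List.tail_cons, List.headD_nil] at h3
      rcases h3 with h3 | h3 | h3
      · exact he1 h3
      · exact he2 h3
      · exact he1 h3
    | cons r ds =>
      have ok3 : ∀ t ∈ r :: (ds ++ [p, q]), Ok (fun i => i ≠ i0) t := by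
        intro t ht
        apply ok
        simp only [List.mem_cons, List.mem_append, List.not_mem_nil, or_false] at ht ⊢
        rcases ht with h | h | h | h
        · exact Or.inr (Or.inr (Or.inl h))
        · exact Or.inr (Or.inr (Or.inr h))
        · exact Or.inl h
        · exact Or.inr (Or.inl h)
      have hrep3 : Rep (Dt i0 k v) (wd (r :: (ds ++ [p, q]))) := by
        have : Rep (Dt i0 k v) (wd ([p, q] ++ (r :: ds))) := h
        exact this.rotB
      obtain ⟨s3, n3, c1, c2, c3⟩ := first_block hG ok3 hrep3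
      have e3 : hd r.1 (ds ++ [p, q]) = hd p.1 ds := hd_rot r p ds [q]
      rw [e3] at c3
      simp only [tw, List.headD_cons, List.drop_one, List.tail_cons] at h3
      rcases h3 with h3 | h3 | h3
      · exact absurd h3 he1
      · exact absurd h3 he2
      · have hk3 := c3 h3
        refine ⟨[p, q], r, ds, s3, n3, rfl, c1, by omega, ?_⟩
        rw [wd_cons, wd_cons, wd_nil, a1, b1]
        simp
        omega

/-- Lines which start a power of `t` at the base vertex. -/
def St (t : Lt N) (n : ℕ) : Set (Bd2 N) :=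
  {q | (q.1.1.1 1).1 ≠ t.1 ∧ ∀ j < n, q.1.2.1 (lt t ^ j) = t}

theorem line_forward {L : List (Lt N)} (hL : FreeGroup.IsReduced (L ++ L)) {x : Lt N}
    (hx : L.head? = some x) {q : Bd2 N} (hq : (FreeGroup.mk L : FreeGroup (Fin N)) • q = q)
    (h2 : q.1.2.1 1 = x) {P S : List (Lt N)} {c : Lt N}
    (he : L = P ++ c :: S) : q.1.2.1 (FreeGroup.mk P) = c := by
  by_contra hc
  have hr : FreeGroup.IsReduced (c :: S) := by
    have := (cyc_iff.mp hL).isReduced
    rw [he] at this
    exact (List.isChain_append.mp this).2.1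
  have h3 := follow q.1.2 S c (FreeGroup.mk P) hr hc
  have h4 : (FreeGroup.mk P * FreeGroup.mk (c :: S) : FreeGroup (Fin N)) = FreeGroup.mk L := by
    rw [FreeGroup.mul_mk, he]
  rw [h4] at h3
  have f2 : (FreeGroup.mk L : FreeGroup (Fin N)) • q.1.2 = q.1.2 := by rw [← smul_snd, hq]
  have h5 := fixed_mul f2 1
  rw [mul_one] at h5
  rw [h5, h2] at h3
  have hlast : L.getLast? = some ((c :: S).getLast (by simp)) := by
    rw [he, List.getLast?_append_of_ne_nil _ (by simp), List.getLast?_eq_getLast_of_ne_nil (by simp)]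
  have h6 := (cyc_iff.mp hL).2 _ hlast _ hx
  rw [reduced_iff] at h6
  exact h6 h3

theorem line_start {i0 : Fin N} {k : ℕ} {v : FreeGroup (Fin N)} (hG : GG i0 v) {x : Lt N}
    {l : List (Lt N)} (hx : x.1 ≠ i0) (h : Rep (Dt i0 k v) (x :: l)) {q : Bd2 N}
    (hq : (FreeGroup.mk (x :: l) : FreeGroup (Fin N)) • q = q) (h2 : q.1.2.1 1 = x)
    (h1 : q.1.1.1 1 ≠ x) :
    ∃ u : FreeGroup (Fin N), u.norm ≤ 5 ∧ ∃ s : Bool, u⁻¹ • q ∈ St (i0, s) (k - 1) := by
  obtain ⟨w, bs, e1, ok, rd, ch⟩ := h.blocks (fun i => i ≠ i0) hx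
  have hL := h.2.1
  rw [← e1] at h
  obtain ⟨as, b, cs, s, n, f1, f2, f3, f4⟩ := big_block hG ok h
  have hword : x :: l = (wd as ++ [b.1]) ++ (b.2 ++ wd cs) := by
    rw [← e1, f1, wd_append, wd_cons]
    simp
  refine ⟨FreeGroup.mk (wd as ++ [b.1]), ?_, s, ?_, ?_⟩
  · refine FreeGroup.norm_mk_le.trans ?_
    simp
    omega
  · rw [smul_fst, Bd.smul_apply, inv_inv, mul_one]
    obtain ⟨P, hP⟩ : ∃ P, wd as ++ [b.1] = x :: P := by
      cases hwa : wd as with
      | nil =>
        rw [hwa] at hword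
        simp only [List.nil_append, List.cons_append, List.cons.injEq] at hword
        exact ⟨[], by rw [hword.1]; rfl⟩
      | cons y Y =>
        rw [hwa] at hword
        simp only [List.cons_append, List.cons.injEq] at hword
        exact ⟨Y ++ [b.1], by rw [hword.1]; rfl⟩
    have hr : FreeGroup.IsReduced (x :: P) := by
      have := (cyc_iff.mp hL).isReduced
      rw [hword, hP] at this
      exact (List.isChain_append.mp this).1
    have h3 := follow q.1.1 P x 1 hr h1
    have h4 : (x :: P).getLast (by simp) = b.1 := by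
      simp only [← hP, List.getLast_append_singleton]
    rw [one_mul, h4] at h3
    rw [hP, h3]
    have hb : b.1.1 ≠ i0 := (ok b (by rw [f1]; simp)).1
    exact hb
  · intro j hj
    rw [smul_snd, Bd.smul_apply, inv_inv, lt_pow_mk, FreeGroup.mul_mk]
    have h5 : b.2 = List.replicate j (i0, s) ++ (i0, s) :: List.replicate (n - j - 1) (i0, s) := by
      rw [f2, ← List.replicate_succ, List.replicate_append_replicate]
      congr 1
      omega
    apply line_forward hL (x := x) rfl hq h2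
      (S := List.replicate (n - j - 1) (i0, s) ++ wd cs)
    rw [hword, h5]
    simp only [List.append_assoc, List.cons_append]

end Pool.Agent.H67R4.SR
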