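import Mathlib
import Pool.Agent.H67R4.SR.Trees
import Pool.Agent.H67R4.SR.Twist

set_option autoImplicit false

/-!
# Convergence of counting currents
-/

namespace Pool.Agent.H67R4.SR

open Pool.Agent.H67R3.FSR MeasureTheory Topology Filter
open scoped ENNReal NNReal

variable {N : ℕ}

theorem centralizer_of (i : Fin N) : ∀ (n : ℕ) (x : FreeGroup (Fin N)), x.norm ≤ n →
    x * FreeGroup.of i = FreeGroup.of i * x → x ∈ Subgroup.zpowers (FreeGroup.of i)
  | 0, x, hn, _ => by
    have : x = 1 := FreeGroup.norm_eq_zero.mp (Nat.le_zero.mp hn)
    rw [this]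
    exact Subgroup.one_mem _
  | n + 1, x, hn, hx => by
    by_cases hx1 : x = 1
    · rw [hx1]; exact Subgroup.one_mem _
    have key1 : ∀ s : Bool, ∀ l, x.toWord = (i, s) :: l →
        x ∈ Subgroup.zpowers (FreeGroup.of i) := by
      intro s l hw
      have hr : FreeGroup.IsReduced l := by
        have : FreeGroup.IsReduced ((i, s) :: l) := by
          rw [← hw]; exact FreeGroup.isReduced_toWord
        exact this.tail
      have e : x = lt (i, s) * FreeGroup.mk l := by
        rw [← FreeGroup.mk_toWord (x := x), hw, mk_cons']
      have hl : (FreeGroup.mk l : FreeGroup (Fin N)).norm ≤ n := by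
        unfold FreeGroup.norm at hn ⊢
        rw [toWord_mk_red hr]
        rw [hw] at hn
        simpa using hn
      have hc : FreeGroup.mk l * FreeGroup.of i = FreeGroup.of i * FreeGroup.mk l := by
        rw [e] at hx
        cases s
        · rw [lt_false] at hx
          have : FreeGroup.mk l * FreeGroup.of i =
              FreeGroup.of i * ((FreeGroup.of i)⁻¹ * FreeGroup.mk l * FreeGroup.of i) := by group
          rw [this, hx]
          group
        · rw [lt_true, mul_assoc] at hx
          exact mul_left_cancel hx
      have h1 := centralizer_of i n _ hl hc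
      rw [e]
      refine Subgroup.mul_mem _ ?_ h1
      cases s
      · rw [lt_false]
        exact Subgroup.inv_mem _ (Subgroup.mem_zpowers _)
      · exact Subgroup.mem_zpowers _
    have key2 : ∀ s : Bool, ∀ l, x.toWord = l ++ [(i, s)] →
        x ∈ Subgroup.zpowers (FreeGroup.of i) := by
      intro s l hw
      have hr : FreeGroup.IsReduced l := by
        have : FreeGroup.IsReduced (l ++ [(i, s)]) := by
          rw [← hw]; exact FreeGroup.isReduced_toWord
        exact (List.isChain_append.mp this).1
      have e : x = FreeGroup.mk l * lt (i, s) := by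
        rw [← FreeGroup.mk_toWord (x := x), hw, ← FreeGroup.mul_mk]
        rfl
      have hl : (FreeGroup.mk l : FreeGroup (Fin N)).norm ≤ n := by
        unfold FreeGroup.norm at hn ⊢
        rw [toWord_mk_red hr]
        rw [hw] at hn
        simpa using hn
      have hc : FreeGroup.mk l * FreeGroup.of i = FreeGroup.of i * FreeGroup.mk l := by
        rw [e] at hx
        cases s
        · rw [lt_false, inv_mul_cancel_right] at hx
          conv_lhs => rw [hx]
          group
        · rw [lt_true, ← mul_assoc] at hx
          exact mul_right_cancel hx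
      have h1 := centralizer_of i n _ hl hc
      rw [e]
      refine Subgroup.mul_mem _ h1 ?_
      cases s
      · rw [lt_false]
        exact Subgroup.inv_mem _ (Subgroup.mem_zpowers _)
      · exact Subgroup.mem_zpowers _
    obtain ⟨y, l, hw⟩ := exists_cons hx1
    by_cases hy : y.1 = i
    · obtain ⟨j, s⟩ := y
      simp only at hy
      subst hy
      exact key1 s l hw
    obtain ⟨l', z, hw'⟩ : ∃ l' z, x.toWord = l' ++ [z] := by
      rcases List.eq_nil_or_concat x.toWord with h | ⟨l', z, h⟩
      · rw [h] at hw; simp at hw
      · exact ⟨l', z, by rw [h, List.concat_eq_append]⟩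
    by_cases hz : z.1 = i
    · obtain ⟨j, s⟩ := z
      simp only at hz
      subst hz
      exact key2 s l' hw'
    exfalso
    have e1 : (x * lt (i, true)).toWord = x.toWord ++ [(i, true)] := by
      apply toWord_mul_lt
      rw [hw']
      simp only [List.getLast?_append, List.getLast?_singleton, Option.some_or, ne_eq,
        Option.some.injEq]
      intro h
      exact hz (by rw [h]; rfl)
    have e2 : (lt (i, true) * x).toWord = (i, true) :: x.toWord := by
      apply toWord_lt_mul
      rw [hw]
      simp only [List.head?_cons, ne_eq, Option.some.injEq]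
      intro h
      exact hy (by rw [h]; rfl)
    rw [lt_true, hx, ← lt_true, e2, hw] at e1
    simp only [List.cons_append, List.cons.injEq] at e1
    exact hy (by rw [← e1.1])

theorem expo_primitive {g : FreeGroup (Fin N)} (h : Primitive g) : expo g = 1 := by
  obtain ⟨b, i, hi⟩ := h
  have hc : Subgroup.centralizer {g} = Subgroup.zpowers g := by
    apply le_antisymm
    · intro x hx
      rw [Subgroup.mem_centralizer_singleton_iff] at hx
      have h1 : b.repr g = FreeGroup.of i := by rw [← hi]; simp
      have h2 : b.repr x * FreeGroup.of i = FreeGroup.of i * b.repr x := by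
        rw [← h1, ← map_mul, ← map_mul, hx]
      obtain ⟨n, hn⟩ := centralizer_of i _ _ le_rfl h2
      refine ⟨n, ?_⟩
      simp only at hn ⊢
      apply b.repr.injective
      rw [map_zpow, h1, hn]
    · rw [Subgroup.zpowers_le, Subgroup.mem_centralizer_singleton_iff]
  unfold expo
  rw [hc, Subgroup.relIndex_self]

theorem eta_primitive {g : FreeGroup (Fin N)} (h : Primitive g) :
    (eta g h.ne_one).meas = Measure.count.restrict (Ends g) := by
  change etaMeas g = _
  unfold etaMeas
  rw [expo_primitive h]
  simp

theorem ends_nonempty {g : FreeGroup (Fin N)} (hg : g ≠ 1) : (Ends g ∩ U 1).Nonempty := by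
  obtain ⟨L, hL⟩ := exists_rep hg
  obtain ⟨q, hq, _⟩ := exists_axis_rep hL
  obtain ⟨v, hv⟩ := exists_mem_U q
  refine ⟨v⁻¹ • q, (smul_mem_ends g v⁻¹ q).mpr hq, ?_⟩
  have := (smul_mem_U v⁻¹ v q).mpr hv
  rwa [inv_mul_cancel] at this

theorem measurableSet_ends {g : FreeGroup (Fin N)} (hg : g ≠ 1) : MeasurableSet (Ends g) :=
  (countable_ends hg).measurableSet

theorem eta_U_pos {g : FreeGroup (Fin N)} (h : Primitive g) :
    0 < (eta g h.ne_one).meas (U 1) := by
  rw [eta_primitive h, Measure.restrict_apply (isOpen_U 1).measurableSet, Set.inter_comm]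
  rw [pos_iff_ne_zero, Ne, Measure.count_eq_zero_iff]
  exact (ends_nonempty h.ne_one).ne_empty

end Pool.Agent.H67R4.SR
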