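import Mathlib
import Pool.Agent.H67R4.SR.Weak

set_option autoImplicit false

/-!
# Mass estimates for currents
-/

namespace Pool.Agent.H67R4.SR

open Pool.Agent.H67R3.FSR MeasureTheory Topology Filter
open scoped ENNReal NNReal

variable {N : ℕ}

theorem open_fst (v : FreeGroup (Fin N)) (A : Set (Lt N)) :
    IsOpen {q : Bd2 N | q.1.1.1 v ∈ A} :=
  (isOpen_discrete A).preimage
    ((continuous_eval v).comp (continuous_fst.comp continuous_subtype_val))

theorem open_snd (v : FreeGroup (Fin N)) (A : Set (Lt N)) :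
    IsOpen {q : Bd2 N | q.1.2.1 v ∈ A} :=
  (isOpen_discrete A).preimage
    ((continuous_eval v).comp (continuous_snd.comp continuous_subtype_val))

def F0 (i0 : Fin N) : Set (Bd2 N) := {q | q ∈ U 1 ∧ (q.1.2.1 1).1 ≠ i0}

def Bad0 (i0 : Fin N) : Set (Bd2 N) :=
  {q | q ∈ U 1 ∧ ((q.1.1.1 1).1 ≠ i0 ∨ (q.1.2.1 1).1 ≠ i0)}

def BadM (t : Lt N) (m : ℕ) : Set (Bd2 N) :=
  {q | q ∈ U 1 ∧ q ∉ Near t m ∧ flip2 q ∉ Near t m}

theorem meas_F0 (i0 : Fin N) : MeasurableSet (F0 i0) :=
  ((isOpen_U 1).inter (open_snd 1 {a | a.1 ≠ i0})).measurableSet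

theorem meas_Bad0 (i0 : Fin N) : MeasurableSet (Bad0 i0) :=
  ((isOpen_U 1).inter ((open_fst 1 {a | a.1 ≠ i0}).union
    (open_snd 1 {a | a.1 ≠ i0}))).measurableSet

theorem meas_St (t : Lt N) (n : ℕ) : MeasurableSet (St t n) := by
  have : St t n = {q : Bd2 N | q.1.1.1 1 ∈ {a : Lt N | a.1 ≠ t.1}} ∩
      ⋂ (j : ℕ), ⋂ (_ : j < n), {q : Bd2 N | q.1.2.1 (lt t ^ j) ∈ ({t} : Set (Lt N))} := by
    ext q
    simp [St]
  rw [this]
  exact (open_fst _ _).measurableSet.inter
    (MeasurableSet.iInter fun j => MeasurableSet.iInter fun _ => (open_snd _ _).measurableSet)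

theorem meas_Near (t : Lt N) (m : ℕ) : MeasurableSet (Near t m) := by
  have : Near t m =
      (⋂ (j : ℕ), ⋂ (_ : j < m), {q : Bd2 N | q.1.2.1 (lt t ^ j) ∈ ({t} : Set (Lt N))}) ∩
      ⋂ (j : ℕ), ⋂ (_ : j < m),
        {q : Bd2 N | q.1.1.1 (lt (inv' t) ^ j) ∈ ({inv' t} : Set (Lt N))} := by
    ext q
    simp [Near]
  rw [this]
  exact (MeasurableSet.iInter fun j => MeasurableSet.iInter fun _ =>
    (open_snd _ _).measurableSet).inter
    (MeasurableSet.iInter fun j => MeasurableSet.iInter fun _ => (open_fst _ _).measurableSet)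

theorem meas_BadM (t : Lt N) (m : ℕ) : MeasurableSet (BadM t m) :=
  (isOpen_U 1).measurableSet.inter ((meas_Near t m).compl.inter
    (measurable_flip2 (meas_Near t m)).compl)

theorem inv_pre (μ : Current N) (g : FreeGroup (Fin N)) {A : Set (Bd2 N)} (hA : MeasurableSet A) :
    μ.meas {q | g • q ∈ A} = μ.meas A := by
  conv_rhs => rw [← μ.invariant g, Measure.map_apply (measurable_smul2 g) hA]
  rfl

theorem flip_pre (μ : Current N) {A : Set (Bd2 N)} (hA : MeasurableSet A) :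
    μ.meas {q | flip2 q ∈ A} = μ.meas A := by
  conv_rhs => rw [← μ.flip, Measure.map_apply measurable_flip2 hA]
  rfl

theorem inv'_ne (t : Lt N) : inv' t ≠ t := by
  intro h
  have := congrArg Prod.snd h
  simp [inv'] at this

theorem st_back {t : Lt N} {n : ℕ} {q : Bd2 N} (hq : q ∈ St t n) {j : ℕ} (hj : 1 ≤ j) :
    q.1.1.1 (lt t ^ j) = inv' t := by
  obtain ⟨k, rfl⟩ := Nat.exists_eq_add_of_le' hj
  have h1 : q.1.1.1 1 ≠ t := fun h => hq.1 (by rw [h])
  have hr : FreeGroup.IsReduced (t :: List.replicate k t) := by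
    rw [← List.replicate_succ]
    exact red_replicate _ _
  have h2 := follow q.1.1 (List.replicate k t) t 1 hr h1
  have e : lt t ^ (k + 1) = (FreeGroup.mk (t :: List.replicate k t) : FreeGroup (Fin N)) := by
    rw [lt_pow_mk, List.replicate_succ]
  rw [one_mul] at h2
  rw [e, h2]
  congr 1
  have : ∀ (m : ℕ) (h : t :: List.replicate m t ≠ []), (t :: List.replicate m t).getLast h = t := by
    intro m h
    exact List.eq_of_mem_replicate (n := m + 1) (by
      rw [List.replicate_succ]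
      exact List.getLast_mem h)
  exact this k (by simp)

theorem mass_St (μ : Current N) (t : Lt N) (n : ℕ) :
    (n : ℝ≥0∞) * μ.meas (St t n) ≤ μ.meas (U 1) := by
  have h1 : (n : ℝ≥0∞) * μ.meas (St t n) =
      ∑ j ∈ Finset.range n, μ.meas {q | lt t ^ j • q ∈ St t n} := by
    rw [Finset.sum_congr rfl fun j _ => inv_pre μ (lt t ^ j) (meas_St t n), Finset.sum_const,
      Finset.card_range, nsmul_eq_mul]
  rw [h1, ← measure_biUnion_finset]
  · apply measure_mono
    intro q hq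
    rw [Set.mem_iUnion₂] at hq
    obtain ⟨j, hj, hq⟩ := hq
    rw [Finset.mem_range] at hj
    simp only [Set.mem_ofPred_eq] at hq
    have h2 : q.1.2.1 1 = t := by
      have := hq.2 j hj
      rw [smul_snd, Bd.smul_apply, inv_mul_cancel] at this
      exact this
    have h3 : q.1.1.1 1 ≠ t := by
      rcases Nat.eq_zero_or_pos j with h0 | h0
      · subst h0
        have := hq.1
        rw [pow_zero, one_smul] at this
        exact fun h => this (by rw [h])
      · have := st_back hq h0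
        rw [smul_fst, Bd.smul_apply, inv_mul_cancel] at this
        rw [this]
        exact inv'_ne t
    rw [mem_U, h2]
    exact h3
  · intro i hi j hj hij
    rw [Function.onFun, Set.disjoint_left]
    have key : ∀ i j : ℕ, i < j → j < n → ∀ q : Bd2 N, lt t ^ i • q ∈ St t n →
        lt t ^ j • q ∈ St t n → False := by
      intro i j hlt hjn q h4 h5
      have h6 := st_back h5 (j := j - i) (by omega)
      rw [smul_fst, Bd.smul_apply] at h6
      have e : (lt t ^ j)⁻¹ * lt t ^ (j - i) = (lt t ^ i)⁻¹ := by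
        have : lt t ^ j = lt t ^ (j - i) * lt t ^ i := by
          rw [← pow_add]
          congr 1
          omega
        rw [this]
        group
      rw [e] at h6
      have h7 := h4.1
      rw [smul_fst, Bd.smul_apply, mul_one, h6] at h7
      exact h7 rfl
    intro q h4 h5
    have hi' := Finset.mem_range.mp (Finset.mem_coe.mp hi)
    have hj' := Finset.mem_range.mp (Finset.mem_coe.mp hj)
    rcases lt_or_gt_of_ne hij with h | h
    · exact key i j h hj' q h4 h5
    · exact key j i h hi' q h5 h4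
  · intro j _
    exact (measurable_smul2 (lt t ^ j)) (meas_St t n)

noncomputable def ball5 (N : ℕ) : Finset (FreeGroup (Fin N)) := (finite_norm_le (N := N) 5).toFinset

theorem mass_Bad0 (μ : Current N) (i0 : Fin N) (n : ℕ) {E : Set (Bd2 N)}
    (hE : μ.meas Eᶜ = 0) (h : ∀ q ∈ E, q ∈ F0 i0 →
      ∃ u : FreeGroup (Fin N), u.norm ≤ 5 ∧ ∃ s : Bool, u⁻¹ • q ∈ St (i0, s) n) :
    (n : ℝ≥0∞) * μ.meas (Bad0 i0) ≤ (4 * (ball5 N).card : ℕ) * μ.meas (U 1) := by
  have h1 : μ.meas (F0 i0) ≤ ∑ u ∈ ball5 N, ∑ s : Bool, μ.meas (St (i0, s) n) := by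
    have hsub : F0 i0 ⊆ (⋃ u ∈ ball5 N, ⋃ s ∈ (Finset.univ : Finset Bool),
        {q : Bd2 N | u⁻¹ • q ∈ St (i0, s) n}) ∪ Eᶜ := by
      intro q hq
      by_cases hqE : q ∈ E
      · left
        obtain ⟨u, hu, s, hs⟩ := h q hqE hq
        rw [Set.mem_iUnion₂]
        refine ⟨u, ?_, ?_⟩
        · unfold ball5
          rw [Set.Finite.mem_toFinset]
          exact hu
        · rw [Set.mem_iUnion₂]
          exact ⟨s, Finset.mem_univ _, hs⟩
      · right; exact hqE
    refine (measure_mono hsub).trans ((measure_union_le _ _).trans ?_)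
    rw [hE, add_zero]
    refine (measure_biUnion_finset_le _ _).trans (Finset.sum_le_sum fun u _ => ?_)
    refine (measure_biUnion_finset_le _ _).trans (Finset.sum_le_sum fun s _ => ?_)
    rw [inv_pre μ u⁻¹ (meas_St _ _)]
  have h2 : (n : ℝ≥0∞) * μ.meas (F0 i0) ≤ (2 * (ball5 N).card : ℕ) * μ.meas (U 1) := by
    calc (n : ℝ≥0∞) * μ.meas (F0 i0)
        ≤ n * ∑ u ∈ ball5 N, ∑ s : Bool, μ.meas (St (i0, s) n) := by gcongr
      _ = ∑ u ∈ ball5 N, ∑ s : Bool, n * μ.meas (St (i0, s) n) := by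
          rw [Finset.mul_sum]
          exact Finset.sum_congr rfl fun u _ => Finset.mul_sum _ _ _
      _ ≤ ∑ u ∈ ball5 N, ∑ s : Bool, μ.meas (U 1) :=
          Finset.sum_le_sum fun u _ => Finset.sum_le_sum fun s _ => mass_St μ _ n
      _ = (2 * (ball5 N).card : ℕ) * μ.meas (U 1) := by
          simp only [Finset.sum_const, Finset.card_univ, Fintype.card_bool, nsmul_eq_mul]
          push_cast
          ring
  have h3 : μ.meas (Bad0 i0) ≤ 2 * μ.meas (F0 i0) := by
    have hsub : Bad0 i0 ⊆ F0 i0 ∪ {q | flip2 q ∈ F0 i0} := by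
      rintro q ⟨h4, h5 | h5⟩
      · right
        refine ⟨?_, h5⟩
        exact fun h => h4 h.symm
      · left
        exact ⟨h4, h5⟩
    refine (measure_mono hsub).trans ((measure_union_le _ _).trans ?_)
    rw [flip_pre μ (meas_F0 i0), two_mul]
  calc (n : ℝ≥0∞) * μ.meas (Bad0 i0) ≤ n * (2 * μ.meas (F0 i0)) := by gcongr
    _ = 2 * (n * μ.meas (F0 i0)) := by ring
    _ ≤ 2 * ((2 * (ball5 N).card : ℕ) * μ.meas (U 1)) := by gcongr
    _ = (4 * (ball5 N).card : ℕ) * μ.meas (U 1) := by push_cast; ring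

theorem along {i0 : Fin N} {t : Lt N} (ht : t.1 = i0) {q : Bd2 N} {m : ℕ} (h1 : q.1.2.1 1 = t)
    (h2 : q.1.1.1 1 ≠ t) (h : ∀ j < m, (lt t ^ j)⁻¹ • q ∉ Bad0 i0) :
    ∀ j < m, q.1.2.1 (lt t ^ j) = t ∧ q.1.1.1 (lt t ^ j) ≠ t := by
  intro j
  induction j with
  | zero =>
    intro _
    rw [pow_zero]
    exact ⟨h1, h2⟩
  | succ j ih =>
    intro hj
    obtain ⟨a1, a2⟩ := ih (by omega)
    have b1 : q.1.1.1 (lt t ^ (j + 1)) = inv' t := by
      rw [pow_succ]
      exact (q.1.1.2 (lt t ^ j) t).mpr a2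
    have b2 : q.1.2.1 (lt t ^ (j + 1)) ≠ inv' t := by
      rw [pow_succ]
      intro h3
      exact (q.1.2.2 (lt t ^ j) t).mp h3 a1
    have h3 := h (j + 1) hj
    have h4 : (lt t ^ (j + 1))⁻¹ • q ∈ U 1 := by
      rw [mem_U, smul_fst, smul_snd, Bd.smul_apply, Bd.smul_apply, inv_inv, mul_one, b1]
      exact b2.symm
    have h5 : (q.1.2.1 (lt t ^ (j + 1))).1 = i0 := by
      by_contra hc
      apply h3
      refine ⟨h4, Or.inr ?_⟩
      rw [smul_snd, Bd.smul_apply, inv_inv, mul_one]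
      exact hc
    refine ⟨?_, by rw [b1]; exact inv'_ne t⟩
    rcases hx : q.1.2.1 (lt t ^ (j + 1)) with ⟨i, s⟩
    rw [hx] at h5 b2
    simp only at h5
    obtain ⟨i', s'⟩ := t
    simp only at ht
    subst ht
    subst h5
    cases s <;> cases s' <;> simp [inv'] at b2 ⊢

theorem near_of_good {i0 : Fin N} {s : Bool} {q : Bd2 N} {m : ℕ} (hq : q.1.2.1 1 = (i0, s))
    (hq' : q.1.1.1 1 = inv' (i0, s))
    (h : ∀ j < m, (lt (i0, s) ^ j)⁻¹ • q ∉ Bad0 i0 ∧ lt (i0, s) ^ j • q ∉ Bad0 i0) :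
    q ∈ Near (i0, s) m := by
  constructor
  · intro j hj
    exact (along (i0 := i0) rfl hq (by rw [hq']; exact inv'_ne _) (fun j hj => (h j hj).1) j hj).1
  · intro j hj
    refine (along (i0 := i0) (t := inv' (i0, s)) (q := flip2 q) rfl hq' ?_ ?_ j hj).1
    · change q.1.2.1 1 ≠ _
      rw [hq]
      exact (inv'_ne _).symm
    · intro j hj hb
      apply (h j hj).2
      have e : (lt (inv' (i0, s)) ^ j)⁻¹ = lt (i0, s) ^ j := by
        rw [Pool.Agent.H67R3.FSR.lt_inv', inv_pow, inv_inv]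
      rw [e] at hb
      obtain ⟨h1, h2⟩ := hb
      refine ⟨fun h3 => h1 h3.symm, h2.symm⟩

theorem mass_BadM (μ : Current N) (i0 : Fin N) (m : ℕ) :
    μ.meas (BadM (i0, true) m) ≤ (2 * m : ℕ) * μ.meas (Bad0 i0) + μ.meas (Bad0 i0) := by
  have hsub : BadM (i0, true) m ⊆ (⋃ j ∈ Finset.range m,
      ({q : Bd2 N | (lt (i0, true) ^ j)⁻¹ • q ∈ Bad0 i0} ∪
        {q : Bd2 N | lt (i0, true) ^ j • q ∈ Bad0 i0})) ∪ Bad0 i0 := by
    rintro q ⟨h1, h2, h3⟩
    by_contra hc
    rw [Set.mem_union, not_or, Set.mem_iUnion₂] at hc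
    obtain ⟨hc1, hc2⟩ := hc
    have hc3 : ∀ j < m, (lt (i0, true) ^ j)⁻¹ • q ∉ Bad0 i0 ∧ lt (i0, true) ^ j • q ∉ Bad0 i0 := by
      intro j hj
      constructor
      · intro h4
        exact hc1 ⟨j, Finset.mem_range.mpr hj, Or.inl h4⟩
      · intro h4
        exact hc1 ⟨j, Finset.mem_range.mpr hj, Or.inr h4⟩
    have h4 : (q.1.1.1 1).1 = i0 ∧ (q.1.2.1 1).1 = i0 := by
      by_contra h5
      apply hc2
      refine ⟨h1, ?_⟩
      by_cases h6 : (q.1.1.1 1).1 = i0
      · right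
        intro h7
        exact h5 ⟨h6, h7⟩
      · left; exact h6
    rw [mem_U] at h1
    rcases hx : q.1.1.1 1 with ⟨i, s⟩
    rcases hy : q.1.2.1 1 with ⟨j, s'⟩
    rw [hx, hy] at h4 h1
    simp only at h4
    obtain ⟨h4, h5⟩ := h4
    subst h4
    subst h5
    cases s <;> cases s'
    · exact h1 rfl
    · exact h2 (near_of_good hy hx hc3)
    · apply h3
      refine near_of_good (q := flip2 q) hx hy ?_
      intro j hj
      obtain ⟨h6, h7⟩ := hc3 j hj
      constructor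
      · rintro ⟨h8, h9⟩
        exact h6 ⟨fun h => h8 h.symm, h9.symm⟩
      · rintro ⟨h8, h9⟩
        exact h7 ⟨fun h => h8 h.symm, h9.symm⟩
    · exact h1 rfl
  refine (measure_mono hsub).trans ((measure_union_le _ _).trans ?_)
  gcongr
  refine (measure_biUnion_finset_le _ _).trans ?_
  have : ∀ j ∈ Finset.range m, μ.meas ({q : Bd2 N | (lt (i0, true) ^ j)⁻¹ • q ∈ Bad0 i0} ∪
        {q : Bd2 N | lt (i0, true) ^ j • q ∈ Bad0 i0}) ≤ 2 * μ.meas (Bad0 i0) := by
    intro j _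
    refine (measure_union_le _ _).trans ?_
    rw [inv_pre μ _ (meas_Bad0 i0), inv_pre μ _ (meas_Bad0 i0), two_mul]
  refine (Finset.sum_le_sum this).trans ?_
  rw [Finset.sum_const, Finset.card_range, nsmul_eq_mul]
  push_cast
  apply le_of_eq
  ring

end Pool.Agent.H67R4.SR
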