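import Mathlib
import Pool.Agent.H67R4.SR.Mass

set_option autoImplicit false

/-!
# Weak-* convergence to the counting current of a letter
-/

namespace Pool.Agent.H67R4.SR

open Pool.Agent.H67R3.FSR MeasureTheory Topology Filter
open scoped ENNReal NNReal

variable {N : ℕ}

instance : CompactSpace (Bd N) := by
  have h : IsClosed {ξ : FreeGroup (Fin N) → Lt N | ∀ (v : FreeGroup (Fin N)) (a : Lt N),
      ξ (v * lt a) = inv' a ↔ ξ v ≠ a} := by
    have e : {ξ : FreeGroup (Fin N) → Lt N | ∀ (v : FreeGroup (Fin N)) (a : Lt N),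
        ξ (v * lt a) = inv' a ↔ ξ v ≠ a} = ⋂ v, ⋂ a,
        (fun ξ : FreeGroup (Fin N) → Lt N => (ξ (v * lt a), ξ v)) ⁻¹'
          {p : Lt N × Lt N | p.1 = inv' a ↔ p.2 ≠ a} := by
      ext ξ
      simp
    rw [e]
    refine isClosed_iInter fun v => isClosed_iInter fun a => ?_
    exact (isClosed_discrete _).preimage ((continuous_apply _).prodMk (continuous_apply _))
  exact isCompact_iff_compactSpace.mp h.isCompact

theorem isCompact_U1 : IsCompact (U 1 : Set (Bd2 N)) := by
  have hi2 : Topology.IsInducing (fun q : Bd2 N => q.1) := ⟨rfl⟩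
  rw [hi2.isCompact_iff]
  have e : (fun q : Bd2 N => q.1) '' (U 1) = {p : Bd N × Bd N | p.1.1 1 ≠ p.2.1 1} := by
    ext p
    constructor
    · rintro ⟨q, hq, rfl⟩
      exact hq
    · intro hp
      exact ⟨⟨p, fun h => hp (by rw [h])⟩, hp, rfl⟩
  rw [e]
  apply IsClosed.isCompact
  have : {p : Bd N × Bd N | p.1.1 1 ≠ p.2.1 1} =
      (fun p : Bd N × Bd N => (p.1.1 1, p.2.1 1)) ⁻¹' {a : Lt N × Lt N | a.1 ≠ a.2} := rfl
  rw [this]
  exact (isClosed_discrete _).preimage
    (((continuous_eval 1).comp continuous_fst).prodMk ((continuous_eval 1).comp continuous_snd))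

theorem near_U {t : Lt N} {m : ℕ} (hm : 1 ≤ m) {q : Bd2 N} (hq : q ∈ Near t m) :
    q.1.2.1 1 = t ∧ q.1.1.1 1 = inv' t := by
  have h1 := hq.1 0 (by omega)
  have h2 := hq.2 0 (by omega)
  rw [pow_zero] at h1 h2
  exact ⟨h1, h2⟩

theorem est {t : Lt N} {q0 : Bd2 N} (h0 : ∀ m, q0 ∈ Near t m) {f : Bd2 N → ℝ}
    (hf : Continuous f) (hU : ∀ q, q ∉ U 1 → f q = 0) {ε : ℝ} (hε : 0 < ε) :
    ∃ (m : ℕ) (C : ℝ), 0 ≤ C ∧ ∀ ν : Current N, ν.meas (U 1) = 2 →
      |∫ q, f q ∂ν.meas - (f q0 + f (flip2 q0))| ≤ ε + C * ν.meas.real (BadM t m) := by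
  obtain ⟨C, hC⟩ := isCompact_U1.exists_bound_of_continuousOn (f := f) hf.continuousOn
  have hq0 := near_U (m := 1) le_rfl (h0 1)
  have hq0U : q0 ∈ U 1 := by
    rw [mem_U, hq0.1, hq0.2]; exact inv'_ne t
  have hC0 : 0 ≤ C := (norm_nonneg _).trans (hC q0 hq0U)
  have hq0U' : flip2 q0 ∈ U 1 := fun h => hq0U h.symm
  have hW : IsOpen {q : Bd2 N | |f q - f q0| < ε / 2 ∧ |f (flip2 q) - f (flip2 q0)| < ε / 2} := by
    apply IsOpen.inter
    · have : Continuous fun q : Bd2 N => |f q - f q0| := (hf.sub continuous_const).abs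
      exact isOpen_lt this continuous_const
    · have : Continuous fun q : Bd2 N => |f (flip2 q) - f (flip2 q0)| :=
        ((hf.comp continuous_flip2).sub continuous_const).abs
      exact isOpen_lt this continuous_const
  obtain ⟨m0, hm0⟩ := near_subset h0 hW (by
    simp only [Set.mem_ofPred_eq, sub_self, abs_zero]
    exact ⟨by linarith, by linarith⟩)
  refine ⟨m0 + 1, 2 * C, by positivity, fun ν hν => ?_⟩
  have hm := hm0 (m0 + 1) (by omega)
  set A : Set (Bd2 N) := Near t (m0 + 1) with hA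
  set A' : Set (Bd2 N) := {q | flip2 q ∈ A} with hA'
  set R : Set (Bd2 N) := BadM t (m0 + 1) with hR
  have mA : MeasurableSet A := meas_Near _ _
  have mA' : MeasurableSet A' := measurable_flip2 mA
  have mR : MeasurableSet R := meas_BadM _ _
  have hUfin : ν.meas (U 1) < ∞ := by rw [hν]; exact ENNReal.ofNat_lt_top
  have sA : A ⊆ U 1 := by
    intro q hq
    have := near_U (by omega) hq
    rw [mem_U, this.1, this.2]
    exact inv'_ne t
  have sA' : A' ⊆ U 1 := by
    intro q hq
    have := sA hq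
    exact fun h => this h.symm
  have sR : R ⊆ U 1 := fun q hq => hq.1
  have dAA' : Disjoint A A' := by
    rw [Set.disjoint_left]
    intro q h1 h2
    have a1 := (near_U (by omega) h1).1
    have a2 := (near_U (by omega) h2).2
    change q.1.2.1 1 = inv' t at a2
    rw [a1] at a2
    exact inv'_ne t a2.symm
  have dR : Disjoint (A ∪ A') R := by
    rw [Set.disjoint_left]
    rintro q (h1 | h1) h2
    · exact h2.2.1 h1
    · exact h2.2.2 h1
  have hUeq : U 1 = (A ∪ A') ∪ R := by
    ext q
    constructor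
    · intro hq
      by_cases h1 : q ∈ A
      · exact Or.inl (Or.inl h1)
      · by_cases h2 : flip2 q ∈ A
        · exact Or.inl (Or.inr h2)
        · exact Or.inr ⟨hq, h1, h2⟩
    · rintro ((h | h) | h)
      · exact sA h
      · exact sA' h
      · exact sR h
  have fin : ∀ s : Set (Bd2 N), s ⊆ U 1 → ν.meas s < ∞ := fun s hs =>
    lt_of_le_of_lt (measure_mono hs) hUfin
  have hint : IntegrableOn f (U 1) ν.meas :=
    hf.continuousOn.integrableOn_compact isCompact_U1
  have e1 : ∫ q, f q ∂ν.meas = ∫ q in U 1, f q ∂ν.meas :=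
    (setIntegral_eq_integral_of_forall_compl_eq_zero fun q hq => hU q hq).symm
  have iA := hint.mono_set sA
  have iA' := hint.mono_set sA'
  have iR := hint.mono_set sR
  have e2 : ∫ q in U 1, f q ∂ν.meas = ∫ q in A, f q ∂ν.meas + ∫ q in A', f q ∂ν.meas +
      ∫ q in R, f q ∂ν.meas := by
    rw [hUeq, setIntegral_union dR mR (iA.union iA') iR, setIntegral_union dAA' mA' iA iA']
  set ρ : ℝ := ν.meas.real A with hρ
  set r : ℝ := ν.meas.real R with hr
  have hρ' : ν.meas.real A' = ρ := by
    rw [hρ, Measure.real, Measure.real, hA', flip_pre ν mA]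
  have hsum : 2 * ρ + r = 2 := by
    have h1 : ν.meas.real (U 1) = 2 := by
      rw [Measure.real, hν]
      rfl
    rw [hUeq, measureReal_union dR mR (fin _ (Set.union_subset sA sA')).ne (fin _ sR).ne,
      measureReal_union dAA' mA' (fin _ sA).ne (fin _ sA').ne, hρ'] at h1
    linarith
  have hρ0 : 0 ≤ ρ := measureReal_nonneg
  have hr0 : 0 ≤ r := measureReal_nonneg
  have b1 : |∫ q in A, f q ∂ν.meas - f q0 * ρ| ≤ ε / 2 * ρ := by
    have h1 : ∫ q in A, (f q - f q0) ∂ν.meas = ∫ q in A, f q ∂ν.meas - f q0 * ρ := by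
      rw [integral_sub iA (integrableOn_const (fin _ sA).ne), setIntegral_const, smul_eq_mul,
        mul_comm]
    rw [← h1, ← Real.norm_eq_abs]
    refine norm_setIntegral_le_of_norm_le_const (fin _ sA) ?_
    intro q hq
    exact (hm hq).1.le
  have b2 : |∫ q in A', f q ∂ν.meas - f (flip2 q0) * ρ| ≤ ε / 2 * ρ := by
    have h1 : ∫ q in A', (f q - f (flip2 q0)) ∂ν.meas =
        ∫ q in A', f q ∂ν.meas - f (flip2 q0) * ρ := by
      rw [integral_sub iA' (integrableOn_const (fin _ sA').ne), setIntegral_const, smul_eq_mul,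
        hρ', mul_comm]
    rw [← h1, ← Real.norm_eq_abs]
    have h2 : ‖∫ q in A', (f q - f (flip2 q0)) ∂ν.meas‖ ≤ ε / 2 * ν.meas.real A' := by
      refine norm_setIntegral_le_of_norm_le_const (fin _ sA') ?_
      intro q hq
      have := (hm hq).2
      have e : flip2 (flip2 q) = q := rfl
      rw [e] at this
      exact this.le
    rwa [hρ'] at h2
  have b3 : |∫ q in R, f q ∂ν.meas| ≤ C * r := by
    rw [← Real.norm_eq_abs]
    exact norm_setIntegral_le_of_norm_le_const (fin _ sR) fun q hq => hC q (sR hq)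
  have b4 : |f q0| ≤ C := hC q0 hq0U
  have b5 : |f (flip2 q0)| ≤ C := hC _ hq0U'
  rw [e1, e2]
  have hρ1 : ρ = 1 - r / 2 := by linarith
  have key : ∫ q in A, f q ∂ν.meas + ∫ q in A', f q ∂ν.meas + ∫ q in R, f q ∂ν.meas -
      (f q0 + f (flip2 q0)) = (∫ q in A, f q ∂ν.meas - f q0 * ρ) +
      (∫ q in A', f q ∂ν.meas - f (flip2 q0) * ρ) + ∫ q in R, f q ∂ν.meas -
      (f q0 + f (flip2 q0)) * (r / 2) := by
    rw [hρ1]; ring
  rw [key]
  rw [abs_le] at b1 b2 b3 b4 b5 ⊢
  have hr2 : 0 ≤ r / 2 := by linarith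
  have c1 : f q0 * (r / 2) ≤ C * (r / 2) := mul_le_mul_of_nonneg_right b4.2 hr2
  have c2 : -C * (r / 2) ≤ f q0 * (r / 2) := mul_le_mul_of_nonneg_right b4.1 hr2
  have c3 : f (flip2 q0) * (r / 2) ≤ C * (r / 2) := mul_le_mul_of_nonneg_right b5.2 hr2
  have c4 : -C * (r / 2) ≤ f (flip2 q0) * (r / 2) := mul_le_mul_of_nonneg_right b5.1 hr2
  have c5 : ε / 2 * ρ ≤ ε / 2 := by nlinarith
  constructor <;> nlinarith

theorem integral_smul_pre (μ : Current N) (g : FreeGroup (Fin N)) {f : Bd2 N → ℝ}
    (hf : Continuous f) : ∫ q, f (g • q) ∂μ.meas = ∫ q, f q ∂μ.meas := by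
  conv_rhs => rw [← μ.invariant g]
  rw [integral_map (measurable_smul2 g).aemeasurable hf.aestronglyMeasurable]

theorem isClopen_U (v : FreeGroup (Fin N)) : IsClopen (U v : Set (Bd2 N)) := by
  refine ⟨?_, isOpen_U v⟩
  have h1 : Continuous fun q : Bd2 N => (q.1.1.1 v, q.1.2.1 v) :=
    ((continuous_eval v).comp (continuous_fst.comp continuous_subtype_val)).prodMk
      ((continuous_eval v).comp (continuous_snd.comp continuous_subtype_val))
  exact (isClosed_discrete {a : Lt N × Lt N | a.1 ≠ a.2}).preimage h1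

theorem tendsto_current_iff {ν : ℕ → Current N} {μ : Current N} :
    Tendsto ν atTop (𝓝 μ) ↔ ∀ f : Bd2 N → ℝ, Continuous f → HasCompactSupport f →
      Tendsto (fun k => ∫ q, f q ∂(ν k).meas) atTop (𝓝 (∫ q, f q ∂μ.meas)) := by
  rw [(Topology.IsInducing.mk rfl : Topology.IsInducing
    (fun (μ : Current N) (f : {f : Bd2 N → ℝ // Continuous f ∧ HasCompactSupport f}) =>
      ∫ q, f.1 q ∂μ.meas)).tendsto_nhds_iff, tendsto_pi_nhds]
  constructor
  · intro h f h1 h2
    exact h ⟨f, h1, h2⟩
  · intro h f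
    exact h f.1 f.2.1 f.2.2

theorem tendsto_cur {t : Lt N} {ν : ℕ → Current N} {μ : Current N}
    (h2 : ∀ k, (ν k).meas (U 1) = 2) (h2' : μ.meas (U 1) = 2)
    (hb : ∀ m, Tendsto (fun k => (ν k).meas.real (BadM t m)) atTop (𝓝 0))
    (hb' : ∀ m, μ.meas.real (BadM t m) = 0) : Tendsto ν atTop (𝓝 μ) := by
  classical
  obtain ⟨q0, _, h0, _, _⟩ := exists_letter_axis t
  have base : ∀ f : Bd2 N → ℝ, Continuous f → (∀ q, q ∉ U 1 → f q = 0) →
      Tendsto (fun k => ∫ q, f q ∂(ν k).meas) atTop (𝓝 (∫ q, f q ∂μ.meas)) := by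
    intro f hf hU
    rw [Metric.tendsto_atTop]
    intro ε hε
    obtain ⟨m, C, hC, hest⟩ := est h0 hf hU (ε := ε / 4) (by linarith)
    have h3 := (hb m).const_mul C
    rw [mul_zero] at h3
    obtain ⟨K, hK⟩ := (Metric.tendsto_atTop.mp h3) (ε / 4) (by linarith)
    refine ⟨K, fun k hk => ?_⟩
    have h4 := hest (ν k) (h2 k)
    have h5 := hest μ h2'
    rw [hb' m, mul_zero, add_zero] at h5
    have h6 := hK k hk
    rw [Real.dist_eq, sub_zero] at h6
    rw [Real.dist_eq]
    have h7 := (abs_lt.mp h6).2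
    rw [abs_le] at h4 h5
    rw [abs_lt]
    constructor <;> linarith [h4.1, h4.2, h5.1, h5.2]
  have single : ∀ (v : FreeGroup (Fin N)) (f : Bd2 N → ℝ), Continuous f →
      (∀ q, q ∉ U v → f q = 0) →
      Tendsto (fun k => ∫ q, f q ∂(ν k).meas) atTop (𝓝 (∫ q, f q ∂μ.meas)) := by
    intro v f hf hU
    have h3 := base (fun q => f (v • q)) (hf.comp (continuous_smul_bd2 v)) (by
      intro q hq
      apply hU
      intro h
      have := (smul_mem_U v 1 q).mp (by rw [mul_one]; exact h)
      exact hq this)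
    simp only [integral_smul_pre _ v hf] at h3
    exact h3
  rw [tendsto_current_iff]
  have main : ∀ (B : Finset (FreeGroup (Fin N))) (f : Bd2 N → ℝ), Continuous f →
      HasCompactSupport f → (∀ q, f q ≠ 0 → ∃ v ∈ B, q ∈ U v) →
      Tendsto (fun k => ∫ q, f q ∂(ν k).meas) atTop (𝓝 (∫ q, f q ∂μ.meas)) := by
    intro B
    induction B using Finset.induction_on with
    | empty =>
      intro f _ _ h3
      have : f = fun _ => 0 := by
        funext q
        by_contra hc
        obtain ⟨v, hv, _⟩ := h3 q hc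
        simp at hv
      rw [this]
      simp
    | insert v B _ ih =>
      intro f hf hcs h3
      have hc1 : Continuous ((U v).indicator f) := by
        apply continuous_indicator
        · intro a ha
          rw [(isClopen_U v).frontier_eq] at ha
          exact absurd ha (Set.notMem_empty _)
        · exact hf.continuousOn
      have hc2 : Continuous ((U v)ᶜ.indicator f) := by
        apply continuous_indicator
        · intro a ha
          rw [(isClopen_U v).compl.frontier_eq] at ha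
          exact absurd ha (Set.notMem_empty _)
        · exact hf.continuousOn
      have hs1 : HasCompactSupport ((U v).indicator f) :=
        hcs.mono (Set.support_indicator.trans_subset Set.inter_subset_right)
      have hs2 : HasCompactSupport ((U v)ᶜ.indicator f) :=
        hcs.mono (Set.support_indicator.trans_subset Set.inter_subset_right)
      have t1 := single v _ hc1 (fun q hq => Set.indicator_of_notMem hq f)
      have t2 := ih _ hc2 hs2 (by
        intro q hq
        have hq1 : q ∉ U v := by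
          intro h
          have h' : q ∉ ((U v)ᶜ : Set (Bd2 N)) := fun h' => h' h
          exact hq (Set.indicator_of_notMem h' f)
        have hq2 : f q ≠ 0 := by
          rwa [Set.indicator_of_mem (by exact hq1)] at hq
        obtain ⟨w, hw, hqw⟩ := h3 q hq2
        rcases Finset.mem_insert.mp hw with rfl | hw
        · exact absurd hqw hq1
        · exact ⟨w, hw, hqw⟩)
      have hadd : ∀ κ : Current N, ∫ q, f q ∂κ.meas =
          ∫ q, (U v).indicator f q ∂κ.meas + ∫ q, (U v)ᶜ.indicator f q ∂κ.meas := by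
        intro κ
        rw [← integral_add (integrable_test κ ⟨_, hc1, hs1⟩) (integrable_test κ ⟨_, hc2, hs2⟩)]
        congr 1
        funext q
        exact (congrFun (Set.indicator_self_add_compl (U v) f) q).symm
      simp only [hadd]
      exact t1.add t2
  intro f hf hcs
  obtain ⟨B, hB⟩ := hcs.isCompact.elim_finite_subcover
    (fun v : FreeGroup (Fin N) => (U v : Set (Bd2 N))) (fun v => isOpen_U v) (fun q _ => by
      obtain ⟨v, hv⟩ := exists_mem_U q
      exact Set.mem_iUnion.mpr ⟨v, hv⟩)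
  apply main B f hf hcs
  intro q hq
  have := hB (subset_tsupport f hq)
  rw [Set.mem_iUnion₂] at this
  obtain ⟨v, hv, h⟩ := this
  exact ⟨v, hv, h⟩

end Pool.Agent.H67R4.SR
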