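import Mathlib
import Pool.Agent.H67R4.SR.Limit

set_option autoImplicit false

/-!
# Projective currents, push forward, the main limit
-/

namespace Pool.Agent.H67R4.SR

open Pool.Agent.H67R3.FSR MeasureTheory Topology Filter
open scoped ENNReal NNReal

variable {N : ℕ}

theorem map_count2 {E E' : Set (Bd2 N)} (hE : E.Countable) (hE' : E'.Countable)
    (f : Bd2 N → Bd2 N) (hf : Measurable f) (hbij : Function.Bijective f)
    (hm : ∀ q, f q ∈ E' ↔ q ∈ E) :
    (Measure.count.restrict E).map f = Measure.count.restrict E' := by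
  ext A hA
  have hEm : MeasurableSet E := hE.measurableSet
  have hEm' : MeasurableSet E' := hE'.measurableSet
  rw [Measure.map_apply hf hA, Measure.restrict_apply (hf hA), Measure.restrict_apply hA,
    Measure.count_apply ((hf hA).inter hEm), Measure.count_apply (hA.inter hEm')]
  congr 1
  have : f '' (f ⁻¹' A ∩ E) = A ∩ E' := by
    ext q
    constructor
    · rintro ⟨p, ⟨h1, h2⟩, rfl⟩
      exact ⟨h1, (hm p).mpr h2⟩
    · rintro ⟨h1, h2⟩
      obtain ⟨p, rfl⟩ := hbij.2 q
      exact ⟨p, ⟨h1, (hm p).mp h2⟩, rfl⟩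
  rw [← this, hbij.1.encard_image]

section Push

variable (α : FreeGroup (Fin N) ≃* FreeGroup (Fin N))

theorem measurable_bd2Map : Measurable (bd2Map α) := (continuous_bd2Map α).measurable

/-- The push forward of a current by an automorphism. -/
noncomputable def pushC (μ : Current N) : Current N where
  meas := μ.meas.map (bd2Map α)
  finite := fun K hK => by
    rw [Measure.map_apply (measurable_bd2Map α) hK.measurableSet]
    exact μ.finite _ ((bd2Homeo α).isCompact_preimage.mpr hK)
  invariant := fun g => by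
    rw [Measure.map_map (measurable_smul2 g) (measurable_bd2Map α)]
    have e : (fun q : Bd2 N => g • q) ∘ bd2Map α = bd2Map α ∘ fun q => (α.symm g) • q := by
      funext q
      simp only [Function.comp_apply]
      rw [bd2Map_smul, MulEquiv.apply_symm_apply]
    rw [e, ← Measure.map_map (measurable_bd2Map α) (measurable_smul2 _), μ.invariant]
  flip := by
    rw [Measure.map_map measurable_flip2 (measurable_bd2Map α)]
    have e : flip2 ∘ bd2Map α = bd2Map α ∘ flip2 := rfl
    rw [e, ← Measure.map_map (measurable_bd2Map α) measurable_flip2, μ.flip]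

theorem pushC_tendsto {ν : ℕ → Current N} {μ : Current N} (h : Tendsto ν atTop (𝓝 μ)) :
    Tendsto (fun k => pushC α (ν k)) atTop (𝓝 (pushC α μ)) := by
  rw [tendsto_current_iff] at h ⊢
  intro f hf hcs
  have key : ∀ κ : Current N, ∫ q, f q ∂(pushC α κ).meas = ∫ q, f (bd2Map α q) ∂κ.meas := by
    intro κ
    change ∫ q, f q ∂(κ.meas.map (bd2Map α)) = _
    rw [integral_map (measurable_bd2Map α).aemeasurable hf.aestronglyMeasurable]
  simp only [key]
  exact h _ (hf.comp (continuous_bd2Map α)) (hcs.comp_homeomorph (bd2Homeo α))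

theorem pushC_eta {g : FreeGroup (Fin N)} (hg : Primitive g) (c : ℝ≥0) :
    pushC α (c • eta g hg.ne_one) = c • eta (α g) (hg.map α).ne_one := by
  apply Current.ext
  change (c • (eta g hg.ne_one).meas).map (bd2Map α) = c • (eta (α g) (hg.map α).ne_one).meas
  rw [Measure.map_smul, eta_primitive hg, eta_primitive (hg.map α)]
  congr 1
  exact map_count2 (countable_ends hg.ne_one) (countable_ends (hg.map α).ne_one) _
    (measurable_bd2Map α) (bd2Homeo α).bijective (bd2Map_ends_iff α g)

end Push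

theorem eta_ne_zero {g : FreeGroup (Fin N)} (hg : Primitive g) : eta g hg.ne_one ≠ 0 := by
  intro h
  have h1 := eta_U_pos hg
  rw [h, Current.zero_meas] at h1
  simp at h1

/-- The projective class of the counting current of a primitive element. -/
noncomputable def cls (g : FreeGroup (Fin N)) (hg : Primitive g) : PCurr N :=
  PCurr.mk ⟨eta g hg.ne_one, eta_ne_zero hg⟩

/-- The set of the projective classes of the counting currents of the elements of `S`. -/
def classes (S : Set (FreeGroup (Fin N))) : Set (PCurr N) :=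
  {p | ∃ (g : FreeGroup (Fin N)) (hg : Primitive g), g ∈ S ∧ p = cls g hg}

theorem U1_fin (μ : Current N) : μ.meas (U 1) < ∞ := μ.finite _ isCompact_U1

/-- Scaling to mass two. -/
noncomputable def norm2 (μ : Current N) : ℝ≥0 := (2 / μ.meas (U 1)).toNNReal

theorem norm2_spec {μ : Current N} (h : 0 < μ.meas (U 1)) :
    norm2 μ ≠ 0 ∧ (norm2 μ • μ).meas (U 1) = 2 := by
  have h1 : 2 / μ.meas (U 1) ≠ ∞ := (ENNReal.div_lt_top ENNReal.ofNat_ne_top h.ne').ne
  have h2 : 2 / μ.meas (U 1) ≠ 0 := ENNReal.div_ne_zero.mpr ⟨two_ne_zero, (U1_fin μ).ne⟩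
  constructor
  · unfold norm2
    rw [Ne, ENNReal.toNNReal_eq_zero_iff, not_or]
    exact ⟨h2, h1⟩
  · rw [Current.smul_meas, Measure.smul_apply, ENNReal.smul_def, smul_eq_mul]
    unfold norm2
    rw [ENNReal.coe_toNNReal h1, ENNReal.div_mul_cancel h.ne' (U1_fin μ).ne]

theorem primitive_of (i0 : Fin N) : Primitive (FreeGroup.of i0 : FreeGroup (Fin N)) :=
  primitive_aut (MulEquiv.refl _) i0

theorem letter_bad (i0 : Fin N) :
    (eta (FreeGroup.of i0) (primitive_of i0).ne_one).meas (Bad0 i0) = 0 := by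
  rw [eta_primitive (primitive_of i0), Measure.restrict_apply (meas_Bad0 i0),
    Measure.count_eq_zero_iff]
  by_contra hne
  obtain ⟨q, ⟨hqU, hqb⟩, hqE⟩ := Set.nonempty_iff_ne_empty.mpr hne
  have h1 : (q.1.1.1 1, q.1.2.1 1) ∈ Tn (FreeGroup.of i0 : FreeGroup (Fin N)) :=
    ⟨hqU, q, hqE, rfl, rfl⟩
  obtain ⟨z, R, y, h2, h3, h4⟩ := rep_of_turn (primitive_of i0).ne_one h1
  obtain ⟨u, v, h5, h6⟩ := h2.unique (rep_lt (i0, true))
  have h7 : z :: R = [(i0, true)] := by
    rcases List.append_eq_singleton_iff.mp h6.symm with ⟨h8, h9⟩ | ⟨h8, h9⟩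
    · rw [h5, h8, h9]; rfl
    · rw [h5, h8, h9]; rfl
  have h8 : z = (i0, true) := by
    simp only [List.cons.injEq] at h7
    exact h7.1
  have h9 : y = (i0, true) := by
    rw [h7] at h3
    simp only [List.getLast?_singleton, Option.some.injEq] at h3
    exact h3.symm
  rw [h8, h9] at h4
  simp only [Prod.mk.injEq] at h4
  rcases h4 with ⟨e1, e2⟩ | ⟨e1, e2⟩
  · rcases hqb with hb | hb
    · apply hb; rw [e1]; rfl
    · apply hb; rw [e2]
  · rcases hqb with hb | hb
    · apply hb; rw [e1]
    · apply hb; rw [e2]; rfl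

theorem smul_real (c : ℝ≥0) (μ : Current N) (A : Set (Bd2 N)) (h : μ.meas A = 0) :
    (c • μ).meas A = 0 := by
  rw [Current.smul_meas, Measure.smul_apply, h, smul_zero]

theorem key_limit (i0 : Fin N) (s : ℕ → FreeGroup (Fin N)) (hs : ∀ k, Primitive (s k))
    (hb : ∀ k, ∀ q ∈ Ends (s k), q ∈ F0 i0 →
      ∃ u : FreeGroup (Fin N), u.norm ≤ 5 ∧ ∃ σ : Bool, u⁻¹ • q ∈ St (i0, σ) k) :
    ∃ (c : ℕ → ℝ≥0) (c' : ℝ≥0), (∀ k, c k ≠ 0) ∧ c' ≠ 0 ∧
      Tendsto (fun k => c k • eta (s k) (hs k).ne_one) atTop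
        (𝓝 (c' • eta (FreeGroup.of i0) (primitive_of i0).ne_one)) := by
  have h1 := fun k => norm2_spec (eta_U_pos (hs k))
  have h2 := norm2_spec (eta_U_pos (primitive_of i0))
  refine ⟨_, _, fun k => (h1 k).1, h2.1, tendsto_cur (t := (i0, true)) (fun k => (h1 k).2) h2.2
    ?_ ?_⟩
  · intro m
    have hbound : ∀ k : ℕ, 1 ≤ k →
        (norm2 (eta (s k) (hs k).ne_one) • eta (s k) (hs k).ne_one).meas.real
          (BadM (i0, true) m) ≤ ((2 * m + 1) * (8 * (ball5 N).card) : ℝ) / k := by
      intro k hk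
      set ν := norm2 (eta (s k) (hs k).ne_one) • eta (s k) (hs k).ne_one with hν
      have hE : ν.meas (Ends (s k))ᶜ = 0 := by
        apply smul_real
        rw [eta_primitive (hs k), Measure.restrict_apply (measurableSet_ends (hs k).ne_one).compl]
        simp
      have h3 := mass_Bad0 ν i0 k hE (hb k)
      have h4 := mass_BadM ν i0 m
      rw [(h1 k).2] at h3
      have hfin : ν.meas (Bad0 i0) ≠ ∞ := by
        refine (lt_of_le_of_lt (measure_mono ?_) (U1_fin ν)).ne
        exact fun q hq => hq.1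
      have h5 : (k : ℝ) * ν.meas.real (Bad0 i0) ≤ 8 * (ball5 N).card := by
        have := ENNReal.toReal_mono (by
          exact ENNReal.mul_ne_top (ENNReal.natCast_ne_top _) ENNReal.ofNat_ne_top) h3
        rw [ENNReal.toReal_mul, ENNReal.toReal_mul] at this
        simp only [ENNReal.toReal_natCast, ENNReal.toReal_ofNat] at this
        push_cast at this
        calc (k : ℝ) * ν.meas.real (Bad0 i0) ≤ 4 * (ball5 N).card * 2 := this
          _ = 8 * (ball5 N).card := by ring
      have h6 : ν.meas.real (BadM (i0, true) m) ≤ (2 * m + 1) * ν.meas.real (Bad0 i0) := by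
        have := ENNReal.toReal_mono (by
          exact ENNReal.add_ne_top.mpr ⟨ENNReal.mul_ne_top (ENNReal.natCast_ne_top _) hfin, hfin⟩)
          h4
        rw [ENNReal.toReal_add (ENNReal.mul_ne_top (ENNReal.natCast_ne_top _) hfin) hfin,
          ENNReal.toReal_mul] at this
        simp only [ENNReal.toReal_natCast] at this
        push_cast at this
        calc ν.meas.real (BadM (i0, true) m) ≤ 2 * m * ν.meas.real (Bad0 i0) +
            ν.meas.real (Bad0 i0) := this
          _ = (2 * m + 1) * ν.meas.real (Bad0 i0) := by ring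
      have hk0 : (0 : ℝ) < k := by exact_mod_cast hk
      rw [le_div_iff₀ hk0]
      have hm0 : (0 : ℝ) ≤ 2 * m + 1 := by positivity
      calc ν.meas.real (BadM (i0, true) m) * k ≤ ((2 * m + 1) * ν.meas.real (Bad0 i0)) * k := by
            gcongr
        _ = (2 * m + 1) * (k * ν.meas.real (Bad0 i0)) := by ring
        _ ≤ (2 * m + 1) * (8 * (ball5 N).card) := by gcongr
    refine squeeze_zero' (Eventually.of_forall fun k => measureReal_nonneg)
      (eventually_atTop.mpr ⟨1, hbound⟩) ?_
    exact tendsto_const_div_atTop_nhds_zero_nat _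
  · intro m
    have h3 := mass_BadM (norm2 (eta (FreeGroup.of i0) (primitive_of i0).ne_one) •
      eta (FreeGroup.of i0) (primitive_of i0).ne_one) i0 m
    rw [smul_real _ _ _ (letter_bad i0), mul_zero, add_zero] at h3
    rw [Measure.real, nonpos_iff_eq_zero.mp h3]
    rfl

theorem smul_eta_ne {g : FreeGroup (Fin N)} (hg : Primitive g) {c : ℝ≥0} (hc : c ≠ 0) :
    c • eta g hg.ne_one ≠ 0 := by
  intro h
  have h1 : (c • eta g hg.ne_one).meas (U 1) = 0 := by
    rw [h, Current.zero_meas]
    simp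
  rw [Current.smul_meas, Measure.smul_apply, ENNReal.smul_def, smul_eq_mul, mul_eq_zero] at h1
  rcases h1 with h1 | h1
  · exact hc (by exact_mod_cast h1)
  · exact (eta_U_pos hg).ne' h1

theorem cls_smul {g : FreeGroup (Fin N)} (hg : Primitive g) {c : ℝ≥0} (hc : c ≠ 0) :
    PCurr.mk ⟨c • eta g hg.ne_one, smul_eta_ne hg hc⟩ = cls g hg := by
  unfold cls PCurr.mk
  apply Quotient.sound
  refine ⟨c⁻¹, inv_ne_zero hc, ?_⟩
  apply Current.ext
  rw [Current.smul_meas, Current.smul_meas, smul_smul, inv_mul_cancel₀ hc, one_smul]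

theorem continuous_pmk : Continuous (PCurr.mk : {μ : Current N // μ ≠ 0} → PCurr N) :=
  continuous_quotient_mk'

/-- Membership in the closure from a limit of scaled counting currents. -/
theorem mem_closure_classes {S : Set (FreeGroup (Fin N))} {g : FreeGroup (Fin N)}
    (hg : Primitive g) {s : ℕ → FreeGroup (Fin N)} (hs : ∀ k, Primitive (s k))
    (hS : ∀ k, s k ∈ S) {c : ℕ → ℝ≥0} {c' : ℝ≥0} (hc : ∀ k, c k ≠ 0) (hc' : c' ≠ 0)
    (h : Tendsto (fun k => c k • eta (s k) (hs k).ne_one) atTop (𝓝 (c' • eta g hg.ne_one))) :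
    cls g hg ∈ closure (classes S) := by
  have h1 : Tendsto (fun k => (⟨c k • eta (s k) (hs k).ne_one, smul_eta_ne (hs k) (hc k)⟩ :
      {μ : Current N // μ ≠ 0})) atTop (𝓝 ⟨c' • eta g hg.ne_one, smul_eta_ne hg hc'⟩) :=
    tendsto_subtype_rng.mpr h
  have h2 := (continuous_pmk.tendsto _).comp h1
  rw [cls_smul hg hc'] at h2
  refine mem_closure_of_tendsto h2 (Eventually.of_forall fun k => ?_)
  simp only [Function.comp_apply]
  rw [cls_smul (hs k) (hc k)]
  exact ⟨s k, hs k, hS k, rfl⟩

end Pool.Agent.H67R4.SR
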