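import Mathlib
import Pool.Agent.H67R4.SR.Proj

set_option autoImplicit false

/-!
# The main argument
-/

namespace Pool.Agent.H67R4.SR

open Pool.Agent.H67R3.FSR Pool.Agent.H472R3 MeasureTheory Topology Filter
open scoped ENNReal NNReal

variable {N : ℕ}

/-- Precomposition of an action with an automorphism. -/
noncomputable def preT (β : FreeGroup (Fin N) ≃* FreeGroup (Fin N)) (A : FTree N) : FTree N where
  T := A.T
  metric := A.metric
  action := MulAction.compHom A.T β.toMonoidHom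
  isometric := fun g x y => A.isometric (β g) x y
  isRTree := A.isRTree

theorem preT_len (β : FreeGroup (Fin N) ≃* FreeGroup (Fin N)) (A : FTree N)
    (g : FreeGroup (Fin N)) : (preT β A).len g = A.len (β g) := rfl

theorem preT_inCV (β : FreeGroup (Fin N) ≃* FreeGroup (Fin N)) {A : FTree N} (h : A.InCV) :
    (preT β A).InCV := by
  obtain ⟨h1, h2, h3⟩ := h
  refine ⟨?_, ?_, ?_⟩
  · intro g x hx
    have := h1 (β g) x hx
    exact (map_eq_one_iff β β.injective).mp this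
  · intro Y hY hc hi
    apply h2 Y hY hc
    intro g y hy
    have := hi (β.symm g) y hy
    have e : β (β.symm g) = g := β.apply_symm_apply g
    change (β (β.symm g)) • y ∈ Y at this
    rwa [e] at this
  · intro x
    obtain ⟨ε, hε, h⟩ := h3 x
    exact ⟨ε, hε, fun g hg => h (β g) hg⟩

theorem preT_same (β : FreeGroup (Fin N) ≃* FreeGroup (Fin N)) {A B : FTree N}
    (h : (preT β A).Same (preT β B)) : A.Same B := by
  obtain ⟨f, hf⟩ := h
  let f' : A.T ≃ᵢ B.T := f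
  refine ⟨f', fun g x => ?_⟩
  have h' : f' ((β (β.symm g) : FreeGroup (Fin N)) • (x : A.T)) =
      (β (β.symm g) : FreeGroup (Fin N)) • (f' x : B.T) := hf (β.symm g) x
  rwa [β.apply_symm_apply] at h'

theorem SpectrallyRigid.image {S : Set (FreeGroup (Fin N))} (h : SpectrallyRigid S)
    (β : FreeGroup (Fin N) ≃* FreeGroup (Fin N)) : SpectrallyRigid (β '' S) := by
  intro A B hA hB hAB
  apply preT_same β
  apply h _ _ (preT_inCV β hA) (preT_inCV β hB)
  intro g hg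
  rw [preT_len, preT_len]
  exact hAB _ ⟨g, hg, rfl⟩

theorem ends_inv (g : FreeGroup (Fin N)) : Ends g⁻¹ = Ends g := by
  have aux : ∀ g : FreeGroup (Fin N), Ends g ⊆ Ends g⁻¹ := by
    rintro g q ⟨f, hf⟩
    refine ⟨f, ?_⟩
    have e : f * g⁻¹ * f⁻¹ = (f * g * f⁻¹)⁻¹ := by group
    rw [e, inv_smul_eq_iff, hf]
  apply Set.Subset.antisymm
  · have := aux g⁻¹
    rwa [inv_inv] at this
  · exact aux g

theorem tn_inv (g : FreeGroup (Fin N)) : Tn g⁻¹ = Tn g := by
  unfold Tn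
  rw [ends_inv]

/-- Inversion of all the letters. -/
def flipHom : FreeGroup (Fin N) →* FreeGroup (Fin N) := FreeGroup.lift fun j => (FreeGroup.of j)⁻¹

theorem flipHom_comp : (flipHom : FreeGroup (Fin N) →* FreeGroup (Fin N)).comp flipHom =
    MonoidHom.id _ := by
  apply FreeGroup.ext_hom
  intro i
  simp [flipHom]

def flipAut : FreeGroup (Fin N) ≃* FreeGroup (Fin N) :=
  MonoidHom.toMulEquiv flipHom flipHom flipHom_comp flipHom_comp

theorem Primitive.inv {g : FreeGroup (Fin N)} (h : Primitive g) : Primitive g⁻¹ := by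
  have hN : ∃ _ : Fin N, True := by
    obtain ⟨b, i, _⟩ := h
    exact ⟨i, trivial⟩
  obtain ⟨i0, _⟩ := hN
  obtain ⟨φ, hφ⟩ := h.exists_aut i0
  have := primitive_aut (flipAut.trans φ) i0
  have e : (flipAut.trans φ) (FreeGroup.of i0) = g⁻¹ := by
    rw [MulEquiv.trans_apply]
    have : (flipAut : FreeGroup (Fin N) ≃* FreeGroup (Fin N)) (FreeGroup.of i0) =
        (FreeGroup.of i0)⁻¹ := by
      change flipHom (FreeGroup.of i0) = _
      simp [flipHom]
    rw [this, map_inv, hφ]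
  rwa [e] at this

/-- The dichotomy. -/
def Dich (i0 : Fin N) : Prop :=
  ∃ i2 : Fin N, ∀ m : ℕ, ∃ ψ : FreeGroup (Fin N) ≃* FreeGroup (Fin N),
    ∀ v : FreeGroup (Fin N), Primitive v →
      (∃ (s : Bool), ∃ q ∈ Ends (ψ v), q ∈ Near (i2, s) m) ∨ GG i0 v

theorem near_anti {t : Lt N} {m m' : ℕ} (h : m ≤ m') : Near t m' ⊆ Near t m :=
  fun _ hq => ⟨fun j hj => hq.1 j (by omega), fun j hj => hq.2 j (by omega)⟩

theorem line_case {i0 : Fin N} {k : ℕ} {v : FreeGroup (Fin N)} (hG : GG i0 v)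
    (hG' : GG i0 v⁻¹) (hne : Dt i0 k v ≠ 1) {q : Bd2 N} (hq : q ∈ Ends (Dt i0 k v))
    (hF : q ∈ F0 i0) :
    ∃ u : FreeGroup (Fin N), u.norm ≤ 5 ∧ ∃ s : Bool, u⁻¹ • q ∈ St (i0, s) (k - 1) := by
  obtain ⟨f, hf⟩ := hq
  obtain ⟨hU, hF⟩ := hF
  rw [mem_U] at hU
  have hne1 : f * Dt i0 k v * f⁻¹ ≠ 1 := by
    intro he
    apply hne
    rwa [mul_inv_eq_one, mul_eq_left] at he
  obtain ⟨a, l, hw⟩ := exists_cons hne1
  have f1 : (f * Dt i0 k v * f⁻¹) • q.1.1 = q.1.1 := by rw [← smul_fst, hf]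
  have f2 : (f * Dt i0 k v * f⁻¹) • q.1.2 = q.1.2 := by rw [← smul_snd, hf]
  have hcyc := cyc_of_fixed hw f1 f2 hU
  by_cases hx : q.1.2.1 1 = a
  · have hrep : Rep (Dt i0 k v) (a :: l) := by
      refine ⟨by simp, ?_, ?_⟩
      · rw [cyc_iff, ← hw]; exact hcyc
      · rw [← hw, FreeGroup.mk_toWord, isConj_iff]
        exact ⟨f, rfl⟩
    refine line_start hG (x := a) (l := l) (by rw [← hx]; exact hF) hrep ?_ hx ?_
    · rw [← hw, FreeGroup.mk_toWord]
      exact hf
    · rw [← hx]; exact hU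
  · have h3 := fixed_one hw f2 hx
    obtain ⟨m, hm⟩ := toWord_inv_cons hw
    rw [← h3] at hm
    have g1 : (f * Dt i0 k v * f⁻¹)⁻¹ • q.1.1 = q.1.1 := by rw [inv_smul_eq_iff, f1]
    have g2 : (f * Dt i0 k v * f⁻¹)⁻¹ • q.1.2 = q.1.2 := by rw [inv_smul_eq_iff, f2]
    have hcyc' := cyc_of_fixed hm g1 g2 hU
    have hrep : Rep (Dt i0 k v⁻¹) (q.1.2.1 1 :: m) := by
      refine ⟨by simp, ?_, ?_⟩
      · rw [cyc_iff, ← hm]; exact hcyc'
      · rw [← hm, FreeGroup.mk_toWord, isConj_iff]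
        refine ⟨f, ?_⟩
        rw [map_inv]
        group
    refine line_start hG' (x := q.1.2.1 1) (l := m) hF hrep ?_ rfl hU
    rw [← hm, FreeGroup.mk_toWord, inv_smul_eq_iff, hf]

theorem main_of_dich (hN : 2 ≤ N) {i0 : Fin N} (hD : Dich i0) {S : Set (FreeGroup (Fin N))}
    (hS : ∀ s ∈ S, Primitive s) (hrig : SpectrallyRigid S) {g : FreeGroup (Fin N)}
    (hg : Primitive g) : cls g hg ∈ closure (classes S) := by
  classical
  obtain ⟨w0, hw0, hnon⟩ := exists_nonrigid hN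
  obtain ⟨i2, hD⟩ := hD
  obtain ⟨Φ, hΦ⟩ := hw0.exists_aut i2
  obtain ⟨m1, hm1⟩ := turns_of_power Φ (i2, true)
  obtain ⟨m2, hm2⟩ := turns_of_power Φ (i2, false)
  obtain ⟨ψ, hψ⟩ := hD (max m1 m2)
  obtain ⟨α, hα⟩ := hg.exists_aut i0
  set S0 : Set (FreeGroup (Fin N)) := α.symm '' S with hS0
  have hS0p : ∀ x ∈ S0, Primitive x := by
    rintro _ ⟨s, hs, rfl⟩
    exact (hS s hs).map α.symm
  have hrig0 : SpectrallyRigid S0 := hrig.image α.symm
  have hmain : ∀ v, Primitive v → (∃ (s : Bool), ∃ q ∈ Ends (ψ v), q ∈ Near (i2, s) (max m1 m2)) →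
      Tn w0 ⊆ Tn (Φ (ψ v)) := by
    rintro v _ ⟨s, q, hq1, hq2⟩
    cases s
    · have := hm2 (ψ v) q (near_anti (le_max_right _ _) hq2) hq1
      rw [lt_false, map_inv, hΦ, tn_inv] at this
      exact this
    · have := hm1 (ψ v) q (near_anti (le_max_left _ _) hq2) hq1
      rw [lt_true, hΦ] at this
      exact this
  have hex : ∀ k : ℕ, ∃ x ∈ S0, ¬ Tn w0 ⊆ Tn (Φ (ψ ((Dt i0 (k + 1)).symm x))) := by
    intro k
    by_contra hc
    push Not at hc
    let θ : FreeGroup (Fin N) ≃* FreeGroup (Fin N) :=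
      ((Dt i0 (k + 1)).symm.trans ψ).trans Φ
    apply hnon (θ '' S0) ?_ (hrig0.image θ)
    rintro _ ⟨x, hx, rfl⟩
    exact ⟨(hS0p x hx).map θ, hc x hx⟩
  choose x hx1 hx2 using hex
  have hxp : ∀ k, Primitive (x k) := fun k => hS0p _ (hx1 k)
  have hb : ∀ k, ∀ q ∈ Ends (x k), q ∈ F0 i0 →
      ∃ u : FreeGroup (Fin N), u.norm ≤ 5 ∧ ∃ σ : Bool, u⁻¹ • q ∈ St (i0, σ) k := by
    intro k q hq hF
    set v := (Dt i0 (k + 1)).symm (x k) with hv
    have hvp : Primitive v := (hxp k).map _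
    have hvx : Dt i0 (k + 1) v = x k := (Dt i0 (k + 1)).apply_symm_apply (x k)
    have hG : GG i0 v := by
      rcases hψ v hvp with h | h
      · exact absurd (hmain v hvp h) (hx2 k)
      · exact h
    have hG' : GG i0 v⁻¹ := by
      rcases hψ v⁻¹ hvp.inv with h | h
      · have h1 := hmain v⁻¹ hvp.inv h
        rw [map_inv, map_inv, tn_inv] at h1
        exact absurd h1 (hx2 k)
      · exact h
    have := line_case (k := k + 1) hG hG' (by rw [hvx]; exact (hxp k).ne_one)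
      (q := q) (by rw [hvx]; exact hq) hF
    exact this
  obtain ⟨c, c', hc, hc', hlim⟩ := key_limit i0 x hxp hb
  have hpush : Tendsto (fun k => c k • eta (α (x k)) ((hxp k).map α).ne_one) atTop
      (𝓝 (c' • eta (α (FreeGroup.of i0)) ((primitive_of i0).map α).ne_one)) := by
    have h1 := pushC_tendsto α hlim
    have h2 := pushC_eta α (primitive_of i0) c'
    rw [← h2]
    refine h1.congr fun k => ?_
    exact pushC_eta α (hxp k) (c k)
  have hsub : ∀ k, α (x k) ∈ S := by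
    intro k
    obtain ⟨s, hs, hsx⟩ := hx1 k
    rw [← hsx, MulEquiv.apply_symm_apply]
    exact hs
  have := mem_closure_classes (S := S) ((primitive_of i0).map α) (fun k => (hxp k).map α) hsub hc
    hc' hpush
  have e : cls (α (FreeGroup.of i0)) ((primitive_of i0).map α) = cls g hg := by
    subst hα
    rfl
  rwa [e] at this

end Pool.Agent.H67R4.SR
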