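import Mathlib
import Pool.Agent.H67R4.SR.Key

set_option autoImplicit false

/-!
# The dichotomy in all ranks
-/

namespace Pool.Agent.H67R4.SR

open Pool.Agent.H67R3.FSR

variable {N : ℕ}

theorem short_block {i0 : Fin N} {z : Lt N} {w : List (Lt N)} {bs : List (Blk N)}
    {L : List (Lt N)} (he : wd ((z, w) :: bs) = z :: L)
    (ok : ∀ p ∈ (z, w) :: bs, Ok (fun i => i = i0) p)
    (h : ∀ y y' R, L = y :: y' :: R → y.1 = i0 ∨ y'.1 = i0) : w.length ≤ 1 := by
  match w, he, ok with
  | [], _, _ => simp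
  | [_], _, _ => simp
  | y :: y' :: w', he, ok =>
    exfalso
    rw [wd_cons] at he
    simp only [List.cons_append, List.cons.injEq, true_and] at he
    have h1 := (ok (z, y :: y' :: w') (by simp)).2
    rcases h y y' _ he.symm with h2 | h2
    · exact h1 y (by simp) h2
    · exact h1 y' (by simp) h2

/-- A condition which produces a large power from a short gap between letters `i0`. -/
def Pat (i0 : Fin N) (v : FreeGroup (Fin N)) (P : Prop) : Prop :=
  ∀ (z : Lt N) (L : List (Lt N)), z.1 = i0 → Rep v (z :: L) →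
    (∀ y y' R, L = y :: y' :: R → y.1 = i0 ∨ y'.1 = i0) → P

theorem same_letter {i0 : Fin N} {a b : Lt N} (ha : a.1 = i0) (hb : b.1 = i0)
    (h : b ≠ inv' a) : b = a := by
  obtain ⟨i, s⟩ := a
  obtain ⟨j, t⟩ := b
  simp only at ha hb
  subst ha
  subst hb
  cases s <;> cases t <;> simp [inv'] at h ⊢

theorem i0_of_not {i0 : Fin N} {p : Blk N} (ok : Ok (fun i => i ≠ i0) p) {z : Lt N}
    (hz : z ∈ p.2) : z.1 = i0 := by
  by_contra h
  exact ok.2 z hz h

/-- If there is no short gap then the twists can be applied. -/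
theorem GG_of_pat {i0 : Fin N} {v : FreeGroup (Fin N)} (h : Pat i0 v False) : GG i0 v := by
  intro p bs ok hrep
  have hp := ok p (by simp)
  have hlen : p.2.length ≤ 1 := by
    by_contra hc
    push Not at hc
    match hp2 : p.2, hc with
    | z1 :: z2 :: R, _ =>
      have hz1 : z1.1 = i0 := i0_of_not hp (by rw [hp2]; simp)
      have hz2 : z2.1 = i0 := i0_of_not hp (by rw [hp2]; simp)
      have e : wd (p :: bs) = [p.1] ++ (z1 :: z2 :: (R ++ wd bs)) := by
        rw [wd_cons, hp2]; rfl
      rw [e] at hrep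
      have h5 : Rep v (z1 :: (z2 :: (R ++ wd bs ++ [p.1]))) := by
        have := hrep.rot
        simpa using this
      refine h z1 _ hz1 h5 ?_
      intro y y' R' he
      left
      rw [List.cons.injEq] at he
      rw [← he.1]
      exact hz2
  refine ⟨hlen, ?_⟩
  by_contra hc
  push Not at hc
  obtain ⟨h1, h2, _⟩ := hc
  obtain ⟨z1, hz1⟩ : ∃ z1, p.2 = [z1] := by
    match hp2 : p.2, h1, hlen with
    | [z], _, _ => exact ⟨z, rfl⟩
  have hz1' : z1.1 = i0 := i0_of_not hp (by rw [hz1]; simp)
  cases bs with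
  | nil =>
    have e : wd [p] = [p.1] ++ [z1] := by
      rw [wd_cons, hz1, wd_nil]; rfl
    rw [e] at hrep
    refine h z1 _ hz1' hrep.rot ?_
    intro y y' R' he
    simp at he
  | cons q cs =>
    have hq := ok q (by simp)
    simp only [List.headD_cons] at h2
    obtain ⟨z2, R2, hz2⟩ := List.exists_cons_of_ne_nil h2
    have hz2' : z2.1 = i0 := i0_of_not hq (by rw [hz2]; simp)
    have e : wd (p :: q :: cs) = [p.1] ++ (z1 :: q.1 :: z2 :: (R2 ++ wd cs)) := by
      rw [wd_cons, hz1, wd_cons, hz2]; rfl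
    rw [e] at hrep
    have h5 : Rep v (z1 :: (q.1 :: z2 :: (R2 ++ wd cs ++ [p.1]))) := by
      have := hrep.rot
      simpa using this
    refine h z1 _ hz1' h5 ?_
    intro y y' R' he
    right
    rw [List.cons.injEq, List.cons.injEq] at he
    rw [← he.2.1]
    exact hz2'

section Three

variable (i0 i1 : Fin N)

def lamB (y : Lt N) : FreeGroup (Fin N) := lt (i1, y.2)

theorem lamB_ZG (h : i1 ≠ i0) (y : Lt N) (_ : y.1 = i0) : ZG (fun i => i = i0) (lamB i1 y) := by
  intro z hz
  unfold lamB at hz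
  rw [show (lt (i1, y.2) : FreeGroup (Fin N)).toWord = [(i1, y.2)] from toWord_mk_red (by
    unfold FreeGroup.IsReduced; simp), List.mem_singleton] at hz
  subst hz
  exact h

theorem bracket_head {i0 i1 : Fin N} {a b : Lt N} (ha : a.1 = i0)
    (hb : b.1 = i0) {w : List (Lt N)} (hw : ∀ z ∈ w, z.1 ≠ i0) (hl : w.length ≤ 1)
    (hne : w = [] → b ≠ inv' a) :
    ∃ (s : Bool) (R : List (Lt N)),
      ((lamB i1 (inv' a))⁻¹ * FreeGroup.mk w * lamB i1 b).toWord = (i1, s) :: R := by
  have e1 : (lamB i1 (inv' a))⁻¹ = lt (i1, a.2) := by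
    unfold lamB
    rw [← Pool.Agent.H67R3.FSR.lt_inv']
    simp [inv']
  have sgn : ∀ s : Bool, ∃ e : ℤ, (e = 1 ∨ e = -1) ∧
      (lt (i1, s) : FreeGroup (Fin N)) = FreeGroup.of i1 ^ e := by
    intro s
    cases s
    · exact ⟨-1, Or.inr rfl, by rw [lt_false, zpow_neg_one]⟩
    · exact ⟨1, Or.inl rfl, by rw [lt_true, zpow_one]⟩
  have fin : ∀ e : ℤ, e ≠ 0 → ∃ (s : Bool) (R : List (Lt N)),
      (FreeGroup.of i1 ^ e : FreeGroup (Fin N)).toWord = (i1, s) :: R := by
    intro e he
    rw [toWord_zpow]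
    obtain ⟨n, hn⟩ := Nat.exists_eq_succ_of_ne_zero (Int.natAbs_ne_zero.mpr he)
    rw [hn, List.replicate_succ]
    exact ⟨_, _, rfl⟩
  rw [e1]
  match w, hw, hl, hne with
  | [], _, _, hne =>
    have hab : b = a := same_letter ha hb (hne rfl)
    subst hab
    unfold lamB
    obtain ⟨e, he, h1⟩ := sgn b.2
    have h2 : lt (i1, b.2) * FreeGroup.mk [] * lt (i1, b.2) =
        (FreeGroup.of i1 ^ (e + e) : FreeGroup (Fin N)) := by
      change _ * 1 * _ = _
      rw [mul_one, h1, zpow_add]
    rw [h2]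
    exact fin _ (by rcases he with rfl | rfl <;> norm_num)
  | [y], _, _, _ =>
    unfold lamB
    by_cases hy : y.1 = i1
    · obtain ⟨j, t⟩ := y
      simp only at hy
      subst hy
      obtain ⟨e, he, h1⟩ := sgn a.2
      obtain ⟨e', he', h1'⟩ := sgn b.2
      obtain ⟨e'', he'', h1''⟩ := sgn t
      have h2 : lt (j, a.2) * FreeGroup.mk [(j, t)] * lt (j, b.2) =
          (FreeGroup.of j ^ (e + e'' + e') : FreeGroup (Fin N)) := by
        change lt (j, a.2) * lt (j, t) * lt (j, b.2) = _
        rw [h1, h1', h1'', zpow_add, zpow_add]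
      rw [h2]
      exact fin _ (by
        rcases he with rfl | rfl <;> rcases he' with rfl | rfl <;> rcases he'' with rfl | rfl <;>
          norm_num)
    · have hr : FreeGroup.IsReduced [(i1, a.2), y, (i1, b.2)] := by
        unfold FreeGroup.IsReduced
        simp only [List.isChain_cons_cons, List.isChain_singleton, and_true]
        refine ⟨fun h => absurd h.symm hy, fun h => absurd h hy⟩
      have h2 : lt (i1, a.2) * FreeGroup.mk [y] * lt (i1, b.2) =
          (FreeGroup.mk [(i1, a.2), y, (i1, b.2)] : FreeGroup (Fin N)) := by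
        unfold lt
        rw [FreeGroup.mul_mk, FreeGroup.mul_mk]
        rfl
      rw [h2, toWord_mk_red hr]
      exact ⟨_, _, rfl⟩

theorem dich_three {i0 i1 i2 : Fin N} (h01 : i1 ≠ i0) (h02 : i0 ≠ i2) (h12 : i1 ≠ i2) :
    Dich i0 := by
  refine ⟨i2, fun m => ⟨(thE (fun i => i = i0) (lamB i1) (lamB_ZG i0 i1 h01)).trans
    (Dt i2 (2 * m + 1)), fun v _ => ?_⟩⟩
  by_cases hn : ∃ (s : Bool), ∃ q ∈ Ends (((thE (fun i => i = i0) (lamB i1)
      (lamB_ZG i0 i1 h01)).trans (Dt i2 (2 * m + 1))) v), q ∈ Near (i2, s) m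
  · exact Or.inl hn
  right
  apply GG_of_pat
  intro z L hz hrep hgap
  apply hn
  obtain ⟨w, bs, e1, ok, rd, ch⟩ := hrep.blocks (fun i => i = i0) hz
  have hw := short_block e1 ok hgap
  rw [← e1] at hrep
  have hfr : w = [] → hd z bs ≠ inv' z := fun h => first_rl (Y := fun i => i = i0) hrep ok h
  have h3 := Rep.twist (fun i => i = i0) (lamB i1) (lamB_ZG i0 i1 h01) hrep ok
  simp only [tw] at h3
  rw [wd_cons] at h3
  have hb : (hd z bs).1 = i0 := by
    cases bs with
    | nil => exact hz
    | cons b bs => exact (ok b (by simp)).1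
  obtain ⟨s, R, hR⟩ := bracket_head (i1 := i1) hz hb (w := w)
    (fun y hy => (ok (z, w) (by simp)).2 y hy) hw hfr
  simp only at h3
  rw [hR] at h3
  rw [MulEquiv.trans_apply, thE_apply]
  exact twist_pair (i0 := i2) (y1 := z) (y2 := (i1, s)) (by omega) h3 (by rw [hz]; exact h02) h12

end Three

theorem compat_consec {v : FreeGroup (Fin N)} {x : Lt N} {col : Lt N → Bool}
    (hc : ∀ (z : Lt N) (R : List (Lt N)) (y : Lt N), Rep v (z :: R) →
        (z :: R).getLast? = some y → Compat x col y z) {P S : List (Lt N)} {y z : Lt N}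
    (h : Rep v (P ++ y :: z :: S)) : Compat x col y z := by
  have h1 : Rep v ((P ++ [y]) ++ (z :: S)) := by
    simpa using h
  refine hc z (S ++ (P ++ [y])) y (by simpa using h1.rot) ?_
  rw [← List.cons_append, ← List.append_assoc, List.getLast?_append]
  rfl

/-- A short gap between two equal letters `i0`, in rank two. -/
theorem pat_two {i0 i1 : Fin N} (h01 : i1 ≠ i0) {m : ℕ}
    {v : FreeGroup (Fin N)} {z : Lt N} {w : List (Lt N)} {R : List (Lt N)} (hz : z.1 = i0)
    (hw : ∀ y ∈ w, y.1 = i1) (hl : w.length ≤ 1)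
    (h : Rep v (z :: (w ++ R))) (hR : (R ++ [z]).head? = some z) :
    ∃ (s : Bool), ∃ q ∈ Ends (Dt i1 (2 * m + 1) v), q ∈ Near (i1, s) m := by
  have hz1 : z.1 ≠ i1 := by rw [hz]; exact h01.symm
  obtain ⟨w', bs, e1, ok, rd, ch⟩ := h.blocks (fun i => i ≠ i1) hz1
  -- identify the first block
  have key : w' = w ∧ wd bs = R := by
    have h1 := e1
    rw [wd_cons] at h1
    simp only [List.cons_append, List.cons.injEq, true_and] at h1
    have hw' : ∀ y ∈ w', y.1 = i1 := by
      intro y hy
      by_contra hc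
      exact (ok (z, w') (by simp)).2 y hy hc
    have hhead1 : ∀ y ∈ (wd bs).head?, y.1 ≠ i1 := by
      intro y hy
      cases bs with
      | nil => simp [wd_nil] at hy
      | cons b bs =>
        rw [wd_cons] at hy
        simp only [List.cons_append, List.head?_cons, Option.mem_def, Option.some.injEq] at hy
        rw [← hy]
        exact (ok b (by simp)).1
    have hhead2 : ∀ y ∈ R.head?, y.1 ≠ i1 := by
      intro y hy
      cases R with
      | nil => simp at hy
      | cons b R =>
        simp only [List.cons_append, List.head?_cons, Option.some.injEq] at hR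
        simp only [List.head?_cons, Option.mem_def, Option.some.injEq] at hy
        rw [← hy, hR]
        exact hz1
    clear e1 ok rd ch h hR hl
    induction w' generalizing w with
    | nil =>
      cases w with
      | nil => exact ⟨rfl, h1⟩
      | cons y w =>
        exfalso
        simp only [List.nil_append] at h1
        rw [h1] at hhead1
        exact hhead1 y rfl (hw y (by simp))
    | cons a w' ih =>
      cases w with
      | nil =>
        exfalso
        simp only [List.nil_append, List.cons_append] at h1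
        rw [← h1] at hhead2
        exact hhead2 a rfl (hw' a (by simp))
      | cons y w =>
        simp only [List.cons_append, List.cons.injEq] at h1
        obtain ⟨h2, h3⟩ := ih (fun b hb => hw b (List.mem_cons_of_mem _ hb)) h1.2
          (fun b hb => hw' b (List.mem_cons_of_mem _ hb))
        exact ⟨by rw [h1.1, h2], h3⟩
  rw [← e1] at h
  refine twist_block (le_refl _) h ok ?_ (by rw [key.1]; exact hl)
  have hhd : hd z bs = z := by
    cases bs with
    | nil => rfl
    | cons b bs =>
      have h1 := key.2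
      rw [wd_cons] at h1
      rw [← h1] at hR
      simp only [List.cons_append, List.head?_cons, Option.some.injEq] at hR
      exact hR
  simp only
  rw [hhd]
  exact (inv'_ne z).symm

theorem four_cycle {i0 i1 : Fin N} (hN : ∀ i : Fin N, i = i0 ∨ i = i1)
    {x : Lt N} {col : Lt N → Bool} {z q r : Lt N} (hz : z.1 = i0) (hq : q.1 = i1)
    (hr : r.1 = i1) (c1 : Compat x col z q) (c2 : Compat x col q (inv' z))
    (c3 : Compat x col (inv' z) r) (c4 : Compat x col r z)
    (hp : ∃ p, p ≠ x ∧ col p = true) (hq' : ∃ p, p ≠ x ∧ col p = false) : False := by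
  unfold Compat at c1 c2 c3 c4
  rw [inv'_inv'] at c3
  have hrq : r = q ∨ r = inv' q := by
    by_cases h : r = inv' q
    · exact Or.inr h
    · exact Or.inl (same_letter hq hr h)
  have d3 : z ≠ x → q ≠ x → col z = col q := by
    intro h1 h2
    rcases hrq with rfl | rfl
    · exact c3 h1 h2
    · rw [inv'_inv'] at c4
      exact (c4 h2 h1).symm
  have d4 : z ≠ x → inv' q ≠ x → col z = col (inv' q) := by
    intro h1 h2
    rcases hrq with rfl | rfl
    · exact (c4 h2 h1).symm
    · exact c3 h1 h2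
  have all : ∀ d : Lt N, d = z ∨ d = inv' z ∨ d = q ∨ d = inv' q := by
    intro d
    rcases hN d.1 with h | h
    · by_cases h1 : d = inv' z
      · exact Or.inr (Or.inl h1)
      · exact Or.inl (same_letter hz h h1)
    · by_cases h1 : d = inv' q
      · exact Or.inr (Or.inr (Or.inr h1))
      · exact Or.inr (Or.inr (Or.inl (same_letter hq h h1)))
  have c2' : inv' q ≠ x → inv' z ≠ x → col (inv' q) = col (inv' z) := c2
  obtain ⟨a, ha, ha'⟩ := hp
  obtain ⟨b, hb, hb'⟩ := hq'
  have A : ∀ d e : Lt N, (d = z ∨ d = inv' z) → (e = q ∨ e = inv' q) → d ≠ x → e ≠ x →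
      col d = col e := by
    rintro d e (rfl | rfl) (rfl | rfl) h1 h2
    · exact d3 h1 h2
    · exact d4 h1 h2
    · exact c1 h1 h2
    · exact (c2' h2 h1).symm
  have exq : ∃ e, (e = q ∨ e = inv' q) ∧ e ≠ x := by
    by_cases h : q = x
    · exact ⟨inv' q, Or.inr rfl, fun h' => inv'_ne q (h'.trans h.symm)⟩
    · exact ⟨q, Or.inl rfl, h⟩
  have exz : ∃ e, (e = z ∨ e = inv' z) ∧ e ≠ x := by
    by_cases h : z = x
    · exact ⟨inv' z, Or.inr rfl, fun h' => inv'_ne z (h'.trans h.symm)⟩
    · exact ⟨z, Or.inl rfl, h⟩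
  obtain ⟨eq, heq, heqx⟩ := exq
  obtain ⟨ez, hez, hezx⟩ := exz
  have tocolor : ∀ d : Lt N, d ≠ x → col d = col eq := by
    intro d hd
    rcases all d with h | h | h | h
    · exact A d eq (Or.inl h) heq hd heqx
    · exact A d eq (Or.inr h) heq hd heqx
    · exact (A ez d hez (Or.inl h) hezx hd).symm.trans (A ez eq hez heq hezx heqx)
    · exact (A ez d hez (Or.inr h) hezx hd).symm.trans (A ez eq hez heq hezx heqx)
  have := (tocolor a ha).trans (tocolor b hb).symm
  rw [ha', hb'] at this
  exact Bool.noConfusion this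

theorem dich_two {i0 i1 : Fin N} (hN2 : 2 ≤ N) (h01 : i1 ≠ i0)
    (hN : ∀ i : Fin N, i = i0 ∨ i = i1) : Dich i0 := by
  refine ⟨i1, fun m => ⟨Dt i1 (2 * m + 1), fun v hv => ?_⟩⟩
  by_cases hn : ∃ (s : Bool), ∃ q ∈ Ends (Dt i1 (2 * m + 1) v), q ∈ Near (i1, s) m
  · exact Or.inl hn
  right
  obtain ⟨φ, hφ⟩ := hv.exists_aut i0
  obtain ⟨x, col, hp, hq, hc⟩ := cut hN2 φ i0 hφ
  have hY : ∀ i : Fin N, i ≠ i0 → i = i1 := fun i hi => (hN i).resolve_left hi
  intro p bs ok hrep
  have hpO := ok p (by simp)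
  -- no two consecutive equal letters
  have noPat : ∀ (z : Lt N) (w R : List (Lt N)), z.1 = i0 → (∀ y ∈ w, y.1 = i1) →
      w.length ≤ 1 → Rep v (z :: (w ++ R)) → (R ++ [z]).head? = some z → False :=
    fun z w R h1 h2 h3 h4 h5 => hn (pat_two h01 h1 h2 h3 h4 h5)
  have hlen : p.2.length ≤ 1 := by
    by_contra hc'
    push Not at hc'
    match hp2 : p.2, hc' with
    | z1 :: z2 :: R, _ =>
      have hz1 : z1.1 = i0 := i0_of_not hpO (by rw [hp2]; simp)
      have hz2 : z2.1 = i0 := i0_of_not hpO (by rw [hp2]; simp)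
      have e : wd (p :: bs) = [p.1] ++ (z1 :: z2 :: (R ++ wd bs)) := by
        rw [wd_cons, hp2]; rfl
      rw [e] at hrep
      have h5 : Rep v (z1 :: ([] ++ (z2 :: (R ++ wd bs ++ [p.1])))) := by
        have := hrep.rot
        simpa using this
      have hz : z2 = z1 := by
        apply same_letter hz1 hz2
        have h6 := (cyc_iff.mp h5.2.1).isReduced
        unfold FreeGroup.IsReduced at h6
        rw [List.nil_append, List.isChain_cons_cons] at h6
        have h7 := h6.1
        rwa [reduced_iff] at h7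
      exact noPat z1 [] _ hz1 (by simp) (by simp) h5 (by rw [hz]; rfl)
  refine ⟨hlen, ?_⟩
  by_contra hc'
  push Not at hc'
  obtain ⟨h1, h2, h3⟩ := hc'
  obtain ⟨z1, hz1⟩ : ∃ z1, p.2 = [z1] := by
    match hp2 : p.2, h1, hlen with
    | [z], _, _ => exact ⟨z, rfl⟩
  have hz1' : z1.1 = i0 := i0_of_not hpO (by rw [hz1]; simp)
  have hp1 : p.1.1 = i1 := hY _ hpO.1
  cases bs with
  | nil =>
    have e : wd [p] = [p.1] ++ [z1] := by
      rw [wd_cons, hz1, wd_nil]; rfl
    rw [e] at hrep
    have h5 : Rep v (z1 :: ([p.1] ++ [])) := by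
      have := hrep.rot
      simpa using this
    exact noPat z1 [p.1] [] hz1' (by simpa using hp1) (by simp) h5 rfl
  | cons q cs =>
    have hqO := ok q (by simp)
    have hq1 : q.1.1 = i1 := hY _ hqO.1
    simp only [List.headD_cons] at h2
    obtain ⟨z2, R2, hz2⟩ := List.exists_cons_of_ne_nil h2
    have hz2' : z2.1 = i0 := i0_of_not hqO (by rw [hz2]; simp)
    have e : wd (p :: q :: cs) = [p.1] ++ (z1 :: q.1 :: z2 :: (R2 ++ wd cs)) := by
      rw [wd_cons, hz1, wd_cons, hz2]; rfl
    have hrep1 : Rep v (z1 :: ([q.1] ++ (z2 :: (R2 ++ wd cs ++ [p.1])))) := by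
      have h6 := hrep
      rw [e] at h6
      have := h6.rot
      simpa using this
    have hz12 : z2 = inv' z1 := by
      by_contra hne
      have hz : z2 = z1 := same_letter hz1' hz2' hne
      exact noPat z1 [q.1] _ hz1' (by simpa using hq1) (by simp) hrep1 (by rw [hz]; rfl)
    have c1 : Compat x col z1 q.1 := by
      apply compat_consec hc (P := []) (S := z2 :: (R2 ++ wd cs ++ [p.1]))
      simpa using hrep1
    have c2 : Compat x col q.1 (inv' z1) := by
      rw [← hz12]
      apply compat_consec hc (P := [z1]) (S := R2 ++ wd cs ++ [p.1])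
      simpa using hrep1
    -- the rotated block list
    have hrepq : Rep v (wd (q :: (cs ++ [p]))) := by
      have : Rep v (wd ([p] ++ (q :: cs))) := hrep
      exact this.rotB
    -- the next block
    obtain ⟨r, ds, hds, hr3⟩ : ∃ r ds, cs ++ [p] = r :: ds ∧ r.2 ≠ [] := by
      cases cs with
      | nil => exact ⟨p, [], rfl, h1⟩
      | cons r ds => exact ⟨r, ds ++ [p], rfl, by simpa using h3⟩
    have hrO : Ok (fun i => i ≠ i0) r := by
      have : r ∈ cs ++ [p] := by rw [hds]; simp
      apply ok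
      simp only [List.mem_append, List.mem_cons, List.not_mem_nil, or_false] at this ⊢
      tauto
    have hr1 : r.1.1 = i1 := hY _ hrO.1
    obtain ⟨z3, R3, hz3⟩ := List.exists_cons_of_ne_nil hr3
    have hz3' : z3.1 = i0 := i0_of_not hrO (by rw [hz3]; simp)
    have hR2 : R2 = [] := by
      by_contra hne
      obtain ⟨z4, R4, hR4⟩ := List.exists_cons_of_ne_nil hne
      have hz4' : z4.1 = i0 := i0_of_not hqO (by rw [hz2, hR4]; simp)
      have e2 : wd (q :: (cs ++ [p])) = [q.1] ++ (z2 :: z4 :: (R4 ++ wd (cs ++ [p]))) := by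
        rw [wd_cons, hz2, hR4]; rfl
      rw [e2] at hrepq
      have h5 : Rep v (z2 :: ([] ++ (z4 :: (R4 ++ wd (cs ++ [p]) ++ [q.1])))) := by
        have := hrepq.rot
        simpa using this
      have hz : z4 = z2 := by
        apply same_letter hz2' hz4'
        have h6 := (cyc_iff.mp h5.2.1).isReduced
        unfold FreeGroup.IsReduced at h6
        rw [List.nil_append, List.isChain_cons_cons] at h6
        have h7 := h6.1
        rwa [reduced_iff] at h7
      exact noPat z2 [] _ hz2' (by simp) (by simp) h5 (by rw [hz]; rfl)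
    have e3 : wd (q :: (cs ++ [p])) = [q.1] ++ (z2 :: r.1 :: z3 :: (R3 ++ wd ds)) := by
      rw [wd_cons, hz2, hR2, hds, wd_cons, hz3]; rfl
    have hrep2 : Rep v (z2 :: ([r.1] ++ (z3 :: (R3 ++ wd ds ++ [q.1])))) := by
      have h6 := hrepq
      rw [e3] at h6
      have := h6.rot
      simpa using this
    have hz23 : z3 = inv' z2 := by
      by_contra hne
      have hz : z3 = z2 := same_letter hz2' hz3' hne
      exact noPat z2 [r.1] _ hz2' (by simpa using hr1) (by simp) hrep2 (by rw [hz]; rfl)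
    have c3 : Compat x col (inv' z1) r.1 := by
      rw [← hz12]
      apply compat_consec hc (P := []) (S := z3 :: (R3 ++ wd ds ++ [q.1]))
      simpa using hrep2
    have hz13 : z3 = z1 := by rw [hz23, hz12, inv'_inv']
    have c4 : Compat x col r.1 z1 := by
      rw [← hz13]
      apply compat_consec hc (P := [z2]) (S := R3 ++ wd ds ++ [q.1])
      simpa using hrep2
    exact four_cycle hN hz1' hq1 hr1 c1 c2 c3 c4 hp hq

theorem dich_all (hN : 2 ≤ N) : Dich (⟨0, by omega⟩ : Fin N) := by
  by_cases h3 : 3 ≤ N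
  · apply dich_three (i1 := ⟨1, by omega⟩) (i2 := ⟨2, by omega⟩)
    · simp
    · simp
    · simp
  · apply dich_two (i1 := ⟨1, by omega⟩) hN
    · simp
    · intro i
      have := i.2
      rcases Nat.lt_or_ge i.1 1 with h | h
      · left; exact Fin.ext (by simp; omega)
      · right; exact Fin.ext (by simp; omega)

/-- A spectrally rigid set of primitive elements is dense. -/
theorem rigid_dense (hN : 2 ≤ N) {S : Set (FreeGroup (Fin N))} (hS : ∀ s ∈ S, Primitive s)
    (hrig : SpectrallyRigid S) :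
    closure (classes S) = closure (classes {g : FreeGroup (Fin N) | Primitive g}) := by
  apply Set.Subset.antisymm
  · apply closure_mono
    rintro p ⟨g, hg, _, rfl⟩
    exact ⟨g, hg, hg, rfl⟩
  · apply closure_minimal _ isClosed_closure
    rintro p ⟨g, hg, _, rfl⟩
    exact main_of_dich hN (dich_all hN) hS hrig hg

theorem classes_eq {S : Set (FreeGroup (Fin N))} (hS : ∀ s ∈ S, Primitive s) :
    Classes S = classes S := by
  ext p
  constructor
  · rintro ⟨g, hg, hne, hgS, rfl⟩
    exact ⟨g, hS g hgS, hgS, rfl⟩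
  · rintro ⟨g, hg, hgS, rfl⟩
    exact ⟨g, hg.ne_one, eta_ne_zero hg, hgS, rfl⟩

theorem rigid_dense' (hN : 2 ≤ N) {S : Set (FreeGroup (Fin N))} (hS : ∀ s ∈ S, Primitive s)
    (hrig : SpectrallyRigid S) :
    closure (Classes S) = closure (Classes {g : FreeGroup (Fin N) | Primitive g}) := by
  rw [classes_eq hS, classes_eq (S := {g : FreeGroup (Fin N) | Primitive g}) fun _ h => h]
  exact rigid_dense hN hS hrig

end Pool.Agent.H67R4.SR
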